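import Pool.Agent.Run7.h795.Pages

/-!
# Collapsing a polygonal arc
-/

set_option autoImplicit false

open Set Classical
open Pool.Agent.Helper770.Crossing Pool.Agent.NH90.CN

namespace Run7.h795

/-- the gauge of the squeezing map -/
noncomputable def gau (L K : ℝ) (z : ℂ) : ℝ := max (max (L * |z.im|) (K * (z.re - 1))) (-z.re)

/-- squeezing the segment from `0` to `1` into `0` -/
noncomputable def sq (L K : ℝ) (z : ℂ) : ℂ := ((gau L K z / max z.re (gau L K z) : ℝ) : ℂ) * z

section sq

variable {L K : ℝ}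

theorem gau_nonneg (hL : 0 < L) (z : ℂ) : 0 ≤ gau L K z :=
  le_max_of_le_left (le_max_of_le_left (mul_nonneg hL.le (abs_nonneg _)))

theorem gau_neg (z : ℂ) : -z.re ≤ gau L K z := le_max_right _ _

theorem gau_pos (hL : 0 < L) {z : ℂ} (hz : z ≠ 0) (hx : z.re ≤ 0) :
    0 < gau L K z := by
  by_contra h
  have h0 := le_antisymm (not_lt.1 h) (gau_nonneg hL z)
  have h1 : L * |z.im| ≤ 0 := h0 ▸ le_max_of_le_left (le_max_left _ _)
  have h2 : -z.re ≤ 0 := h0 ▸ gau_neg z
  have h3 : |z.im| ≤ 0 := by
    by_contra h4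
    have := mul_pos hL (not_le.1 h4)
    linarith
  have h4 : z.im = 0 := abs_nonpos_iff.1 h3
  exact hz (Complex.ext (by simp; linarith) (by simpa using h4))

theorem den_pos (hL : 0 < L) {z : ℂ} (hz : z ≠ 0) :
    0 < max z.re (gau L K z) := by
  by_cases hx : z.re ≤ 0
  · exact lt_max_of_lt_right (gau_pos hL hz hx)
  · exact lt_max_of_lt_left (not_le.1 hx)

theorem gau_cont : Continuous (gau L K) := by
  unfold gau
  fun_prop

theorem rat_mem (hL : 0 < L) (hK : 0 < K) (z : ℂ) :
    0 ≤ gau L K z / max z.re (gau L K z) ∧ gau L K z / max z.re (gau L K z) ≤ 1 := by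
  by_cases hz : z = 0
  · subst hz
    have h1 : gau L K 0 = 0 := by simp [gau, hK.le]
    simp [h1]
  · have h := den_pos (K := K) hL hz
    exact ⟨div_nonneg (gau_nonneg hL z) h.le, (div_le_one h).2 (le_max_right _ _)⟩

theorem sq_zero : sq L K 0 = 0 := by simp [sq]

theorem sq_cont (hL : 0 < L) (hK : 0 < K) : Continuous (sq L K) := by
  rw [continuous_iff_continuousAt]
  intro z
  by_cases hz : z = 0
  · subst hz
    rw [ContinuousAt, sq_zero, tendsto_zero_iff_norm_tendsto_zero]
    refine squeeze_zero (fun w => norm_nonneg _) (g := fun w : ℂ => ‖w‖) ?_ ?_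
    · intro w
      have h := rat_mem hL hK w
      unfold sq
      rw [norm_mul, Complex.norm_real, Real.norm_of_nonneg h.1]
      exact mul_le_of_le_one_left (norm_nonneg _) h.2
    · have : Filter.Tendsto (fun w : ℂ => ‖w‖) (nhds 0) (nhds ‖(0 : ℂ)‖) :=
        continuous_norm.tendsto 0
      rwa [norm_zero] at this
  · have h1 : ContinuousAt (fun w : ℂ => gau L K w / max w.re (gau L K w)) z := by
      refine ContinuousAt.div gau_cont.continuousAt ?_ (den_pos hL hz).ne'
      exact (Complex.continuous_re.max gau_cont).continuousAt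
    exact (Complex.continuous_ofReal.continuousAt.comp h1).mul continuousAt_id

/-- points which are not moved -/
theorem sq_id (hL : 0 < L) (hK : 0 < K) {z : ℂ}
    (h : 0 < z.re → z.re ≤ L * |z.im| ∨ z.re ≤ K * (z.re - 1)) : sq L K z = z := by
  by_cases hz : z = 0
  · rw [hz, sq_zero]
  · have h1 : z.re ≤ gau L K z := by
      by_cases hx : 0 < z.re
      · rcases h hx with h | h
        · exact le_max_of_le_left (le_max_of_le_left h)
        · exact le_max_of_le_left (le_max_of_le_right h)
      · have := gau_nonneg (K := K) hL z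
        linarith [not_lt.1 hx]
    have h2 := den_pos (K := K) hL hz
    rw [max_eq_right h1] at h2
    unfold sq
    rw [max_eq_right h1, div_self h2.ne']
    simp

/-- the preimage of `0` -/
theorem sq_eq_zero (hL : 0 < L) (hK : 0 < K) {z : ℂ} :
    sq L K z = 0 ↔ z ∈ segment ℝ (0 : ℂ) 1 := by
  rw [T3.mem_seg]
  constructor
  · intro h
    by_cases hz : z = 0
    · exact ⟨0, le_rfl, by norm_num, by rw [hz]; simp⟩
    · unfold sq at h
      rcases mul_eq_zero.1 h with h1 | h1
      · have h2 : gau L K z / max z.re (gau L K z) = 0 := by exact_mod_cast h1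
        rcases div_eq_zero_iff.1 h2 with h3 | h3
        · have h4 : L * |z.im| ≤ 0 := h3 ▸ le_max_of_le_left (le_max_left _ _)
          have h5 : K * (z.re - 1) ≤ 0 := h3 ▸ le_max_of_le_left (le_max_right _ _)
          have h6 : -z.re ≤ 0 := h3 ▸ gau_neg z
          have h7 : |z.im| ≤ 0 := by
            by_contra h8
            have := mul_pos hL (not_le.1 h8)
            linarith
          have h8 : z.re ≤ 1 := by
            by_contra h9
            have := mul_pos hK (sub_pos.2 (not_le.1 h9))
            linarith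
          refine ⟨z.re, by linarith, h8, ?_⟩
          apply Complex.ext
          · simp
          · simp [abs_nonpos_iff.1 h7]
        · exact absurd h3 (den_pos hL hz).ne'
      · exact absurd h1 hz
  · rintro ⟨t, ht0, ht1, rfl⟩
    have h1 : gau L K (0 + (t : ℂ) * (1 - 0)) = 0 := by
      unfold gau
      simp only [zero_add, sub_zero, mul_one, Complex.ofReal_im, abs_zero, mul_zero,
        Complex.ofReal_re]
      rw [max_eq_left, max_eq_left]
      · exact mul_nonpos_of_nonneg_of_nonpos hK.le (by linarith)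
      · exact le_max_of_le_left (by linarith)
    unfold sq
    rw [h1]
    simp

/-- the gauge grows along rays -/
theorem gau_lt (hK : 0 < K) {z : ℂ} {t : ℝ} (ht : 1 < t) (hx : 0 < z.re)
    (hg : 0 < gau L K z) : gau L K z < gau L K ((t : ℂ) * z) := by
  have e1 : ((t : ℂ) * z).re = t * z.re := by simp
  have e2 : ((t : ℂ) * z).im = t * z.im := by simp
  unfold gau at *
  rw [e1, e2, abs_mul, abs_of_pos (by linarith : 0 < t)]
  have hx' : -z.re < 0 := by linarith
  rcases lt_max_iff.1 hg with h | h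
  · rcases lt_max_iff.1 h with h | h
    · -- the first term is positive
      have h1 : L * |z.im| < L * (t * |z.im|) := by
        have : L * (t * |z.im|) = t * (L * |z.im|) := by ring
        rw [this]
        nlinarith
      have h2 : K * (z.re - 1) < K * (t * z.re - 1) := by
        apply mul_lt_mul_of_pos_left _ hK
        nlinarith
      refine max_lt (max_lt ?_ ?_) ?_
      · exact lt_max_of_lt_left (lt_max_of_lt_left h1)
      · exact lt_max_of_lt_left (lt_max_of_lt_right h2)
      · exact lt_max_of_lt_left (lt_max_of_lt_left (by linarith))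
    · have h2 : K * (z.re - 1) < K * (t * z.re - 1) := by
        apply mul_lt_mul_of_pos_left _ hK
        nlinarith
      refine max_lt (max_lt ?_ ?_) ?_
      · by_cases h3 : L * |z.im| < K * (t * z.re - 1)
        · exact lt_max_of_lt_left (lt_max_of_lt_right h3)
        · have h4 : 0 < L * |z.im| := by linarith [not_lt.1 h3]
          have h1 : L * |z.im| < L * (t * |z.im|) := by
            have : L * (t * |z.im|) = t * (L * |z.im|) := by ring
            rw [this]
            nlinarith
          exact lt_max_of_lt_left (lt_max_of_lt_left h1)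
      · exact lt_max_of_lt_left (lt_max_of_lt_right h2)
      · exact lt_max_of_lt_left (lt_max_of_lt_right (by linarith))
  · linarith

theorem sq_ray (hL : 0 < L) (hK : 0 < K) {z : ℂ} {t : ℝ} (ht : 1 < t) (hz : sq L K z ≠ 0) :
    sq L K z ≠ sq L K ((t : ℂ) * z) := by
  intro h
  have hz0 : z ≠ 0 := fun h0 => hz (by rw [h0, sq_zero])
  have ht0 : (t : ℂ) * z ≠ 0 := mul_ne_zero (by exact_mod_cast (by linarith : t ≠ 0)) hz0
  have d1 := den_pos (K := K) hL hz0
  have d2 := den_pos (K := K) hL ht0
  have hr : gau L K z / max z.re (gau L K z) =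
      gau L K ((t : ℂ) * z) / max ((t : ℂ) * z).re (gau L K ((t : ℂ) * z)) * t := by
    unfold sq at h
    rw [← mul_assoc] at h
    have := mul_right_cancel₀ hz0 h
    exact_mod_cast this
  have e1 : ((t : ℂ) * z).re = t * z.re := by simp
  rw [e1] at hr d2
  rw [div_mul_eq_mul_div, div_eq_div_iff d1.ne' d2.ne'] at hr
  have hg0 : gau L K z ≠ 0 := by
    intro h0
    apply hz
    unfold sq
    rw [h0]
    simp
  have hg : 0 < gau L K z := lt_of_le_of_ne (gau_nonneg hL z) hg0.symm
  by_cases hx : z.re ≤ 0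
  · have h1 : z.re ≤ gau L K z := by linarith
    have h2 : t * z.re ≤ gau L K ((t : ℂ) * z) := by
      have := gau_nonneg (K := K) hL ((t : ℂ) * z)
      nlinarith
    rw [max_eq_right h1, max_eq_right h2] at hr
    rw [max_eq_right h2] at d2
    have : gau L K z * gau L K ((t : ℂ) * z) * (t - 1) = 0 := by linarith
    rcases mul_eq_zero.1 this with h3 | h3
    · rcases mul_eq_zero.1 h3 with h4 | h4
      · exact hg0 h4
      · exact d2.ne' h4
    · linarith
  · have hx' := not_le.1 hx
    have hlt := gau_lt hK ht hx' hg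
    -- the two sides
    set g := gau L K z
    set g' := gau L K ((t : ℂ) * z)
    rcases le_total g' (t * z.re) with h1 | h1
    · rw [max_eq_left h1] at hr
      rcases le_total g z.re with h2 | h2
      · rw [max_eq_left h2] at hr
        have : t * z.re * (g' - g) = 0 := by linarith
        rcases mul_eq_zero.1 this with h3 | h3
        · have : 0 < t * z.re := by positivity
          linarith
        · linarith
      · rw [max_eq_right h2] at hr
        have : g * t * (g' - z.re) = 0 := by linarith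
        rcases mul_eq_zero.1 this with h3 | h3
        · have : 0 < g * t := by positivity
          linarith
        · linarith
    · rw [max_eq_right h1] at hr
      rcases le_total g z.re with h2 | h2
      · rw [max_eq_left h2] at hr
        have : g' * (t * z.re - g) = 0 := by linarith
        rcases mul_eq_zero.1 this with h3 | h3
        · linarith
        · have : 0 < (t - 1) * z.re := by
            have := sub_pos.2 ht
            positivity
          nlinarith
      · rw [max_eq_right h2] at hr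
        have : g * g' * (t - 1) = 0 := by linarith
        have h4 : 0 < g' := by linarith
        have h5 : 0 < g * g' * (t - 1) := by
          have := sub_pos.2 ht
          positivity
        linarith

theorem sq_inj (hL : 0 < L) (hK : 0 < K) {z z' : ℂ} (hz : sq L K z ≠ 0)
    (h : sq L K z = sq L K z') : z = z' := by
  have hz' : sq L K z' ≠ 0 := h ▸ hz
  set r := gau L K z / max z.re (gau L K z) with hr
  set r' := gau L K z' / max z'.re (gau L K z') with hr'
  have e1 : sq L K z = (r : ℂ) * z := rfl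
  have e2 : sq L K z' = (r' : ℂ) * z' := rfl
  have hr0 : r ≠ 0 := fun h0 => hz (by rw [e1, h0]; simp)
  have hr0' : r' ≠ 0 := fun h0 => hz' (by rw [e2, h0]; simp)
  have hrp : 0 < r := lt_of_le_of_ne (rat_mem hL hK z).1 hr0.symm
  have hrp' : 0 < r' := lt_of_le_of_ne (rat_mem hL hK z').1 hr0'.symm
  have hc' : (r' : ℂ) ≠ 0 := by exact_mod_cast hr0'
  have hc : (r : ℂ) ≠ 0 := by exact_mod_cast hr0
  have e3 : z' = ((r / r' : ℝ) : ℂ) * z := by
    push_cast
    rw [e1, e2] at h
    field_simp
    linear_combination -h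
  have e4 : z = ((r' / r : ℝ) : ℂ) * z' := by
    push_cast
    rw [e1, e2] at h
    field_simp
    linear_combination h
  rcases lt_trichotomy r r' with h1 | h1 | h1
  · exfalso
    refine sq_ray hL hK (z := z') (t := r' / r) ((one_lt_div hrp).2 h1) hz' ?_
    rw [← e4]
    exact h.symm
  · rw [e3, h1, div_self hr0']
    simp
  · exfalso
    refine sq_ray hL hK (z := z) (t := r / r') ((one_lt_div hrp').2 h1) hz ?_
    rw [← e3]
    exact h

end sq

/-- the constants for one obstacle -/
theorem exists_LK (u w : ℂ) (h : ∀ z ∈ segment ℝ u w, z ∈ segment ℝ (0 : ℂ) 1 → z = 0) :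
    ∃ L : ℝ, 0 < L ∧ ∀ L', L ≤ L' → ∀ K', L ≤ K' → ∀ z ∈ segment ℝ u w, 0 < z.re →
      z.re ≤ L' * |z.im| ∨ z.re ≤ K' * (z.re - 1) := by
  by_cases h0 : (0 : ℂ) ∈ segment ℝ u w
  · obtain ⟨t0, ht0, ht1, h1⟩ := T3.mem_seg.1 h0
    set v := w - u with hv
    have hz : ∀ z ∈ segment ℝ u w, ∃ c : ℝ, z = (c : ℂ) * v := by
      intro z hz
      obtain ⟨t, _, _, rfl⟩ := T3.mem_seg.1 hz
      refine ⟨t - t0, ?_⟩
      push_cast
      linear_combination -h1
    by_cases hvi : v.im = 0
    · refine ⟨1, one_pos, fun L' _ K' _ z hz' hx => ?_⟩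
      exfalso
      obtain ⟨c, rfl⟩ := hz z hz'
      have him : ((c : ℂ) * v).im = 0 := by simp [hvi]
      set x := ((c : ℂ) * v).re with hxd
      have hcv : (c : ℂ) * v = (x : ℂ) := Complex.ext (by simp [hxd]) (by rw [him]; simp)
      have hm : 0 < min 1 x := lt_min one_pos hx
      have h2 : ((min 1 x : ℝ) : ℂ) ∈ segment ℝ u w := by
        refine (convex_segment u w).segment_subset h0 hz' ?_
        rw [T3.mem_seg, hcv]
        refine ⟨min 1 x / x, by positivity, (div_le_one hx).2 (min_le_right _ _), ?_⟩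
        have : (x : ℂ) ≠ 0 := by exact_mod_cast hx.ne'
        push_cast
        field_simp
        simp
      have h3 := h _ h2 (by
        rw [T3.mem_seg]
        exact ⟨min 1 x, hm.le, min_le_left _ _, by simp⟩)
      have h4 : min 1 x = 0 := by exact_mod_cast h3
      exact hm.ne' h4
    · have hvp : 0 < |v.im| := abs_pos.2 hvi
      refine ⟨|v.re| / |v.im| + 1, by positivity, fun L' hL' K' _ z hz' _ => Or.inl ?_⟩
      obtain ⟨c, rfl⟩ := hz z hz'
      have e1 : ((c : ℂ) * v).re = c * v.re := by simp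
      have e2 : ((c : ℂ) * v).im = c * v.im := by simp
      rw [e1, e2, abs_mul]
      have h1 : |v.re| / |v.im| * (|c| * |v.im|) = |c| * |v.re| := by
        field_simp
      have h2 : c * v.re ≤ |c| * |v.re| := by
        rw [← abs_mul]
        exact le_abs_self _
      have h3 : (|v.re| / |v.im| + 1) * (|c| * |v.im|) ≤ L' * (|c| * |v.im|) :=
        mul_le_mul_of_nonneg_right hL' (by positivity)
      have h4 : 0 ≤ |c| * |v.im| := by positivity
      nlinarith
  · have hd : Disjoint (segment ℝ u w) (segment ℝ (0 : ℂ) 1) := by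
      rw [Set.disjoint_left]
      intro z hz hz'
      rw [h z hz hz'] at hz
      exact h0 hz
    have hc1 : IsCompact (segment ℝ u w) := by
      rw [segment_eq_image]
      exact isCompact_Icc.image (by fun_prop)
    have hc2 : IsClosed (segment ℝ (0 : ℂ) 1) := by
      rw [segment_eq_image]
      exact (isCompact_Icc.image (by fun_prop)).isClosed
    obtain ⟨δ, hδ, hdist⟩ := Metric.exists_pos_forall_lt_edist hc1 hc2 hd
    have hδ' : 0 < (δ : ℝ) := by exact_mod_cast hδ
    have hdist' : ∀ x ∈ segment ℝ u w, ∀ y ∈ segment ℝ (0 : ℂ) 1, (δ : ℝ) < ‖x - y‖ := by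
      intro x hx y hy
      have h1 := hdist x hx y hy
      rw [edist_nndist, ENNReal.coe_lt_coe] at h1
      rw [← dist_eq_norm, ← coe_nndist]
      exact_mod_cast h1
    generalize (δ : ℝ) = δ at hδ' hdist'
    refine ⟨(2 + δ) / δ, by positivity, fun L' hL' K' hK' z hz hx => ?_⟩
    have hL'0 : 0 < L' := lt_of_lt_of_le (by positivity) hL'
    have hLδ : 2 + δ ≤ L' * δ := by
      have := (div_le_iff₀ hδ').1 hL'
      exact this
    have hKδ : 2 + δ ≤ K' * δ := by
      have := (div_le_iff₀ hδ').1 hK'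
      exact this
    rcases le_or_gt z.re 1 with hx1 | hx1
    · left
      have h1 := hdist' z hz (z.re : ℂ) (by
        rw [T3.mem_seg]
        exact ⟨z.re, hx.le, hx1, by simp⟩)
      have h2 : ‖z - (z.re : ℂ)‖ = |z.im| := by
        have : z - (z.re : ℂ) = (z.im : ℂ) * Complex.I := by
          apply Complex.ext <;> simp
        rw [this, norm_mul, Complex.norm_I, mul_one, Complex.norm_real, Real.norm_eq_abs]
      rw [h2] at h1
      have h3 : L' * δ ≤ L' * |z.im| := mul_le_mul_of_nonneg_left h1.le hL'0.le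
      linarith
    · have h1 := hdist' z hz (1 : ℂ) (right_mem_segment ℝ _ _)
      have h2 : ‖z - 1‖ ≤ |(z - 1).re| + |(z - 1).im| := Complex.norm_le_abs_re_add_abs_im _
      have e1 : (z - 1).re = z.re - 1 := by simp
      have e2 : (z - 1).im = z.im := by simp
      rw [e1, e2, abs_of_pos (by linarith : 0 < z.re - 1)] at h2
      rcases le_or_gt (δ / 2) (z.re - 1) with h3 | h3
      · right
        have h4 : (2 + δ) / δ * (z.re - 1) ≤ K' * (z.re - 1) :=
          mul_le_mul_of_nonneg_right hK' (by linarith)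
        have h5 : (2 + δ) / δ * (z.re - 1) = (z.re - 1) + 2 / δ * (z.re - 1) := by
          field_simp
          ring
        have h6 : 1 ≤ 2 / δ * (z.re - 1) :=
          calc 1 = 2 / δ * (δ / 2) := by field_simp
            _ ≤ _ := mul_le_mul_of_nonneg_left h3 (by positivity)
        linarith
      · left
        have h4 : δ / 2 ≤ |z.im| := by linarith
        have h5 : L' * (δ / 2) ≤ L' * |z.im| := mul_le_mul_of_nonneg_left h4 hL'0.le
        linarith

/-- the constants for finitely many obstacles -/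
theorem exists_LK_fin (T : Finset (Sym2 ℂ))
    (h : ∀ s ∈ T, ∀ z ∈ sg s, z ∈ segment ℝ (0 : ℂ) 1 → z = 0) :
    ∃ L : ℝ, 0 < L ∧ ∀ s ∈ T, ∀ z ∈ sg s, 0 < z.re →
      z.re ≤ L * |z.im| ∨ z.re ≤ L * (z.re - 1) := by
  have h1 : ∀ s : Sym2 ℂ, ∃ L : ℝ, 0 < L ∧ (s ∈ T → ∀ L', L ≤ L' → ∀ K', L ≤ K' →
      ∀ z ∈ sg s, 0 < z.re → z.re ≤ L' * |z.im| ∨ z.re ≤ K' * (z.re - 1)) := by
    intro s
    by_cases hs : s ∈ T
    · induction s with
      | h u w =>
        obtain ⟨L, hL, hL'⟩ := exists_LK u w (by
          have := h _ hs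
          rwa [T3.sgmk] at this)
        refine ⟨L, hL, fun _ => ?_⟩
        rw [T3.sgmk]
        exact hL'
    · exact ⟨1, one_pos, fun h => absurd h hs⟩
  choose L hL hL' using h1
  refine ⟨1 + ∑ s ∈ T, L s, ?_, ?_⟩
  · have : 0 ≤ ∑ s ∈ T, L s := Finset.sum_nonneg fun s _ => (hL s).le
    linarith
  · intro s hs
    have h2 : L s ≤ 1 + ∑ s ∈ T, L s := by
      have := Finset.single_le_sum (f := L) (fun s _ => (hL s).le) hs
      linarith
    exact hL' s hs _ h2 _ h2

/-- collapsing the segment from `b` to `a` into `b` -/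
theorem collapse_seg {a b : ℂ} (hab : a ≠ b) (T : Finset (Sym2 ℂ))
    (h : ∀ s ∈ T, ∀ z ∈ sg s, z ∈ segment ℝ b a → z = b) :
    ∃ ψ : ℂ → ℂ, Continuous ψ ∧ (∀ s ∈ T, ∀ z ∈ sg s, ψ z = z) ∧
      (∀ z, ψ z = b ↔ z ∈ segment ℝ b a) ∧
      ∀ z z', z ∉ segment ℝ b a → ψ z = ψ z' → z = z' := by
  have hab' : a - b ≠ 0 := sub_ne_zero.2 hab
  set ν : ℂ → ℂ := fun z => (z - b) / (a - b) with hν
  have hνi : ∀ z, b + (a - b) * ν z = z := by
    intro z
    rw [hν]
    field_simp
    ring
  have hνinj : ∀ z z', ν z = ν z' → z = z' := by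
    intro z z' h1
    rw [← hνi z, ← hνi z', h1]
  have hνseg : ∀ z, ν z ∈ segment ℝ (0 : ℂ) 1 ↔ z ∈ segment ℝ b a := by
    intro z
    rw [T3.mem_seg, T3.mem_seg]
    constructor
    · rintro ⟨t, h0, h1, h2⟩
      refine ⟨t, h0, h1, ?_⟩
      rw [← hνi z, h2]
      ring
    · rintro ⟨t, h0, h1, h2⟩
      refine ⟨t, h0, h1, ?_⟩
      rw [hν, h2]
      field_simp
      ring
  have hνu : ∀ u w z, z ∈ segment ℝ u w ↔ ν z ∈ segment ℝ (ν u) (ν w) := by
    intro u w z
    rw [T3.mem_seg, T3.mem_seg]
    constructor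
    · rintro ⟨t, h0, h1, h2⟩
      refine ⟨t, h0, h1, ?_⟩
      rw [hν, h2]
      field_simp
      ring
    · rintro ⟨t, h0, h1, h2⟩
      refine ⟨t, h0, h1, ?_⟩
      rw [← hνi z, h2, hν]
      field_simp
      ring
  obtain ⟨L, hL, hL'⟩ := exists_LK_fin (T.image (Sym2.map ν)) (by
    intro s hs z hz hz'
    rw [Finset.mem_image] at hs
    obtain ⟨s, hs, rfl⟩ := hs
    induction s with
    | h u w =>
      rw [Sym2.map_mk, T3.sgmk] at hz
      have hz1 : z = ν (b + (a - b) * z) := by
        rw [hν]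
        field_simp
        ring
      rw [hz1] at hz hz'
      rw [← hνu] at hz
      rw [hνseg] at hz'
      have := h _ hs _ (by rw [T3.sgmk]; exact hz) hz'
      have h2 : (a - b) * z = 0 := by linear_combination this
      rcases mul_eq_zero.1 h2 with h3 | h3
      · exact absurd h3 hab'
      · exact h3)
  refine ⟨fun z => b + (a - b) * sq L L (ν z), ?_, ?_, ?_, ?_⟩
  · have : Continuous ν := by
      rw [hν]
      exact (continuous_id.sub continuous_const).div_const _
    exact continuous_const.add (continuous_const.mul ((sq_cont hL hL).comp this))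
  · intro s hs z hz
    show b + (a - b) * sq L L (ν z) = z
    rw [sq_id hL hL, hνi]
    refine hL' (s.map ν) (Finset.mem_image_of_mem _ hs) (ν z) ?_
    induction s with
    | h u w =>
      rw [Sym2.map_mk, T3.sgmk, ← hνu, ← T3.sgmk]
      exact hz
  · intro z
    show b + (a - b) * sq L L (ν z) = b ↔ _
    rw [← hνseg, ← sq_eq_zero hL hL]
    constructor
    · intro h1
      have h2 : (a - b) * sq L L (ν z) = 0 := by linear_combination h1
      exact (mul_eq_zero.1 h2).resolve_left hab'
    · intro h1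
      rw [h1]
      ring
  · intro z z' hz h1
    have h1' : b + (a - b) * sq L L (ν z) = b + (a - b) * sq L L (ν z') := h1
    have h2 : sq L L (ν z) = sq L L (ν z') := mul_left_cancel₀ hab' (add_left_cancel h1')
    apply hνinj
    refine sq_inj hL hL ?_ h2
    rw [Ne, sq_eq_zero hL hL, hνseg]
    exact hz

/-! ### Polygonal arcs -/

/-- affine on an interval -/
def Aff (γ : ℝ → ℂ) (a b : ℝ) : Prop := ∃ p v : ℂ, ∀ t ∈ Icc a b, γ t = p + (t : ℂ) * v

/-- piecewise affine on an interval -/
inductive PLA (γ : ℝ → ℂ) : ℝ → ℝ → Prop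
  | one {a b : ℝ} : a ≤ b → Aff γ a b → PLA γ a b
  | cons {a b c : ℝ} : a ≤ b → Aff γ a b → PLA γ b c → PLA γ a c

theorem PLA.le {γ : ℝ → ℂ} {a b : ℝ} (h : PLA γ a b) : a ≤ b := by
  induction h with
  | one h _ => exact h
  | cons h _ _ ih => exact h.trans ih

theorem Aff.mono {γ : ℝ → ℂ} {a b s t : ℝ} (h : Aff γ a b) (hs : a ≤ s) (ht : t ≤ b) :
    Aff γ s t := by
  obtain ⟨p, v, h⟩ := h
  exact ⟨p, v, fun u hu => h u ⟨hs.trans hu.1, hu.2.trans ht⟩⟩

theorem PLA.mono {γ : ℝ → ℂ} {a c : ℝ} (h : PLA γ a c) : ∀ {s t : ℝ}, a ≤ s → s ≤ t → t ≤ c →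
    PLA γ s t := by
  induction h with
  | one h hA =>
    intro s t h1 h2 h3
    exact PLA.one h2 (hA.mono h1 h3)
  | @cons a b c h hA hB ih =>
    intro s t h1 h2 h3
    rcases le_total t b with h4 | h4
    · exact PLA.one h2 (hA.mono h1 h4)
    · rcases le_total s b with h5 | h5
      · exact PLA.cons h5 (hA.mono h1 le_rfl) (ih le_rfl h4 h3)
      · exact ih h5 h2 h3

/-- the image of an affine piece -/
theorem Aff.image {γ : ℝ → ℂ} {a b : ℝ} (hab : a ≤ b) (h : Aff γ a b) :
    γ '' Icc a b = segment ℝ (γ a) (γ b) := by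
  obtain ⟨p, v, h⟩ := h
  have ha := h a ⟨le_rfl, hab⟩
  have hb := h b ⟨hab, le_rfl⟩
  ext z
  rw [T3.mem_seg]
  constructor
  · rintro ⟨t, ht, rfl⟩
    rcases hab.eq_or_lt with h0 | h0
    · have : t = a := le_antisymm (h0 ▸ ht.2) ht.1
      exact ⟨0, le_rfl, by norm_num, by rw [this]; simp⟩
    · have hba : 0 < b - a := sub_pos.2 h0
      refine ⟨(t - a) / (b - a), div_nonneg (by linarith [ht.1]) hba.le,
        (div_le_one hba).2 (by linarith [ht.2]), ?_⟩
      rw [h t ht, ha, hb]
      have : ((b : ℂ) - a) ≠ 0 := by exact_mod_cast hba.ne'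
      push_cast
      field_simp
      ring
  · rintro ⟨τ, h0, h1, rfl⟩
    refine ⟨a + τ * (b - a), ?_, ?_⟩
    · have := sub_nonneg.2 hab
      constructor
      · nlinarith
      · nlinarith
    · rw [h _ ⟨by nlinarith [sub_nonneg.2 hab], by nlinarith [sub_nonneg.2 hab]⟩, ha, hb]
      push_cast
      ring

/-- the image of a polygonal arc is a finite union of segments -/
theorem PLA.image {γ : ℝ → ℂ} {a b : ℝ} (h : PLA γ a b) :
    ∃ T : Finset (Sym2 ℂ), γ '' Icc a b = ⋃ s ∈ T, sg s := by
  induction h with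
  | @one a b hab hA =>
    refine ⟨{s(γ a, γ b)}, ?_⟩
    rw [hA.image hab]
    simp [T3.sgmk]
  | @cons a b c hab hA hB ih =>
    obtain ⟨T, hT⟩ := ih
    refine ⟨insert s(γ a, γ b) T, ?_⟩
    rw [← Icc_union_Icc_eq_Icc hab hB.le, image_union, hT, hA.image hab]
    simp [T3.sgmk]

/-- collapsing a polygonal arc to its first point -/
theorem PLA.collapse {γ : ℝ → ℂ} {a b : ℝ} (h : PLA γ a b) :
    InjOn γ (Icc a b) → ∀ T : Finset (Sym2 ℂ),
    (∀ s ∈ T, ∀ z ∈ sg s, z ∈ γ '' Icc a b → z = γ a) →
    ∃ φ : ℂ → ℂ, Continuous φ ∧ (∀ s ∈ T, ∀ z ∈ sg s, φ z = z) ∧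
      (∀ z, φ z = γ a ↔ z ∈ γ '' Icc a b) ∧
      ∀ z z', z ∉ γ '' Icc a b → φ z = φ z' → z = z' := by
  induction h with
  | @one a b hab hA =>
    intro hinj T hT
    rw [hA.image hab] at hT ⊢
    rcases hab.eq_or_lt with h0 | h0
    · refine ⟨id, continuous_id, fun s _ z _ => rfl, ?_, fun z z' _ h => h⟩
      intro z
      rw [← h0, segment_same]
      exact Iff.rfl
    · refine collapse_seg ?_ T hT
      intro h1
      have := hinj ⟨hab, le_rfl⟩ ⟨le_rfl, hab⟩ h1
      linarith
  | @cons a b c hab hA hB ih =>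
    intro hinj T hT
    have hbc := hB.le
    rcases hab.eq_or_lt with h0 | h0
    · subst h0
      exact ih hinj T hT
    have hinj2 : InjOn γ (Icc b c) := hinj.mono (Icc_subset_Icc_left hab)
    have himg := hA.image hab
    -- points in both parts
    have hboth : ∀ z, z ∈ segment ℝ (γ a) (γ b) → z ∈ γ '' Icc b c → z = γ b := by
      intro z h1 h2
      rw [← himg] at h1
      obtain ⟨t, ht, rfl⟩ := h1
      obtain ⟨t', ht', h3⟩ := h2
      have := hinj ⟨hab.trans ht'.1, ht'.2⟩ ⟨ht.1, ht.2.trans hbc⟩ h3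
      rw [le_antisymm ht.2 (this ▸ ht'.1)]
    have hleft : ∀ z ∈ segment ℝ (γ a) (γ b), z ∈ γ '' Icc a c := by
      intro z hz
      rw [← himg] at hz
      exact image_mono (Icc_subset_Icc_right hbc) hz
    obtain ⟨φ, h1, h2, h3, h4⟩ := ih hinj2 (insert s(γ a, γ b) T) (by
      intro s hs z hz hz'
      rw [Finset.mem_insert] at hs
      rcases hs with rfl | hs
      · rw [T3.sgmk] at hz
        exact hboth z hz hz'
      · exfalso
        have h5 := hT s hs z hz (image_mono (Icc_subset_Icc_left hab) hz')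
        obtain ⟨t, ht, h6⟩ := hz'
        rw [h5] at h6
        have := hinj ⟨hab.trans ht.1, ht.2⟩ ⟨le_rfl, hab.trans hbc⟩ h6
        linarith [ht.1])
    obtain ⟨ψ, g1, g2, g3, g4⟩ := collapse_seg (a := γ b) (b := γ a) (by
      intro h5
      have := hinj ⟨hab, hbc⟩ ⟨le_rfl, hab.trans hbc⟩ h5
      linarith) T (fun s hs z hz hz' => hT s hs z hz (hleft z hz'))
    have hid : ∀ z ∈ segment ℝ (γ a) (γ b), φ z = z := fun z hz =>
      h2 s(γ a, γ b) (Finset.mem_insert_self _ _) z (by rw [T3.sgmk]; exact hz)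
    have key : ∀ z, φ z ∈ segment ℝ (γ a) (γ b) ↔ z ∈ γ '' Icc a c := by
      intro z
      constructor
      · intro hz
        by_cases h5 : φ z = γ b
        · exact image_mono (Icc_subset_Icc_left hab) ((h3 z).1 h5)
        · have h6 : φ z ∉ γ '' Icc b c := fun h7 => h5 (hboth _ hz h7)
          have h7 := h4 _ z h6 (hid _ hz)
          rw [h7] at hz
          exact hleft z hz
      · intro hz
        rw [← Icc_union_Icc_eq_Icc hab hbc, image_union] at hz
        rcases hz with hz | hz
        · rw [himg] at hz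
          rw [hid z hz]
          exact hz
        · rw [(h3 z).2 hz]
          exact right_mem_segment ℝ _ _
    refine ⟨fun z => ψ (φ z), g1.comp h1, ?_, ?_, ?_⟩
    · intro s hs z hz
      show ψ (φ z) = z
      rw [h2 s (Finset.mem_insert_of_mem hs) z hz, g2 s hs z hz]
    · intro z
      show ψ (φ z) = γ a ↔ _
      rw [g3, key]
    · intro z z' hz h5
      have hz1 : φ z ∉ segment ℝ (γ a) (γ b) := fun h6 => hz ((key z).1 h6)
      have h6 := g4 _ _ hz1 h5
      refine h4 z z' (fun h7 => hz (image_mono (Icc_subset_Icc_left hab) h7)) h6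

end Run7.h795
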