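import Pool.Agent.Run7.h795.Ties

/-!
# Graphs of bounded degree
-/

set_option autoImplicit false

open Set Classical
open Pool.Agent.Helper770.Crossing Pool.Agent.NH90.CN

namespace Run7.h795

section

variable {V : Type} [Fintype V] {G : SimpleGraph V}

/-- the edges at a vertex -/
noncomputable def inc (G : SimpleGraph V) (v : V) : Finset (Sym2 V) :=
  Finset.univ.filter (fun e => e ∈ G.edgeSet ∧ v ∈ e)

theorem inc_card (v : V) : (inc G v).card ≤ (G.neighborSet v).ncard := by
  rw [← Set.ncard_coe_finset]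
  refine (Set.ncard_le_ncard (t := (fun w => s(v, w)) '' G.neighborSet v) ?_
    (Set.toFinite _)).trans (Set.ncard_image_le (Set.toFinite _))
  intro e he
  rw [Finset.mem_coe, inc, Finset.mem_filter] at he
  obtain ⟨-, h1, h2⟩ := he
  induction e with
  | h a b =>
    rw [Sym2.mem_iff] at h2
    rcases h2 with rfl | rfl
    · exact ⟨b, h1, rfl⟩
    · exact ⟨a, (SimpleGraph.mem_edgeSet G).1 h1 |>.symm, Sym2.eq_swap⟩

/-- the crossing pairs joined by a set of edges with end-vertices of small degree -/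
theorem crs_count (D : Drawing G) (hS : ∀ e f, DX D e f ≤ 1) {hd tl : Sym2 V → V}
    (hht : ∀ e, s(hd e, tl e) = e) (Δ : ℕ) (M : Finset (Sym2 V))
    (hdeg : ∀ e ∈ M, ∀ v ∈ e, (inc G v).card ≤ Δ) :
    ∑ e : Sym2 V, ∑ f : Sym2 V, (if crs M e f then DX D e f else 0) ≤ 2 * Δ ^ 2 * M.card := by
  set B : Finset (Sym2 V × Sym2 V) :=
    Finset.univ.filter (fun p => crs M p.1 p.2 ∧ DX D p.1 p.2 ≠ 0) with hB
  have h1 : ∑ e : Sym2 V, ∑ f : Sym2 V, (if crs M e f then DX D e f else 0) ≤ B.card := by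
    rw [← Finset.sum_product', Finset.univ_product_univ, Finset.card_eq_sum_ones, hB,
      Finset.sum_filter]
    refine Finset.sum_le_sum fun p _ => ?_
    by_cases h : crs M p.1 p.2
    · by_cases h2 : DX D p.1 p.2 = 0
      · simp [h2]
      · rw [if_pos h, if_pos ⟨h, h2⟩]
        exact hS _ _
    · rw [if_neg h]
      exact Nat.zero_le _
  have h2 : B ⊆ M.biUnion (fun h => (inc G (hd h) ×ˢ inc G (tl h)) ∪
      (inc G (tl h) ×ˢ inc G (hd h))) := by
    intro p hp
    obtain ⟨-, ⟨u, hu, x, hx, hux⟩, h0⟩ := Finset.mem_filter.1 hp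
    obtain ⟨q1, q2, -⟩ := DX_ne h0
    rw [Finset.mem_biUnion]
    refine ⟨s(u, x), hux, ?_⟩
    have h3 := hht s(u, x)
    rw [Sym2.eq_iff] at h3
    rw [Finset.mem_union, Finset.mem_product, Finset.mem_product]
    unfold inc
    simp only [Finset.mem_filter, Finset.mem_univ, true_and]
    rcases h3 with ⟨h3, h4⟩ | ⟨h3, h4⟩
    · left
      rw [h3, h4]
      exact ⟨⟨q1, hu⟩, ⟨q2, hx⟩⟩
    · right
      rw [h3, h4]
      exact ⟨⟨q1, hu⟩, ⟨q2, hx⟩⟩
  refine h1.trans ((Finset.card_le_card h2).trans (Finset.card_biUnion_le.trans ?_))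
  have h3 : ∀ h ∈ M, ((inc G (hd h) ×ˢ inc G (tl h)) ∪ (inc G (tl h) ×ˢ inc G (hd h))).card ≤
      2 * Δ ^ 2 := by
    intro h hh
    have m1 : hd h ∈ h := by
      have := Sym2.mem_mk_left (hd h) (tl h)
      rwa [hht] at this
    have m2 : tl h ∈ h := by
      have := Sym2.mem_mk_right (hd h) (tl h)
      rwa [hht] at this
    refine (Finset.card_union_le _ _).trans ?_
    rw [Finset.card_product, Finset.card_product]
    have h4 := Nat.mul_le_mul (hdeg h hh _ m1) (hdeg h hh _ m2)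
    have h5 := Nat.mul_le_mul (hdeg h hh _ m2) (hdeg h hh _ m1)
    calc _ ≤ Δ * Δ + Δ * Δ := Nat.add_le_add h4 h5
      _ = 2 * Δ ^ 2 := by ring
  refine (Finset.sum_le_sum h3).trans (le_of_eq ?_)
  rw [Finset.sum_const, smul_eq_mul]
  ring

/-- the gain for one matching -/
theorem tie_gain (D : Drawing G) (hDf : D.crossings.Finite) (hD : Good D)
    (hS : ∀ e f, DX D e f ≤ 1) (Δ : ℕ) (M : Finset (Sym2 V))
    (hM : ∀ e ∈ M, ∀ f ∈ M, e ≠ f → ∀ u, u ∈ e → u ∉ f)
    (hdeg : ∀ e ∈ M, ∀ v ∈ e, (inc G v).card ≤ Δ) :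
    16 * biplanarCrossingNumber G + 2 * ∑ e ∈ M, cc D e ≤
      6 * D.crossings.ncard + 3 * (∑ e ∈ M, ∑ f ∈ M, DX D e f) + 14 * Δ ^ 2 * M.card := by
  obtain ⟨hd, tl, hht⟩ := exists_or V
  have h1 : NN V * (2 * biplanarCrossingNumber G) ≤ ∑ e : Sym2 V, ∑ f : Sym2 V,
      ∑ σ : V → Bool, term D hd tl e f (fun v => σ (rep hd M v)) := by
    have h3 : NN V * (2 * biplanarCrossingNumber G) =
        ∑ σ : V → Bool, 2 * biplanarCrossingNumber G := by
      rw [NN, Finset.sum_mul]
      simp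
    rw [h3]
    refine (Finset.sum_le_sum fun σ _ =>
      base_scheme D hDf hd tl hht (fun v => σ (rep hd M v))).trans (le_of_eq ?_)
    rw [Finset.sum_comm]
    refine Finset.sum_congr rfl fun e _ => ?_
    rw [Finset.sum_comm]
    rfl
  have h2 := crs_count D hS hht Δ M hdeg
  set S := ∑ e : Sym2 V, ∑ f : Sym2 V, DX D e f with hSd
  set C := ∑ e ∈ M, cc D e with hC
  set X := ∑ e ∈ M, ∑ f ∈ M, DX D e f with hX
  set R := ∑ e : Sym2 V, ∑ f : Sym2 V, (if crs M e f then DX D e f else 0) with hR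
  have s1 : S = 2 * D.crossings.ncard := ((t_CNT V G D).2 hDf).symm
  have c1 : ∑ e : Sym2 V, ∑ f : Sym2 V, (if e ∈ M then DX D e f else 0) = C := by
    rw [hC]
    unfold cc
    have : ∀ e : Sym2 V, ∑ f : Sym2 V, (if e ∈ M then DX D e f else 0) =
        if e ∈ M then ∑ f : Sym2 V, DX D e f else 0 := by
      intro e
      split_ifs <;> simp
    simp only [this]
    rw [Finset.sum_ite_mem, Finset.univ_inter]
  have c2 : ∑ e : Sym2 V, ∑ f : Sym2 V, (if f ∈ M then DX D e f else 0) = C := by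
    rw [← c1, Finset.sum_comm]
    refine Finset.sum_congr rfl fun e _ => Finset.sum_congr rfl fun f _ => ?_
    rw [DX_symm]
  have c3 : ∑ e : Sym2 V, ∑ f : Sym2 V, (if e ∈ M ∧ f ∈ M then DX D e f else 0) = X := by
    rw [hX]
    have : ∀ e : Sym2 V, ∑ f : Sym2 V, (if e ∈ M ∧ f ∈ M then DX D e f else 0) =
        if e ∈ M then ∑ f ∈ M, DX D e f else 0 := by
      intro e
      by_cases he : e ∈ M
      · simp only [he, true_and, if_true]
        rw [Finset.sum_ite_mem, Finset.univ_inter]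
      · simp [he]
    simp only [this]
    rw [Finset.sum_ite_mem, Finset.univ_inter]
  have key : 8 * (NN V * (2 * biplanarCrossingNumber G)) + NN V * (C + C) ≤
      NN V * (3 * S + 3 * X + 7 * R) := by
    have h3 : NN V * (C + C) = ∑ e : Sym2 V, ∑ f : Sym2 V,
        NN V * ((if e ∈ M then DX D e f else 0) + (if f ∈ M then DX D e f else 0)) := by
      simp only [← Finset.mul_sum, Finset.sum_add_distrib]
      rw [c1, c2]
    have h4 : NN V * (3 * S + 3 * X + 7 * R) = ∑ e : Sym2 V, ∑ f : Sym2 V,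
        NN V * (3 * DX D e f + 3 * (if e ∈ M ∧ f ∈ M then DX D e f else 0) +
        7 * (if crs M e f then DX D e f else 0)) := by
      simp only [← Finset.mul_sum, Finset.sum_add_distrib]
      rw [c3]
    rw [h4, h3]
    refine (Nat.add_le_add_right (Nat.mul_le_mul_left 8 h1) _).trans ?_
    rw [Finset.mul_sum, ← Finset.sum_add_distrib]
    refine Finset.sum_le_sum fun e _ => ?_
    rw [Finset.mul_sum, ← Finset.sum_add_distrib]
    exact Finset.sum_le_sum fun f _ => tie_avg hD hht hM e f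
  have key2 : NN V * (16 * biplanarCrossingNumber G + 2 * C) ≤ NN V * (3 * S + 3 * X + 7 * R) := by
    refine le_trans (le_of_eq ?_) key
    ring
  have key3 := Nat.le_of_mul_le_mul_left key2 NN_pos
  have h5 : 7 * R ≤ 14 * Δ ^ 2 * M.card := by
    calc 7 * R ≤ 7 * (2 * Δ ^ 2 * M.card) := Nat.mul_le_mul_left _ h2
      _ = _ := by ring
  rw [s1] at key3
  omega

/-- the gain for a set of edges with many crossings and end-vertices of small degree -/
theorem heavy_gain (D : Drawing G) (hDf : D.crossings.Finite) (hD : Good D)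
    (hS : ∀ e f, DX D e f ≤ 1) (Δ : ℕ) (H : Finset (Sym2 V)) (hH : ∀ e ∈ H, e ∈ G.edgeSet)
    (hdeg : ∀ e ∈ H, ∀ v ∈ e, (inc G v).card ≤ Δ) (hc : ∀ e ∈ H, 28 * Δ ^ 2 ≤ cc D e) :
    512 * Δ * biplanarCrossingNumber G + 3 * ∑ e ∈ H, cc D e ≤
      192 * Δ * D.crossings.ncard := by
  obtain ⟨M, hM1, hM2, hM3⟩ := exists_matching (cc D) Δ H.card H rfl (by
    intro v
    rcases (H.filter (fun e => v ∈ e)).eq_empty_or_nonempty with h0 | ⟨e, he⟩
    · rw [h0]
      simp
    · obtain ⟨h1, h2⟩ := Finset.mem_filter.1 he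
      refine le_trans (Finset.card_le_card ?_) (hdeg e h1 v h2)
      intro f hf
      obtain ⟨h3, h4⟩ := Finset.mem_filter.1 hf
      exact Finset.mem_filter.2 ⟨Finset.mem_univ _, hH f h3, h4⟩)
  obtain ⟨κ, hκ⟩ := exists_parts (DX D) (DX_symm D) (fun x => by
    by_contra h
    exact (DX_ne h).2.2 rfl) M
  -- the parts
  have h1 : ∀ i : Fin 4, 16 * biplanarCrossingNumber G + 2 * ∑ e ∈ M.filter (fun e => κ e = i),
      cc D e ≤ 6 * D.crossings.ncard + 3 * (∑ e ∈ M.filter (fun e => κ e = i),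
        ∑ f ∈ M.filter (fun e => κ e = i), DX D e f) +
        14 * Δ ^ 2 * (M.filter (fun e => κ e = i)).card := fun i =>
    tie_gain D hDf hD hS Δ _
      (fun e he f hf => hM2 e (Finset.mem_filter.1 he).1 f (Finset.mem_filter.1 hf).1)
      (fun e he => hdeg e (hM1 (Finset.mem_filter.1 he).1))
  have h2 := Finset.sum_le_sum fun (i : Fin 4) (_ : i ∈ Finset.univ) => h1 i
  simp only [Finset.sum_add_distrib, ← Finset.mul_sum, Finset.sum_const, Finset.card_univ,
    Fintype.card_fin, smul_eq_mul] at h2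
  have e1 : ∑ i : Fin 4, ∑ e ∈ M.filter (fun e => κ e = i), cc D e = ∑ e ∈ M, cc D e := by
    exact Finset.sum_fiberwise M κ _
  have e2 : ∑ i : Fin 4, (M.filter (fun e => κ e = i)).card = M.card := by
    have := Finset.sum_fiberwise M κ (fun _ => 1)
    simpa using this
  have e3 : ∑ i : Fin 4, ∑ e ∈ M.filter (fun e => κ e = i),
      ∑ f ∈ M.filter (fun e => κ e = i), DX D e f =
      ∑ x ∈ M, ∑ y ∈ M, (if κ x = κ y then DX D x y else 0) := by
    rw [← Finset.sum_fiberwise M κ (fun x => ∑ y ∈ M, (if κ x = κ y then DX D x y else 0))]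
    refine Finset.sum_congr rfl fun i _ => Finset.sum_congr rfl fun e he => ?_
    rw [Finset.sum_filter]
    refine Finset.sum_congr rfl fun f _ => ?_
    rw [(Finset.mem_filter.1 he).2]
    by_cases h : κ f = i
    · rw [if_pos h, if_pos h.symm]
    · rw [if_neg h, if_neg (Ne.symm h)]
  rw [e1, e2, e3] at h2
  have h3 : ∑ x ∈ M, ∑ y ∈ M, DX D x y ≤ ∑ x ∈ M, cc D x :=
    Finset.sum_le_sum fun x _ => Finset.sum_le_sum_of_subset (Finset.subset_univ _)
  have h4 : 28 * Δ ^ 2 * M.card ≤ ∑ x ∈ M, cc D x := by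
    calc 28 * Δ ^ 2 * M.card = ∑ _x ∈ M, 28 * Δ ^ 2 := by
          rw [Finset.sum_const, smul_eq_mul]
          ring
      _ ≤ _ := Finset.sum_le_sum fun x hx => hc x (hM1 hx)
  set C := ∑ x ∈ M, cc D x
  set X := ∑ x ∈ M, ∑ y ∈ M, (if κ x = κ y then DX D x y else 0)
  set N := D.crossings.ncard
  set b := biplanarCrossingNumber G
  have h5 : 256 * b + 3 * C ≤ 96 * N := by
    have h6 : 14 * Δ ^ 2 * M.card * 2 ≤ C := le_trans (le_of_eq (by ring)) h4
    omega
  have h7 : 3 * ∑ e ∈ H, cc D e ≤ 3 * (2 * Δ * C) := Nat.mul_le_mul_left _ hM3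
  calc 512 * Δ * b + 3 * ∑ e ∈ H, cc D e ≤ 512 * Δ * b + 3 * (2 * Δ * C) := by omega
    _ = 2 * Δ * (256 * b + 3 * C) := by ring
    _ ≤ 2 * Δ * (96 * N) := Nat.mul_le_mul_left _ h5
    _ = 192 * Δ * N := by ring

/-- the number of vertices at crossed edges is large if there are many lightly crossed edges
between vertices of small degree -/
theorem light_count (D : Drawing G) (Δ B : ℕ) (L : Finset (Sym2 V))
    (hL : ∀ e ∈ L, e ∈ G.edgeSet ∧ cc D e ≤ B) (hdeg : ∀ e ∈ L, ∀ v ∈ e, (inc G v).card ≤ Δ) :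
    2 * ∑ e ∈ L, cc D e ≤ B * (Δ * (cv D).card) := by
  set L' := L.filter (fun e => cc D e ≠ 0) with hL'
  have h1 : ∑ e ∈ L, cc D e = ∑ e ∈ L', cc D e := by
    rw [hL', Finset.sum_filter]
    refine Finset.sum_congr rfl fun e _ => ?_
    by_cases h : cc D e = 0
    · simp [h]
    · simp [h]
  have h2 : ∑ e ∈ L', cc D e ≤ B * L'.card := by
    refine (Finset.sum_le_sum fun e he => (hL e (Finset.mem_filter.1 he).1).2).trans (le_of_eq ?_)
    rw [Finset.sum_const, smul_eq_mul, mul_comm]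
  have h3 : 2 * L'.card ≤ Δ * (cv D).card := by
    -- double counting
    have h4 : ∑ v ∈ cv D, (L'.filter (fun e => v ∈ e)).card ≤ Δ * (cv D).card := by
      have h5 : ∀ v ∈ cv D, (L'.filter (fun e => v ∈ e)).card ≤ Δ := by
        intro v _
        rcases (L'.filter (fun e => v ∈ e)).eq_empty_or_nonempty with h0 | ⟨e, he⟩
        · rw [h0]
          simp
        · obtain ⟨h1, h2⟩ := Finset.mem_filter.1 he
          obtain ⟨h1, -⟩ := Finset.mem_filter.1 h1
          refine le_trans (Finset.card_le_card ?_) (hdeg e h1 v h2)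
          intro f hf
          obtain ⟨h3, h4⟩ := Finset.mem_filter.1 hf
          obtain ⟨h3, -⟩ := Finset.mem_filter.1 h3
          exact Finset.mem_filter.2 ⟨Finset.mem_univ _, (hL f h3).1, h4⟩
      refine (Finset.sum_le_sum h5).trans (le_of_eq ?_)
      rw [Finset.sum_const, smul_eq_mul, mul_comm]
    have h6 : ∑ v ∈ cv D, (L'.filter (fun e => v ∈ e)).card = 2 * L'.card := by
      simp only [Finset.card_filter]
      rw [Finset.sum_comm, Finset.card_eq_sum_ones, Finset.mul_sum]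
      refine Finset.sum_congr rfl fun e he => ?_
      obtain ⟨he1, he2⟩ := Finset.mem_filter.1 he
      have hG := (hL e he1).1
      obtain ⟨f, hf⟩ : ∃ f, DX D e f ≠ 0 := by
        by_contra hcon
        push Not at hcon
        apply he2
        unfold cc
        exact Finset.sum_eq_zero fun f _ => hcon f
      rw [← Finset.sum_filter, Finset.sum_const, smul_eq_mul, mul_one, mul_one]
      induction e with
      | h a b =>
        have hab : a ≠ b := ((SimpleGraph.mem_edgeSet G).1 hG).ne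
        have : (cv D).filter (fun v => v ∈ s(a, b)) = {a, b} := by
          ext v
          rw [Finset.mem_filter, Sym2.mem_iff, Finset.mem_insert, Finset.mem_singleton]
          constructor
          · exact fun h => h.2
          · intro h
            refine ⟨Finset.mem_filter.2 ⟨Finset.mem_univ _, s(a, b), f, hf, ?_⟩, h⟩
            rw [Sym2.mem_iff]
            exact h
        rw [this, Finset.card_pair hab]
    omega
  rw [h1]
  calc 2 * ∑ e ∈ L', cc D e ≤ 2 * (B * L'.card) := Nat.mul_le_mul_left _ h2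
    _ = B * (2 * L'.card) := by ring
    _ ≤ B * (Δ * (cv D).card) := Nat.mul_le_mul_left _ h3

omit [Fintype V] in
/-- the subgraph of the edges between vertices of degree at most `Δ` -/
theorem low_eq (G : SimpleGraph V) (Δ : ℕ) :
    G.deleteEdges {e | ∃ v ∈ e, Δ < (G.neighborSet v).ncard} =
      sub G (fun e => ∀ v ∈ e, (G.neighborSet v).ncard ≤ Δ) := by
  rw [← SimpleGraph.edgeSet_inj, SimpleGraph.edgeSet_deleteEdges]
  ext e
  rw [mem_sub, mem_sdiff, mem_ofPred_eq]
  push Not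
  rfl

/-- **Graphs of bounded degree** -/
theorem degree_main (G : SimpleGraph V) (Δ : ℕ) (hΔ : 1 ≤ Δ) :
    25088 * Δ ^ 6 * crossingNumber G * biplanarCrossingNumber G +
      3 * crossingNumber (G.deleteEdges {e | ∃ v ∈ e, Δ < (G.neighborSet v).ncard}) ^ 2 ≤
      9408 * Δ ^ 6 * crossingNumber G ^ 2 := by
  obtain ⟨D, hDf, hD, hopt, hPLA, hNT⟩ := exists_nice V G
  have hS := simple_of_opt D hDf hopt hNT
  rw [low_eq]
  set Q : Sym2 V → Prop := fun e => ∀ v ∈ e, (G.neighborSet v).ncard ≤ Δ with hQ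
  set N' := crossingNumber (sub G Q) with hN'
  set E := Finset.univ.filter (fun e => e ∈ (sub G Q).edgeSet) with hE
  set H := E.filter (fun e => 28 * Δ ^ 2 ≤ cc D e) with hH
  set L := E.filter (fun e => ¬ 28 * Δ ^ 2 ≤ cc D e) with hL
  have hEmem : ∀ e ∈ E, e ∈ G.edgeSet ∧ ∀ v ∈ e, (inc G v).card ≤ Δ := by
    intro e he
    obtain ⟨h1, h2⟩ := mem_sub.1 (Finset.mem_filter.1 he).2
    exact ⟨h1, fun v hv => (inc_card v).trans (h2 v hv)⟩
  -- the crossings inside the subgraph
  have h1 : 2 * N' ≤ ∑ e ∈ E, cc D e := by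
    obtain ⟨P, hPf, hPX⟩ := restr (sub_le G Q) D hDf
    have h2 := two_cr P hPf (F := fun e f => if e ∈ E then DX D e f else 0) (by
      intro e he f hf hef
      rw [if_pos (Finset.mem_filter.2 ⟨Finset.mem_univ _, he⟩)]
      exact hPX e he f hf hef)
    refine h2.trans (le_of_eq ?_)
    unfold cc
    have : ∀ e : Sym2 V, ∑ f : Sym2 V, (if e ∈ E then DX D e f else 0) =
        if e ∈ E then ∑ f : Sym2 V, DX D e f else 0 := by
      intro e
      split_ifs <;> simp
    simp only [this]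
    rw [Finset.sum_ite_mem, Finset.univ_inter]
  have h2 : ∑ e ∈ E, cc D e = ∑ e ∈ H, cc D e + ∑ e ∈ L, cc D e :=
    (Finset.sum_filter_add_sum_filter_not E _ _).symm
  have hle : N' ≤ crossingNumber G := by
    obtain ⟨P, hPf, hPX⟩ := restr (sub_le G Q) D hDf
    have h3 := two_cr P hPf hPX
    rw [← (t_CNT V G D).2 hDf, hopt] at h3
    omega
  set N := crossingNumber G with hN
  set b := biplanarCrossingNumber G with hb
  have hNN : N' ^ 2 ≤ N * N' := by
    rw [pow_two]
    exact Nat.mul_le_mul_right _ hle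
  rcases le_total N' (∑ e ∈ H, cc D e) with h3 | h3
  · -- heavily crossed edges
    have h4 := heavy_gain D hDf hD hS Δ H (fun e he => (hEmem e (Finset.mem_filter.1 he).1).1)
      (fun e he => (hEmem e (Finset.mem_filter.1 he).1).2) (fun e he => (Finset.mem_filter.1 he).2)
    rw [hopt, ← hb] at h4
    have h5 : 512 * Δ * b + 3 * N' ≤ 192 * Δ * N := by omega
    have h6 : 1 ≤ Δ ^ 5 := Nat.one_le_pow _ _ hΔ
    calc 25088 * Δ ^ 6 * N * b + 3 * N' ^ 2
        ≤ 25088 * Δ ^ 6 * N * b + 3 * (N * N') := by omega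
      _ ≤ 25088 * Δ ^ 6 * N * b + 147 * Δ ^ 5 * (N * N') := by
          have : 3 * (N * N') ≤ 147 * Δ ^ 5 * (N * N') := Nat.mul_le_mul_right _ (by omega)
          omega
      _ = 49 * Δ ^ 5 * N * (512 * Δ * b + 3 * N') := by ring
      _ ≤ 49 * Δ ^ 5 * N * (192 * Δ * N) := Nat.mul_le_mul_left _ h5
      _ = 9408 * Δ ^ 6 * N ^ 2 := by ring
  · -- lightly crossed edges
    have h4 : N' ≤ ∑ e ∈ L, cc D e := by omega
    have h5 := light_count D Δ (28 * Δ ^ 2) L
      (fun e he => ⟨(hEmem e (Finset.mem_filter.1 he).1).1,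
        (not_le.1 (Finset.mem_filter.1 he).2).le⟩)
      (fun e he => (hEmem e (Finset.mem_filter.1 he).1).2)
    have h6 := sparse_vertices D hDf hD
    rw [hopt, ← hb] at h6
    set n := (cv D).card
    have h7 : N' ≤ 14 * Δ ^ 3 * n := by
      have : 2 * N' ≤ 2 * (14 * Δ ^ 3 * n) := by
        calc 2 * N' ≤ 2 * ∑ e ∈ L, cc D e := Nat.mul_le_mul_left _ h4
          _ ≤ 28 * Δ ^ 2 * (Δ * n) := h5
          _ = 2 * (14 * Δ ^ 3 * n) := by ring
      omega
    have h8 : N' ^ 2 ≤ 196 * Δ ^ 6 * n ^ 2 := by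
      calc N' ^ 2 ≤ (14 * Δ ^ 3 * n) ^ 2 := Nat.pow_le_pow_left h7 2
        _ = 196 * Δ ^ 6 * n ^ 2 := by ring
    calc 25088 * Δ ^ 6 * N * b + 3 * N' ^ 2
        ≤ 25088 * Δ ^ 6 * N * b + 3 * (196 * Δ ^ 6 * n ^ 2) := by omega
      _ = 196 * Δ ^ 6 * (128 * N * b + 3 * n ^ 2) := by ring
      _ ≤ 196 * Δ ^ 6 * (48 * N ^ 2) := Nat.mul_le_mul_left _ h6
      _ = 9408 * Δ ^ 6 * N ^ 2 := by ring

/-- the bound `3/8` -/
theorem three_eighths (G : SimpleGraph V) :
    8 * biplanarCrossingNumber G ≤ 3 * crossingNumber G := by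
  obtain ⟨D, hDf, hD, hopt⟩ := p_GOOD V G
  have h1 := sparse_vertices D hDf hD
  rw [hopt] at h1
  rcases Nat.eq_zero_or_pos (crossingNumber G) with h0 | h0
  · rcases isEmpty_or_nonempty V with hV | ⟨⟨v⟩⟩
    · have h5 := bip_le G (fun _ => True)
      have h6 : ∀ H : SimpleGraph V, crossingNumber H = 0 := by
        intro H
        obtain ⟨P, hPf, hPn⟩ := Pool.Agent.Helper770.Exist.crossingNumber_attained H
        rw [← hPn, Set.ncard_eq_zero hPf]
        refine eq_empty_of_forall_notMem ?_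
        rintro p ⟨e, he, _⟩
        induction e with
        | h a b => exact hV.elim a
      rw [h6, h6] at h5
      omega
    · have h5 := vertex_gluing G v
      have h6 := del_le D hDf hD v
      rw [← (t_CNT V G D).2 hDf, hopt] at h6
      omega
  · have h2 : 16 * crossingNumber G * (8 * biplanarCrossingNumber G) ≤
        16 * crossingNumber G * (3 * crossingNumber G) := by
      calc _ = 128 * crossingNumber G * biplanarCrossingNumber G := by ring
        _ ≤ 48 * crossingNumber G ^ 2 := by omega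
        _ = _ := by ring
    exact Nat.le_of_mul_le_mul_left h2 (by omega)

/-- the uniform bound for graphs of maximum degree at most `Δ` -/
theorem degree_bounded (G : SimpleGraph V) (Δ : ℕ) (hΔ : 1 ≤ Δ)
    (hdeg : ∀ v, (G.neighborSet v).ncard ≤ Δ) :
    25088 * Δ ^ 6 * biplanarCrossingNumber G + 3 * crossingNumber G ≤
      9408 * Δ ^ 6 * crossingNumber G := by
  have h1 := degree_main G Δ hΔ
  have h2 : G.deleteEdges {e | ∃ v ∈ e, Δ < (G.neighborSet v).ncard} = G := by
    rw [low_eq, ← SimpleGraph.edgeSet_inj]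
    ext e
    rw [mem_sub]
    exact ⟨fun h => h.1, fun h => ⟨h, fun v _ => hdeg v⟩⟩
  rw [h2] at h1
  rcases Nat.eq_zero_or_pos (crossingNumber G) with h0 | h0
  · have h3 := three_eighths G
    have h4 : biplanarCrossingNumber G = 0 := by omega
    rw [h0, h4]
    simp
  · have h3 : crossingNumber G * (25088 * Δ ^ 6 * biplanarCrossingNumber G +
        3 * crossingNumber G) ≤ crossingNumber G * (9408 * Δ ^ 6 * crossingNumber G) := by
      calc _ = 25088 * Δ ^ 6 * crossingNumber G * biplanarCrossingNumber G +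
            3 * crossingNumber G ^ 2 := by ring
        _ ≤ 9408 * Δ ^ 6 * crossingNumber G ^ 2 := h1
        _ = _ := by ring
    exact Nat.le_of_mul_le_mul_left h3 h0

end

end Run7.h795
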