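import Mathlib

/-!
# Independent sets (Turan's bound)
-/

set_option autoImplicit false

open Classical

namespace Run7.h795

/-- number of neighbours in `S` -/
noncomputable def dg {α : Type} (S : Finset α) (r : α → α → Prop) (a : α) : ℕ :=
  (S.filter (fun b => b ≠ a ∧ r a b)).card

theorem turan_aux {α : Type} (q : α → α → Prop) (hqs : ∀ a b, q a b → q b a) :
    ∀ (n : ℕ) (S : Finset α), S.card = n → ∃ I ⊆ S, (∀ a ∈ I, ∀ b ∈ I, a ≠ b → ¬ q a b) ∧
      S.card ^ 2 ≤ I.card * (S.card + ∑ a ∈ S, dg S q a) := by
  intro n
  induction n using Nat.strong_induction_on with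
  | _ n ih =>
    intro S hS
    rcases S.eq_empty_or_nonempty with h0 | h0
    · subst h0
      exact ⟨∅, le_rfl, by simp, by simp⟩
    obtain ⟨v, hv, hmin⟩ := Finset.exists_min_image S (dg S q) h0
    set N := S.filter (fun b => b ≠ v ∧ q v b) with hN
    have hvN : v ∉ N := by simp [hN]
    set M := insert v N with hM
    have hMS : M ⊆ S := by
      rw [hM]
      exact Finset.insert_subset hv (Finset.filter_subset _ _)
    have hMc : M.card = dg S q v + 1 := by
      rw [hM, Finset.card_insert_of_notMem hvN]
      rfl
    set S' := S \ M with hS'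
    have hcard : S'.card + M.card = S.card := Finset.card_sdiff_add_card_eq_card hMS
    obtain ⟨I, hI1, hI2, hI3⟩ := ih S'.card (by omega) S' rfl
    refine ⟨insert v I, ?_, ?_, ?_⟩
    · exact Finset.insert_subset hv (hI1.trans Finset.sdiff_subset)
    · have hout : ∀ b ∈ I, b ≠ v → ¬ q v b := by
        intro b hb hbv hvb
        have h1 := Finset.mem_sdiff.1 (hI1 hb)
        apply h1.2
        rw [hM, Finset.mem_insert]
        right
        rw [hN, Finset.mem_filter]
        exact ⟨h1.1, hbv, hvb⟩
      intro a ha b hb hab
      rw [Finset.mem_insert] at ha hb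
      rcases ha with rfl | ha
      · rcases hb with rfl | hb
        · exact absurd rfl hab
        · exact hout b hb hab.symm
      · rcases hb with rfl | hb
        · intro h
          exact hout a ha hab (hqs _ _ h)
        · exact hI2 a ha b hb hab
    · have hvI : v ∉ I := by
        intro h
        have h1 := Finset.mem_sdiff.1 (hI1 h)
        exact h1.2 (by rw [hM]; exact Finset.mem_insert_self _ _)
      rw [Finset.card_insert_of_notMem hvI]
      -- the sum of the degrees
      have h1 : ∑ a ∈ S, dg S q a = ∑ a ∈ S', dg S q a + ∑ a ∈ M, dg S q a :=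
        (Finset.sum_sdiff hMS).symm
      have h2 : ∑ a ∈ S', dg S' q a ≤ ∑ a ∈ S', dg S q a := by
        refine Finset.sum_le_sum fun a _ => ?_
        unfold dg
        exact Finset.card_le_card (Finset.filter_subset_filter _ Finset.sdiff_subset)
      have h3 : M.card * dg S q v ≤ ∑ a ∈ M, dg S q a := by
        rw [← smul_eq_mul, ← Finset.sum_const]
        exact Finset.sum_le_sum fun a ha => hmin a (hMS ha)
      have h4 : M.card * dg S q v + M.card = M.card * M.card := by
        rw [hMc]
        ring
      set x := M.card
      set y := S'.card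
      set k := I.card
      set P' := ∑ a ∈ S', dg S' q a
      have h5 : y ^ 2 ≤ k * (y + P') := hI3
      have h6 : x * x + (y + P') ≤ S.card + ∑ a ∈ S, dg S q a := by
        rw [h1, ← hcard]
        omega
      have h7 : 2 * x * y ≤ (y + P') + k * (x * x) := by
        rcases Nat.eq_zero_or_pos k with hk | hk
        · rw [hk, zero_mul] at h5
          have : y = 0 := by
            by_contra h
            have : 0 < y ^ 2 := by positivity
            omega
          rw [this]
          simp
        · have h8 : 2 * (k * x) * y ≤ (k * x) ^ 2 + y ^ 2 := two_mul_le_add_sq _ _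
          have h9 : k * (2 * x * y) ≤ k * ((y + P') + k * (x * x)) := by nlinarith
          exact Nat.le_of_mul_le_mul_left h9 hk
      calc S.card ^ 2 = (y + x) ^ 2 := by rw [hcard]
        _ = y ^ 2 + x * x + 2 * x * y := by ring
        _ ≤ k * (y + P') + x * x + ((y + P') + k * (x * x)) := by
            have := h5
            omega
        _ = (k + 1) * (x * x + (y + P')) := by ring
        _ ≤ (k + 1) * (S.card + ∑ a ∈ S, dg S q a) := Nat.mul_le_mul_left _ h6

theorem turan {α : Type} (q : α → α → Prop) (hqs : ∀ a b, q a b → q b a) (S : Finset α) :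
    ∃ I ⊆ S, (∀ a ∈ I, ∀ b ∈ I, a ≠ b → ¬ q a b) ∧
      S.card ^ 2 ≤ I.card * (S.card + ∑ a ∈ S, dg S q a) :=
  turan_aux q hqs S.card S rfl

end Run7.h795
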