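import Pool.Agent.Run7.h795.Vertex

/-!
# Optimal drawings are good
-/

set_option autoImplicit false

open Set Classical
open Pool.Agent.Helper770.Crossing Pool.Agent.NH90.CN

namespace Run7.h795

/-- a drawing in which two adjacent edges cross is not optimal -/
theorem not_good_lt {V : Type} [Fintype V] {G : SimpleGraph V} (D0 : Drawing G)
    (hf0 : D0.crossings.Finite) {e₀ f₀ : Sym2 V} (h0 : DX D0 e₀ f₀ ≠ 0) {v₀ : V} (hv1 : v₀ ∈ e₀)
    (hv2 : v₀ ∈ f₀) : crossingNumber G < D0.crossings.ncard := by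
  obtain ⟨he0, hf0', hef0⟩ := DX_ne h0
  obtain ⟨hd, tl, he'⟩ := exists_or V
  have he : ∀ e ∈ G.edgeSet, s(hd e, tl e) = e := fun e _ => he' e
  obtain ⟨W0, hP0, hL0, hN0⟩ := p_T1 V G D0 hd tl hf0 he
  obtain ⟨φ, hφ, hP1, hO1, hT1, hN1⟩ := p_GP (Sym2 V) (eF G) W0 hP0
  have hL1 := GOOD.lb_map hL0 hφ
  obtain ⟨W2, hP2, hO2, hT2, hE2, hS2, hN2⟩ := t_SIMP (Sym2 V) (eF G) _ hP1 hO1 hT1
  have hL2 := GOOD.lb_of hL1 hE2
  have hD2 := GOOD.ds_of he hP2 hL2
  have mem : ∀ {e : Sym2 V}, e ∈ G.edgeSet → e ∈ eF G := fun {e} h =>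
    Finset.mem_filter.2 ⟨Finset.mem_univ _, h⟩
  have hle : ∀ e ∈ G.edgeSet, ∀ f ∈ G.edgeSet, e ≠ f → Nx (W2 e) (W2 f) ≤ DX D0 e f :=
    fun e hee f hff hef => (hN2 e (mem hee) f (mem hff)).trans
      ((hN1 e (mem hee) f (mem hff)).trans (hN0 e hee f hff hef))
  have hTT : TT (eF G) W2 ≤ 2 * D0.crossings.ncard := by
    rw [(t_CNT V G D0).2 hf0]
    exact GOOD.le_sum D0 hle
  have key : ∀ W3 : Sym2 V → List ℂ, PL (eF G) W3 → PO (eF G) W3 →
      (∀ k ∈ eF G, (W3 k).head? = (W2 k).head? ∧ (W3 k).getLast? = (W2 k).getLast?) →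
      2 * crossingNumber G ≤ TT (eF G) W3 := by
    intro W3 hP3 hO3 hE3
    obtain ⟨D3, hf3, hD3⟩ := p_T3 V G hd tl _ W3 he hP3 hO3 (GOOD.lb_of hL2 hE3)
    have g1 := (t_CNT V G D3).2 hf3
    have g2 := GOOD.sum_le D3 hD3
    have g3 := GOOD.cr_le D3 hf3
    omega
  by_cases hcon : Nx (W2 e₀) (W2 f₀) = 0
  · have h1 := key W2 hP2 hO2 (fun k _ => ⟨rfl, rfl⟩)
    have h2 : TT (eF G) W2 < 2 * D0.crossings.ncard := by
      rw [(t_CNT V G D0).2 hf0, GOOD.sumDX]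
      unfold TT
      have hin : ∀ e ∈ eF G, ∀ f ∈ eF G, e ≠ f → Nx (W2 e) (W2 f) ≤ DX D0 e f :=
        fun e hee f hff hef => hle e (Finset.mem_filter.1 hee).2 f (Finset.mem_filter.1 hff).2 hef
      refine Finset.sum_lt_sum (fun e hee => Finset.sum_le_sum fun f hff => ?_)
        ⟨e₀, mem he0, Finset.sum_lt_sum (fun f hff => ?_) ⟨f₀, mem hf0', ?_⟩⟩
      · by_cases hef : e = f
        · rw [if_pos hef, if_pos hef]
        · rw [if_neg hef, if_neg hef]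
          exact hin e hee f hff hef
      · by_cases hef : e₀ = f
        · rw [if_pos hef, if_pos hef]
        · rw [if_neg hef, if_neg hef]
          exact hin e₀ (mem he0) f hff hef
      rw [if_neg hef0, if_neg hef0, hcon]
      exact Nat.pos_of_ne_zero h0
    omega
  · obtain ⟨W3, hP3, hO3, hE3, hT3⟩ := p_UNX (Sym2 V) (eF G) W2 hP2 hO2 hT2 hD2 hS2 e₀ (mem he0) f₀
      (mem hf0') hef0 ⟨_, GOOD.lb_en hL2 (mem he0) (u := v₀) (by rw [he' e₀]; exact hv1),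
        GOOD.lb_en hL2 (mem hf0') (u := v₀) (by rw [he' f₀]; exact hv2)⟩ hcon
    have h1 := key W3 hP3 hO3 hE3
    omega

theorem good_of_opt {V : Type} [Fintype V] {G : SimpleGraph V} (D : Drawing G)
    (hf : D.crossings.Finite) (hopt : D.crossings.ncard = crossingNumber G) : Good D := by
  intro e he f hff hef v hve hvf
  by_contra hcon
  have h0 : DX D e f ≠ 0 := by
    rw [DX, if_pos ⟨he, hff, hef⟩]
    intro h
    exact hcon ((Set.ncard_eq_zero (((t_CNT V G D).1.1 hf) e he f hff hef)).1 h)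
  have := not_good_lt D hf h0 hve hvf
  omega

end Run7.h795
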