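import Pool.Agent.Run7.h795.Sparse
import Pool.Agent.Run7.h795.Opt
import Pool.Agent.Run7.h795.Indep

/-!
# Drawings with few crossings per edge
-/

set_option autoImplicit false

open Set Classical
open Pool.Agent.Helper770.Crossing Pool.Agent.NH90.CN

namespace Run7.h795

/-- The edges of `G` that are crossed in the drawing `D`. -/
def crossedEdges {V : Type} {G : SimpleGraph V} (D : Drawing G) : Set (Sym2 V) :=
  {e | ∃ f z, (s(e, f), z) ∈ D.crossings}

section

variable {V : Type} [Fintype V] {G : SimpleGraph V}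

theorem mem_crossed (D : Drawing G) (hDf : D.crossings.Finite) {e : Sym2 V} :
    e ∈ crossedEdges D ↔ ∃ f, DX D e f ≠ 0 := by
  constructor
  · rintro ⟨f, z, e', he', f', hf', hne, h1, h2, h3⟩
    have key : ∀ e f : Sym2 V, e ∈ G.edgeSet → f ∈ G.edgeSet → e ≠ f →
        z ∈ D.arc e '' Ioo (0 : ℝ) 1 → z ∈ D.arc f '' Ioo (0 : ℝ) 1 → DX D e f ≠ 0 := by
      intro e f he hf hef h2 h3
      rw [DX, if_pos ⟨he, hf, hef⟩]
      intro h4
      have h5 := (Set.ncard_eq_zero (((t_CNT V G D).1.1 hDf) e he f hf hef)).1 h4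
      have h6 : z ∈ (∅ : Set ℂ) := h5 ▸ ⟨h2, h3⟩
      exact h6
    have h4 : s(e, f) = s(e', f') := h1
    rw [Sym2.eq_iff] at h4
    rcases h4 with ⟨rfl, rfl⟩ | ⟨rfl, rfl⟩
    · exact ⟨_, key _ _ he' hf' hne h2 h3⟩
    · exact ⟨_, key _ _ hf' he' hne.symm h3 h2⟩
  · rintro ⟨f, hf⟩
    obtain ⟨h1, h2, h3⟩ := DX_ne hf
    rw [DX, if_pos ⟨h1, h2, h3⟩] at hf
    obtain ⟨z, hz⟩ := Set.nonempty_of_ncard_ne_zero hf
    exact ⟨f, z, e, h1, f, h2, h3, rfl, hz.1, hz.2⟩

/-- the vertices at crossed edges -/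
noncomputable def cv (D : Drawing G) : Finset V :=
  Finset.univ.filter (fun a => ∃ e f, DX D e f ≠ 0 ∧ a ∈ e)

/-- the crossed edges as a finset -/
noncomputable def ce (D : Drawing G) : Finset (Sym2 V) :=
  Finset.univ.filter (fun e => ∃ f, DX D e f ≠ 0)

theorem ce_card (D : Drawing G) (hDf : D.crossings.Finite) :
    (crossedEdges D).ncard = (ce D).card := by
  rw [← Set.ncard_coe_finset]
  congr 1
  ext e
  rw [mem_crossed D hDf]
  simp [ce]

/-- conflict relation -/
def conf (D : Drawing G) (a b : V) : Prop :=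
  ∃ e f, DX D e f ≠ 0 ∧ (a ∈ e ∨ a ∈ f) ∧ (b ∈ e ∨ b ∈ f)

theorem dg_conf {D : Drawing G} (hD : Good D) (a : V) :
    dg (cv D) (conf D) a ≤ 3 * ∑ e : Sym2 V, ∑ f : Sym2 V, (if a ∈ e then DX D e f else 0) := by
  obtain ⟨hd, tl, hht⟩ := exists_or V
  set B : Finset (Sym2 V × Sym2 V) :=
    Finset.univ.filter (fun p => DX D p.1 p.2 ≠ 0 ∧ a ∈ p.1) with hB
  have h1 : (cv D).filter (fun b => b ≠ a ∧ conf D a b) ⊆
      B.biUnion (fun p => (E4 hd tl p.1 p.2).erase a) := by
    intro b hb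
    obtain ⟨-, hba, e, f, h0, ha, hb⟩ := Finset.mem_filter.1 hb
    rw [Finset.mem_biUnion]
    rcases ha with ha | ha
    · refine ⟨(e, f), Finset.mem_filter.2 ⟨Finset.mem_univ _, h0, ha⟩, ?_⟩
      rw [Finset.mem_erase]
      exact ⟨hba, (mem_E4 hht).2 hb⟩
    · refine ⟨(f, e), Finset.mem_filter.2 ⟨Finset.mem_univ _, by rwa [DX_symm], ha⟩, ?_⟩
      rw [Finset.mem_erase]
      exact ⟨hba, (mem_E4 hht).2 hb.symm⟩
  have h2 : dg (cv D) (conf D) a ≤ ∑ p ∈ B, 3 := by
    unfold dg
    have h3 := (Finset.card_le_card h1).trans Finset.card_biUnion_le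
    have h4 : ∑ p ∈ B, ((E4 hd tl p.1 p.2).erase a).card ≤ ∑ p ∈ B, 3 := by
      refine Finset.sum_le_sum fun p hp => ?_
      obtain ⟨-, h5, h6⟩ := Finset.mem_filter.1 hp
      rw [Finset.card_erase_of_mem ((mem_E4 hht).2 (Or.inl h6)), E4_card hD hht h5]
    refine le_trans ?_ (h3.trans h4)
    refine Finset.card_le_card fun b hb => ?_
    rw [Finset.mem_filter] at hb ⊢
    exact hb
  refine h2.trans ?_
  rw [← Finset.sum_product', Finset.mul_sum, Finset.sum_filter]
  refine Finset.sum_le_sum fun p _ => ?_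
  by_cases h3 : DX D p.1 p.2 ≠ 0 ∧ a ∈ p.1
  · rw [if_pos h3, if_pos h3.2]
    have := Nat.one_le_iff_ne_zero.2 h3.1
    omega
  · rw [if_neg h3]
    exact Nat.zero_le _

theorem cv_card_le (D : Drawing G) (hDf : D.crossings.Finite) :
    (cv D).card ≤ 4 * D.crossings.ncard := by
  have h1 := sum_vertex D
  rw [← (t_CNT V G D).2 hDf] at h1
  have h2 : ∑ a ∈ cv D, 1 ≤ ∑ a : V, ∑ e : Sym2 V, ∑ f : Sym2 V,
      (if a ∈ e then DX D e f else 0) := by
    refine le_trans (Finset.sum_le_sum fun a ha => ?_)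
      (Finset.sum_le_sum_of_subset (Finset.subset_univ _))
    obtain ⟨-, e, f, h3, h4⟩ := Finset.mem_filter.1 ha
    have h5 : (if a ∈ e then DX D e f else 0) ≤ ∑ f : Sym2 V, (if a ∈ e then DX D e f else 0) :=
      Finset.single_le_sum (f := fun f => if a ∈ e then DX D e f else 0)
        (fun f _ => Nat.zero_le _) (Finset.mem_univ f)
    have h6 : (∑ f : Sym2 V, (if a ∈ e then DX D e f else 0)) ≤
        ∑ e : Sym2 V, ∑ f : Sym2 V, (if a ∈ e then DX D e f else 0) :=
      Finset.single_le_sum (f := fun e => ∑ f : Sym2 V, if a ∈ e then DX D e f else 0)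
        (fun e _ => Nat.zero_le _) (Finset.mem_univ e)
    rw [if_pos h4] at h5
    have := Nat.one_le_iff_ne_zero.2 h3
    omega
  rw [Finset.sum_const, smul_eq_mul, mul_one] at h2
  omega

theorem ce_card_le (D : Drawing G) (hDf : D.crossings.Finite) :
    (ce D).card ≤ 2 * D.crossings.ncard := by
  rw [(t_CNT V G D).2 hDf, Finset.card_eq_sum_ones]
  refine le_trans (Finset.sum_le_sum fun e he => ?_)
    (Finset.sum_le_sum_of_subset (Finset.subset_univ _))
  obtain ⟨-, f, h3⟩ := Finset.mem_filter.1 he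
  have h5 : DX D e f ≤ ∑ f : Sym2 V, DX D e f :=
    Finset.single_le_sum (f := fun f => DX D e f) (fun f _ => Nat.zero_le _) (Finset.mem_univ f)
  have := Nat.one_le_iff_ne_zero.2 h3
  omega

/-- the gain in terms of the number of vertices at crossed edges -/
theorem sparse_vertices (D : Drawing G) (hDf : D.crossings.Finite) (hD : Good D) :
    128 * D.crossings.ncard * biplanarCrossingNumber G + 3 * (cv D).card ^ 2 ≤
      48 * D.crossings.ncard ^ 2 := by
  obtain ⟨I, hI1, hI2, hI3⟩ := turan (conf D) (fun a b ⟨e, f, h1, h2, h3⟩ => ⟨e, f, h1, h3, h2⟩)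
    (cv D)
  have h1 := independent_gain D hDf hD I
    (fun a ha => (Finset.mem_filter.1 (hI1 ha)).2)
    (by
      intro a ha b hb hab e f h0 h2
      have h3 := hI2 a ha b hb hab
      constructor
      · exact fun h4 => h3 ⟨e, f, h0, h2, Or.inl h4⟩
      · exact fun h4 => h3 ⟨e, f, h0, h2, Or.inr h4⟩)
  have h2 : ∑ a ∈ cv D, dg (cv D) (conf D) a ≤ 12 * D.crossings.ncard := by
    have h3 : ∑ a ∈ cv D, dg (cv D) (conf D) a ≤ ∑ a : V, 3 * ∑ e : Sym2 V, ∑ f : Sym2 V,
        (if a ∈ e then DX D e f else 0) :=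
      (Finset.sum_le_sum fun a _ => dg_conf hD a).trans
        (Finset.sum_le_sum_of_subset (Finset.subset_univ _))
    rw [← Finset.mul_sum, sum_vertex, ← (t_CNT V G D).2 hDf] at h3
    omega
  have h4 := cv_card_le D hDf
  set N := D.crossings.ncard
  set n := (cv D).card
  set k := I.card
  have h5 : n ^ 2 ≤ k * (16 * N) := hI3.trans (Nat.mul_le_mul_left _ (by omega))
  calc 128 * N * biplanarCrossingNumber G + 3 * n ^ 2
      ≤ 128 * N * biplanarCrossingNumber G + 3 * (k * (16 * N)) := by omega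
    _ = 16 * N * (8 * biplanarCrossingNumber G + 3 * k) := by ring
    _ ≤ 16 * N * (3 * N) := Nat.mul_le_mul_left _ h1
    _ = 48 * N ^ 2 := by ring

/-- crossing lemma for the crossed edges -/
theorem ce_cube (D : Drawing G) (hDf : D.crossings.Finite) (hD : Good D) :
    (ce D).card ^ 3 ≤ 108 * (cv D).card ^ 2 * D.crossings.ncard := by
  have hsub : ce D ⊆ EI G (cv D) := by
    intro e he
    obtain ⟨-, f, h3⟩ := Finset.mem_filter.1 he
    unfold EI eF
    rw [Finset.mem_filter, Finset.mem_filter]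
    refine ⟨⟨Finset.mem_univ _, (DX_ne h3).1⟩, fun v hv => ?_⟩
    exact Finset.mem_filter.2 ⟨Finset.mem_univ _, e, f, h3, hv⟩
  have h1 := Finset.card_le_card hsub
  have h2 := ce_card_le D hDf
  rcases le_total (6 * (cv D).card) (EI G (cv D)).card with h3 | h3
  · have h4 := p_CL V G D hDf hD (cv D) h3
    have h5 : XI D (cv D) ≤ 2 * D.crossings.ncard := by
      rw [(t_CNT V G D).2 hDf]
      unfold XI
      exact (Finset.sum_le_sum fun e _ =>
        Finset.sum_le_sum_of_subset (Finset.subset_univ _)).trans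
        (Finset.sum_le_sum_of_subset (Finset.subset_univ _))
    calc (ce D).card ^ 3 ≤ (EI G (cv D)).card ^ 3 := Nat.pow_le_pow_left h1 3
      _ ≤ 54 * (cv D).card ^ 2 * XI D (cv D) := h4
      _ ≤ 54 * (cv D).card ^ 2 * (2 * D.crossings.ncard) := Nat.mul_le_mul_left _ h5
      _ = 108 * (cv D).card ^ 2 * D.crossings.ncard := by ring
  · calc (ce D).card ^ 3 = (ce D).card ^ 2 * (ce D).card := by ring
      _ ≤ (6 * (cv D).card) ^ 2 * (2 * D.crossings.ncard) :=
          Nat.mul_le_mul (Nat.pow_le_pow_left (h1.trans h3) 2) h2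
      _ = 72 * ((cv D).card ^ 2 * D.crossings.ncard) := by ring
      _ ≤ 108 * ((cv D).card ^ 2 * D.crossings.ncard) := Nat.mul_le_mul_right _ (by norm_num)
      _ = 108 * (cv D).card ^ 2 * D.crossings.ncard := by ring

/-- **Drawings with few crossings per crossed edge** -/
theorem sparse_main (D : Drawing G) (hDf : D.crossings.Finite)
    (hopt : D.crossings.ncard = crossingNumber G) :
    4608 * crossingNumber G ^ 2 * biplanarCrossingNumber G + (crossedEdges D).ncard ^ 3 ≤
      1728 * crossingNumber G ^ 3 := by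
  have hD := good_of_opt D hDf hopt
  have h1 := sparse_vertices D hDf hD
  have h2 := ce_cube D hDf hD
  rw [ce_card D hDf]
  rw [hopt] at h1 h2
  set N := crossingNumber G
  set b := biplanarCrossingNumber G
  set n := (cv D).card
  set m := (ce D).card
  calc 4608 * N ^ 2 * b + m ^ 3 ≤ 4608 * N ^ 2 * b + 108 * n ^ 2 * N := by omega
    _ = 36 * N * (128 * N * b + 3 * n ^ 2) := by ring
    _ ≤ 36 * N * (48 * N ^ 2) := Nat.mul_le_mul_left _ h1
    _ = 1728 * N ^ 3 := by ring

end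

end Run7.h795
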