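import Mathlib

/-!
# Choosing a window
-/

set_option autoImplicit false

open Classical

namespace Run7.h795

/-- the `k` smallest elements -/
theorem exists_smallest {α : Type} (t : α → ℝ) (C : Finset α) (ht : Set.InjOn t C) :
    ∀ k, k ≤ C.card → ∃ B ⊆ C, B.card = k ∧ ∀ x ∈ B, ∀ y ∈ C \ B, t x < t y := by
  intro k
  induction k with
  | zero =>
    intro _
    exact ⟨∅, Finset.empty_subset _, Finset.card_empty, fun x hx => absurd hx (Finset.notMem_empty x)⟩
  | succ k ih =>
    intro hk
    obtain ⟨B, hBC, hBk, hB⟩ := ih (by omega)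
    have hne : (C \ B).Nonempty := by
      rw [← Finset.card_pos, Finset.card_sdiff_of_subset hBC]
      omega
    obtain ⟨m, hm, hmin⟩ := Finset.exists_min_image (C \ B) t hne
    obtain ⟨hmC, hmB⟩ := Finset.mem_sdiff.1 hm
    refine ⟨insert m B, Finset.insert_subset hmC hBC, ?_, ?_⟩
    · rw [Finset.card_insert_of_notMem hmB, hBk]
    · intro x hx y hy
      rw [Finset.mem_sdiff, Finset.mem_insert, not_or] at hy
      obtain ⟨hyC, hym, hyB⟩ := hy
      have hy' : y ∈ C \ B := Finset.mem_sdiff.2 ⟨hyC, hyB⟩
      rw [Finset.mem_insert] at hx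
      rcases hx with rfl | hx
      · exact lt_of_le_of_ne (hmin y hy') fun h => hym (ht hyC hmC h.symm)
      · exact hB x hx y hy'

/-- a window of between `k` and `2 k - 1` consecutive elements with large average weight -/
theorem exists_window {α : Type} (t w : α → ℝ) (μ : ℝ) (k : ℕ) (hk : 1 ≤ k) :
    ∀ (n : ℕ) (C : Finset α), C.card = n → Set.InjOn t C → k ≤ C.card →
      μ * C.card ≤ ∑ x ∈ C, w x → ∃ a ∈ C, ∃ b ∈ C, t a ≤ t b ∧
        k ≤ (C.filter (fun x => t a ≤ t x ∧ t x ≤ t b)).card ∧
        (C.filter (fun x => t a ≤ t x ∧ t x ≤ t b)).card ≤ 2 * k - 1 ∧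
        μ * (C.filter (fun x => t a ≤ t x ∧ t x ≤ t b)).card ≤
          ∑ x ∈ C.filter (fun x => t a ≤ t x ∧ t x ≤ t b), w x := by
  intro n
  induction n using Nat.strong_induction_on with
  | _ n ih =>
    intro C hC ht hkC hμ
    by_cases hlt : C.card < 2 * k
    · have hne : C.Nonempty := Finset.card_pos.1 (by omega)
      obtain ⟨a, ha, hmin⟩ := Finset.exists_min_image C t hne
      obtain ⟨b, hb, hmax⟩ := Finset.exists_max_image C t hne
      have hf : C.filter (fun x => t a ≤ t x ∧ t x ≤ t b) = C :=
        Finset.filter_true_of_mem fun x hx => ⟨hmin x hx, hmax x hx⟩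
      refine ⟨a, ha, b, hb, hmin b hb, ?_, ?_, ?_⟩
      · rw [hf]; exact hkC
      · rw [hf]; omega
      · rw [hf]; exact hμ
    · obtain ⟨B, hBC, hBk, hB⟩ := exists_smallest t C ht k hkC
      by_cases hgood : μ * B.card ≤ ∑ x ∈ B, w x
      · have hne : B.Nonempty := Finset.card_pos.1 (by omega)
        obtain ⟨a, ha, hmin⟩ := Finset.exists_min_image B t hne
        obtain ⟨b, hb, hmax⟩ := Finset.exists_max_image B t hne
        have hf : C.filter (fun x => t a ≤ t x ∧ t x ≤ t b) = B := by
          ext x
          rw [Finset.mem_filter]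
          constructor
          · rintro ⟨hx, -, h2⟩
            by_contra hxB
            have := hB b hb x (Finset.mem_sdiff.2 ⟨hx, hxB⟩)
            linarith
          · exact fun hx => ⟨hBC hx, hmin x hx, hmax x hx⟩
        refine ⟨a, hBC ha, b, hBC hb, hmin b hb, ?_, ?_, ?_⟩
        · rw [hf]; omega
        · rw [hf]; omega
        · rw [hf]; exact hgood
      · have hcard : (C \ B).card = C.card - k := by
          rw [Finset.card_sdiff_of_subset hBC, hBk]
        have hsum : ∑ x ∈ C \ B, w x + ∑ x ∈ B, w x = ∑ x ∈ C, w x := Finset.sum_sdiff hBC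
        obtain ⟨a, ha, b, hb, h1, h2, h3, h4⟩ := ih (C \ B).card (by omega) (C \ B) rfl
          (ht.mono (by
            intro x hx
            exact Finset.mem_coe.2 (Finset.mem_sdiff.1 (Finset.mem_coe.1 hx)).1)) (by omega) (by
            rw [hcard, Nat.cast_sub hkC]
            rw [hBk] at hgood
            push Not at hgood
            linarith)
        have hf : C.filter (fun x => t a ≤ t x ∧ t x ≤ t b) =
            (C \ B).filter (fun x => t a ≤ t x ∧ t x ≤ t b) := by
          ext x
          rw [Finset.mem_filter, Finset.mem_filter, Finset.mem_sdiff]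
          constructor
          · rintro ⟨hx, h5, h6⟩
            refine ⟨⟨hx, fun hxB => ?_⟩, h5, h6⟩
            have := hB x hxB a ha
            linarith
          · exact fun h => ⟨h.1.1, h.2⟩
        refine ⟨a, (Finset.mem_sdiff.1 ha).1, b, (Finset.mem_sdiff.1 hb).1, h1, ?_, ?_, ?_⟩
        · rw [hf]; exact h2
        · rw [hf]; exact h3
        · rw [hf]; exact h4

end Run7.h795
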