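import Pool.Agent.Run7.h795.TubeAvg
import Pool.Agent.Run7.h795.Window
import Pool.Agent.Run7.h795.SparseMain

/-!
# Drawings with many crossings per edge
-/

set_option autoImplicit false

open Set Classical
open Pool.Agent.Helper770.Crossing Pool.Agent.NH90.CN

namespace Run7.h795

section

variable {V : Type} [Fintype V] {G : SimpleGraph V}

/-- number of crossings of an edge -/
noncomputable def cc (D : Drawing G) (e : Sym2 V) : ℕ := ∑ f : Sym2 V, DX D e f

theorem cc_card {D : Drawing G} (hS : ∀ e f, DX D e f ≤ 1) (e : Sym2 V) (w : Sym2 V → ℝ) :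
    ∑ f ∈ Finset.univ.filter (fun f => DX D e f ≠ 0), w f = ∑ f : Sym2 V, (DX D e f : ℝ) * w f := by
  rw [Finset.sum_filter]
  refine Finset.sum_congr rfl fun f _ => ?_
  by_cases h : DX D e f = 0
  · rw [h]
    simp
  · have h1 : DX D e f = 1 := by
      have := hS e f
      omega
    rw [h1]
    simp

theorem cc_card' {D : Drawing G} (hS : ∀ e f, DX D e f ≤ 1) (e : Sym2 V) :
    (Finset.univ.filter (fun f => DX D e f ≠ 0)).card = cc D e := by
  have h := cc_card hS e (fun _ => (1 : ℝ))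
  rw [Finset.sum_const, nsmul_eq_mul, mul_one] at h
  simp only [mul_one] at h
  unfold cc
  exact_mod_cast h

/-- the gain for a window on the edge `e₀` -/
theorem window_gain (D : Drawing G) (hDf : D.crossings.Finite) (hD : Good D)
    (hS : ∀ e f, DX D e f ≤ 1) (hPLA : ∀ e ∈ G.edgeSet, PLA (D.arc e) 0 1)
    (hNT : ∀ e ∈ G.edgeSet, ∀ f ∈ G.edgeSet, ∀ g ∈ G.edgeSet, e ≠ f → e ≠ g → f ≠ g →
      ∀ z, z ∈ XX D e f → z ∈ XX D e g → False) (e₀ : Sym2 V) (w : Sym2 V → ℝ)
    (hw : ∀ f, w f ≤ cc D f) (μ : ℝ) (k : ℕ) (hk : 1 ≤ k) (hkc : k ≤ cc D e₀)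
    (hμ : μ * cc D e₀ ≤ ∑ f : Sym2 V, (DX D e₀ f : ℝ) * w f) :
    ∃ s : ℕ, k ≤ s ∧ s ≤ 2 * k - 1 ∧
      16 * (biplanarCrossingNumber G : ℝ) + 2 * (s + μ * s) ≤
        6 * D.crossings.ncard + 11 * (s * (s + 1)) := by
  set C := Finset.univ.filter (fun f => DX D e₀ f ≠ 0) with hC
  have hCc : C.card = cc D e₀ := cc_card' hS e₀
  have hCne : C.Nonempty := Finset.card_pos.1 (by omega)
  have he₀ : e₀ ∈ G.edgeSet := by
    obtain ⟨f, hf⟩ := hCne
    exact (DX_ne (Finset.mem_filter.1 hf).2).1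
  -- the parameters of the crossings
  have hpar : ∀ f : Sym2 V, ∃ t : ℝ, f ∈ C → t ∈ Ioo (0 : ℝ) 1 ∧ D.arc e₀ t ∈ XX D e₀ f ∧
      ∀ z ∈ XX D e₀ f, z = D.arc e₀ t := by
    intro f
    by_cases hf : f ∈ C
    · have h0 := (Finset.mem_filter.1 hf).2
      obtain ⟨h1, h2, h3⟩ := DX_ne h0
      have h4 := hS e₀ f
      rw [DX, if_pos ⟨h1, h2, h3⟩] at h0 h4
      have hfin := ((t_CNT V G D).1.1 hDf) e₀ h1 f h2 h3
      obtain ⟨z, hz⟩ := Set.nonempty_of_ncard_ne_zero h0
      obtain ⟨⟨t, ht, rfl⟩, hz2⟩ := hz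
      exact ⟨t, fun _ => ⟨ht, ⟨⟨t, ht, rfl⟩, hz2⟩, fun z' hz' =>
        (Set.ncard_le_one hfin).1 h4 z' hz' _ ⟨⟨t, ht, rfl⟩, hz2⟩⟩⟩
    · exact ⟨0, fun h => absurd h hf⟩
  choose t ht using hpar
  have htinj : Set.InjOn t C := by
    intro f hf g hg hfg
    by_contra hne
    obtain ⟨h1, h2, h3⟩ := ht f (Finset.mem_coe.1 hf)
    obtain ⟨h1', h2', h3'⟩ := ht g (Finset.mem_coe.1 hg)
    obtain ⟨q1, q2, q3⟩ := DX_ne (Finset.mem_filter.1 (Finset.mem_coe.1 hf)).2
    obtain ⟨q1', q2', q3'⟩ := DX_ne (Finset.mem_filter.1 (Finset.mem_coe.1 hg)).2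
    rw [← hfg] at h2'
    exact hNT e₀ he₀ f q2 g q2' q3 q3' hne _ h2 h2'
  obtain ⟨a, ha, b, hb, hab, k1, k2, k3⟩ := exists_window t w μ k hk C.card C rfl htinj
    (by omega) (by
      rw [hCc, hC, cc_card hS]
      exact hμ)
  set B := C.filter (fun x => t a ≤ t x ∧ t x ≤ t b) with hB
  obtain ⟨a1, a2, a3⟩ := ht a ha
  obtain ⟨b1, b2, b3⟩ := ht b hb
  have he₀B : e₀ ∉ B := by
    intro h
    exact (DX_ne (Finset.mem_filter.1 (Finset.mem_filter.1 h).1).2).2.2 rfl
  have hW : ∀ e ∈ G.edgeSet, (e ∈ insert e₀ B ↔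
      (D.arc e '' Icc (0 : ℝ) 1 ∩ D.arc e₀ '' Icc (t a) (t b)).Nonempty) := by
    intro e he
    rw [Finset.mem_insert]
    constructor
    · rintro (rfl | h)
      · exact ⟨D.arc e (t a), ⟨t a, Ioo_subset_Icc_self a1, rfl⟩, ⟨t a, ⟨le_rfl, hab⟩, rfl⟩⟩
      · obtain ⟨h1, h2⟩ := Finset.mem_filter.1 h
        obtain ⟨c1, c2, c3⟩ := ht e h1
        exact ⟨D.arc e₀ (t e), image_mono Ioo_subset_Icc_self c2.2, ⟨t e, h2, rfl⟩⟩
    · rintro ⟨z, hz1, ⟨τ, hτ, rfl⟩⟩
      by_cases hee : e = e₀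
      · exact Or.inl hee
      · right
        have hτ' : τ ∈ Ioo (0 : ℝ) 1 := ⟨a1.1.trans_le hτ.1, hτ.2.trans_lt b1.2⟩
        have hz2 : D.arc e₀ τ ∈ D.arc e '' Ioo (0 : ℝ) 1 := by
          rcases arc_cases D he hz1 with h | ⟨v, _, h⟩
          · exact h
          · exact absurd h (D.arc_avoids e₀ he₀ τ hτ' v)
        have hzX : D.arc e₀ τ ∈ XX D e₀ e := ⟨⟨τ, hτ', rfl⟩, hz2⟩
        have h0 : DX D e₀ e ≠ 0 := by
          rw [DX, if_pos ⟨he₀, he, Ne.symm hee⟩]
          intro h8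
          have h9 := (Set.ncard_eq_zero (((t_CNT V G D).1.1 hDf) e₀ he₀ e he (Ne.symm hee))).1 h8
          have h10 : D.arc e₀ τ ∈ (∅ : Set ℂ) := h9 ▸ hzX
          exact h10
        have heC : e ∈ C := Finset.mem_filter.2 ⟨Finset.mem_univ _, h0⟩
        obtain ⟨c1, c2, c3⟩ := ht e heC
        have h5 := D.arc_injOn e₀ he₀ (Ioo_subset_Icc_self hτ') (Ioo_subset_Icc_self c1) (c3 _ hzX)
        rw [hB, Finset.mem_filter]
        exact ⟨heC, by rw [← h5]; exact hτ⟩
  have key := tube_gain D hDf hD hS hPLA he₀ a1.1 hab b1.2 (insert e₀ B) hW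
  rw [Finset.card_insert_of_notMem he₀B, Finset.sum_insert he₀B] at key
  refine ⟨B.card, k1, k2, ?_⟩
  have h1 : (B.card + 1) * (B.card + 1) - (B.card + 1) = B.card * (B.card + 1) := by
    have : (B.card + 1) * (B.card + 1) = B.card * (B.card + 1) + (B.card + 1) := by ring
    omega
  rw [h1] at key
  have h2 : (B.card : ℝ) ≤ (cc D e₀ : ℝ) := by
    have : B.card ≤ C.card := Finset.card_filter_le _ _
    rw [hCc] at this
    exact_mod_cast this
  have h3 : ∑ f ∈ B, w f ≤ ((∑ f ∈ B, cc D f : ℕ) : ℝ) := by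
    push_cast
    exact Finset.sum_le_sum fun f _ => hw f
  have h4 : 16 * (biplanarCrossingNumber G : ℝ) + 2 * ((cc D e₀ : ℝ) +
      ((∑ f ∈ B, cc D f : ℕ) : ℝ)) ≤ 6 * D.crossings.ncard + 11 * ((B.card : ℝ) * (B.card + 1)) := by
    unfold cc
    exact_mod_cast key
  linarith

theorem sum_cc (D : Drawing G) (hDf : D.crossings.Finite) :
    ∑ e : Sym2 V, cc D e = 2 * D.crossings.ncard := by
  unfold cc
  exact ((t_CNT V G D).2 hDf).symm

theorem cc_ce (D : Drawing G) (F : Sym2 V → ℝ) :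
    ∑ e : Sym2 V, (cc D e : ℝ) * F e = ∑ e ∈ ce D, (cc D e : ℝ) * F e := by
  refine (Finset.sum_subset (Finset.subset_univ _) fun e _ he => ?_).symm
  have h : cc D e = 0 := by
    unfold cc
    refine Finset.sum_eq_zero fun f _ => ?_
    by_contra h
    exact he (Finset.mem_filter.2 ⟨Finset.mem_univ _, f, h⟩)
  rw [h]
  simp

/-- the gain with a given integer `k` -/
theorem dense_k (D : Drawing G) (hDf : D.crossings.Finite) (hD : Good D)
    (hS : ∀ e f, DX D e f ≤ 1) (hPLA : ∀ e ∈ G.edgeSet, PLA (D.arc e) 0 1)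
    (hNT : ∀ e ∈ G.edgeSet, ∀ f ∈ G.edgeSet, ∀ g ∈ G.edgeSet, e ≠ f → e ≠ g → f ≠ g →
      ∀ z, z ∈ XX D e f → z ∈ XX D e g → False) (x : ℝ)
    (hx : x * (ce D).card = 2 * D.crossings.ncard) (hne : (ce D).Nonempty) (k : ℕ) (hk : 1 ≤ k)
    (hkx : 26 * (k : ℝ) ≤ x) :
    16 * (biplanarCrossingNumber G : ℝ) + k * x ≤ 6 * D.crossings.ncard := by
  have hk1 : (1 : ℝ) ≤ k := by exact_mod_cast hk
  have hx0 : 0 < x := by linarith
  set w : Sym2 V → ℝ := fun f => min (cc D f) (2 * x) with hw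
  set m : ℝ := ((ce D).card : ℝ) with hm
  have hS1 : ∑ e ∈ ce D, (cc D e : ℝ) = x * m := by
    have h1 := cc_ce D (fun _ => 1)
    simp only [mul_one] at h1
    rw [← h1, hx]
    have h2 := sum_cc D hDf
    exact_mod_cast h2
  -- the weights of the edges
  have h1 : ∑ e ∈ ce D, ∑ f : Sym2 V, (DX D e f : ℝ) * w f = ∑ f ∈ ce D, (cc D f : ℝ) * w f := by
    have h2 : ∑ e ∈ ce D, ∑ f : Sym2 V, (DX D e f : ℝ) * w f =
        ∑ e : Sym2 V, ∑ f : Sym2 V, (DX D e f : ℝ) * w f := by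
      refine Finset.sum_subset (Finset.subset_univ _) fun e _ he => ?_
      refine Finset.sum_eq_zero fun f _ => ?_
      have h : DX D e f = 0 := by
        by_contra h
        exact he (Finset.mem_filter.2 ⟨Finset.mem_univ _, f, h⟩)
      rw [h]
      simp
    rw [h2, Finset.sum_comm, ← cc_ce]
    refine Finset.sum_congr rfl fun f _ => ?_
    rw [← Finset.sum_mul]
    congr 1
    unfold cc
    push_cast
    exact Finset.sum_congr rfl fun e _ => by rw [DX_symm]
  have h2 : ∀ f ∈ ce D, 2 * x * (cc D f : ℝ) - x ^ 2 ≤ (cc D f : ℝ) * w f := by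
    intro f _
    rw [hw]
    rcases le_total (cc D f : ℝ) (2 * x) with h | h
    · simp only [min_eq_left h]
      nlinarith [sq_nonneg ((cc D f : ℝ) - x)]
    · simp only [min_eq_right h]
      nlinarith [sq_nonneg x]
  have h3 : x * (x * m) ≤ ∑ e ∈ ce D, ∑ f : Sym2 V, (DX D e f : ℝ) * w f := by
    rw [h1]
    refine le_trans (le_of_eq ?_) (Finset.sum_le_sum h2)
    rw [Finset.sum_sub_distrib, ← Finset.mul_sum, hS1, Finset.sum_const, nsmul_eq_mul]
    ring
  -- a good edge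
  obtain ⟨e₀, he₀, h4⟩ : ∃ e ∈ ce D, 2 * k * x ≤
      ∑ f : Sym2 V, (DX D e f : ℝ) * w f - (x - 2 * k) * cc D e := by
    refine Finset.exists_le_of_sum_le hne ?_
    rw [Finset.sum_const, nsmul_eq_mul, Finset.sum_sub_distrib, ← Finset.mul_sum, hS1]
    nlinarith
  have h5 : ∑ f : Sym2 V, (DX D e₀ f : ℝ) * w f ≤ 2 * x * cc D e₀ := by
    have h6 : ∀ f : Sym2 V, (DX D e₀ f : ℝ) * w f ≤ 2 * x * (DX D e₀ f : ℝ) := by
      intro f
      rw [mul_comm (2 * x)]
      exact mul_le_mul_of_nonneg_left (min_le_right _ _) (Nat.cast_nonneg _)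
    refine (Finset.sum_le_sum fun f _ => h6 f).trans (le_of_eq ?_)
    rw [← Finset.mul_sum]
    congr 1
    unfold cc
    push_cast
    rfl
  have h6 : (k : ℝ) ≤ cc D e₀ := by
    have h7 : 2 * k * x ≤ (x + 2 * k) * cc D e₀ := by linarith
    by_contra h8
    have h9 := not_le.1 h8
    nlinarith
  obtain ⟨s, s1, s2, s3⟩ := window_gain D hDf hD hS hPLA hNT e₀ w (fun f => min_le_left _ _)
    (x - 2 * k) k hk (by exact_mod_cast h6) (by nlinarith)
  have s1' : (k : ℝ) ≤ s := by exact_mod_cast s1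
  have s2' : (s : ℝ) ≤ 2 * k - 1 := by
    have : s + 1 ≤ 2 * k := by omega
    have : ((s + 1 : ℕ) : ℝ) ≤ ((2 * k : ℕ) : ℝ) := by exact_mod_cast this
    push_cast at this
    linarith
  have h7 : (s : ℝ) * x ≤ s * (2 * x - 4 * k - 9 - 11 * s) := by
    apply mul_le_mul_of_nonneg_left _ (Nat.cast_nonneg s)
    linarith
  have h8 : (k : ℝ) * x ≤ s * x := mul_le_mul_of_nonneg_right s1' hx0.le
  nlinarith

/-- **Drawings with many crossings per edge** -/
theorem dense_nice (D : Drawing G) (hDf : D.crossings.Finite) (hD : Good D)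
    (hopt : D.crossings.ncard = crossingNumber G)
    (hS : ∀ e f, DX D e f ≤ 1) (hPLA : ∀ e ∈ G.edgeSet, PLA (D.arc e) 0 1)
    (hNT : ∀ e ∈ G.edgeSet, ∀ f ∈ G.edgeSet, ∀ g ∈ G.edgeSet, e ≠ f → e ≠ g → f ≠ g →
      ∀ z, z ∈ XX D e f → z ∈ XX D e g → False) :
    208 * (ce D).card ^ 2 * biplanarCrossingNumber G + crossingNumber G ^ 2 ≤
      78 * (ce D).card ^ 2 * crossingNumber G := by
  rcases (ce D).eq_empty_or_nonempty with h0 | hne
  · have h1 := sum_cc D hDf
    have h2 : ∑ e : Sym2 V, cc D e = 0 := by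
      refine Finset.sum_eq_zero fun e _ => ?_
      unfold cc
      refine Finset.sum_eq_zero fun f _ => ?_
      by_contra h
      have : e ∈ ce D := Finset.mem_filter.2 ⟨Finset.mem_univ _, f, h⟩
      rw [h0] at this
      exact absurd this (Finset.notMem_empty e)
    rw [h2, hopt] at h1
    have h3 : crossingNumber G = 0 := by omega
    rw [h0, h3]
    simp
  have hm0 : 0 < (ce D).card := Finset.card_pos.2 hne
  have hm : (0 : ℝ) < ((ce D).card : ℝ) := by exact_mod_cast hm0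
  set m : ℝ := ((ce D).card : ℝ) with hmdef
  set N : ℝ := (crossingNumber G : ℝ) with hN
  set x : ℝ := 2 * N / m with hx
  have hxm : x * m = 2 * N := by
    rw [hx]
    field_simp
  have hN0 : 0 ≤ N := Nat.cast_nonneg _
  have hx0 : 0 ≤ x := by positivity
  have key : 16 * (biplanarCrossingNumber G : ℝ) + x ^ 2 / 52 ≤ 6 * N := by
    rcases le_or_gt 26 x with h26 | h26
    · set k := ⌊x / 26⌋₊ with hk
      have k1 : 1 ≤ k := by
        rw [hk, Nat.one_le_floor_iff]
        linarith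
      have k2 : (k : ℝ) ≤ x / 26 := Nat.floor_le (by positivity)
      have k3 : x / 26 < k + 1 := Nat.lt_floor_add_one _
      have k4 : (1 : ℝ) ≤ k := by exact_mod_cast k1
      have h1 := dense_k D hDf hD hS hPLA hNT x (by rw [hopt]; exact hxm) hne k k1 (by linarith)
      rw [hopt] at h1
      have h2 : x / 52 ≤ k := by linarith
      have h3 : x / 52 * x ≤ k * x := mul_le_mul_of_nonneg_right h2 hx0
      nlinarith
    · -- few crossings: use one vertex
      obtain ⟨e₀, he₀, h4⟩ : ∃ e ∈ ce D, x ≤ (cc D e : ℝ) := by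
        refine Finset.exists_le_of_sum_le hne ?_
        have h1 := cc_ce D (fun _ => 1)
        simp only [mul_one] at h1
        rw [Finset.sum_const, nsmul_eq_mul, ← h1]
        have h2 := sum_cc D hDf
        have h3 : ∑ e : Sym2 V, (cc D e : ℝ) = 2 * N := by
          rw [hopt] at h2
          rw [hN]
          exact_mod_cast h2
        rw [h3]
        linarith
      obtain ⟨v, hv⟩ : ∃ v, v ∈ e₀ := by
        induction e₀ with
        | h a b => exact ⟨a, Sym2.mem_mk_left _ _⟩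
      have h5 := vertex_gluing G v
      have h6 := del_le D hDf hD v
      have h7 : cc D e₀ ≤ ∑ e : Sym2 V, ∑ f : Sym2 V, (if v ∈ e then DX D e f else 0) := by
        have h8 : ∑ f : Sym2 V, (if v ∈ e₀ then DX D e₀ f else 0) ≤
            ∑ e : Sym2 V, ∑ f : Sym2 V, (if v ∈ e then DX D e f else 0) :=
          Finset.single_le_sum (f := fun e => ∑ f : Sym2 V, if v ∈ e then DX D e f else 0)
            (fun e _ => Nat.zero_le _) (Finset.mem_univ e₀)
        simp only [if_pos hv] at h8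
        exact h8
      rw [← (t_CNT V G D).2 hDf, hopt] at h6
      have h9 : 16 * biplanarCrossingNumber G + 2 * cc D e₀ ≤ 6 * crossingNumber G := by omega
      have h10 : 16 * (biplanarCrossingNumber G : ℝ) + 2 * cc D e₀ ≤ 6 * N := by
        rw [hN]
        exact_mod_cast h9
      nlinarith
  have h1 : x ^ 2 * m ^ 2 = 4 * N ^ 2 := by
    have : (x * m) ^ 2 = (2 * N) ^ 2 := by rw [hxm]
    nlinarith
  have h2 : 208 * m ^ 2 * (biplanarCrossingNumber G : ℝ) + N ^ 2 ≤ 78 * m ^ 2 * N := by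
    have h3 : m ^ 2 * (16 * (biplanarCrossingNumber G : ℝ) + x ^ 2 / 52) ≤ m ^ 2 * (6 * N) :=
      mul_le_mul_of_nonneg_left key (sq_nonneg m)
    nlinarith
  rw [hN, hmdef] at h2
  exact_mod_cast h2

/-- **Drawings with many crossings per edge**, for every optimal drawing -/
theorem dense_main (D : Drawing G) (hDf : D.crossings.Finite)
    (hopt : D.crossings.ncard = crossingNumber G) :
    208 * (crossedEdges D).ncard ^ 2 * biplanarCrossingNumber G + crossingNumber G ^ 2 ≤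
      78 * (crossedEdges D).ncard ^ 2 * crossingNumber G := by
  obtain ⟨D', hf', hg', ho', hp', hn', hle⟩ := exists_nice_of V G D hDf hopt
  have hS' := simple_of_opt D' hf' ho' hn'
  have h1 := dense_nice D' hf' hg' ho' hS' hp' hn'
  rw [ce_card D hDf]
  have h2 : (ce D').card ≤ (ce D).card := by
    refine Finset.card_le_card fun e he => ?_
    obtain ⟨-, f, h3⟩ := Finset.mem_filter.1 he
    obtain ⟨q1, q2, q3⟩ := DX_ne h3
    refine Finset.mem_filter.2 ⟨Finset.mem_univ _, f, ?_⟩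
    have := hle e q1 f q2 q3
    omega
  -- the bound is monotone in the number of crossed edges
  have h3 : 8 * biplanarCrossingNumber G ≤ 3 * crossingNumber G := by
    rcases isEmpty_or_nonempty V with hV | ⟨⟨v⟩⟩
    · have hz : biplanarCrossingNumber G = 0 := by
        have h5 := bip_le G (fun _ => True)
        have h6 : ∀ H : SimpleGraph V, crossingNumber H = 0 := by
          intro H
          obtain ⟨P, hPf, hPn⟩ := Pool.Agent.Helper770.Exist.crossingNumber_attained H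
          rw [← hPn, Set.ncard_eq_zero hPf]
          refine eq_empty_of_forall_notMem ?_
          rintro p ⟨e, he, _⟩
          induction e with
          | h a b => exact hV.elim a
        rw [h6, h6] at h5
        omega
      omega
    · have h5 := vertex_gluing G v
      have h6 := del_le D hDf (good_of_opt D hDf hopt) v
      rw [← (t_CNT V G D).2 hDf, hopt] at h6
      omega
  have h4 : (ce D').card ^ 2 ≤ (ce D).card ^ 2 := Nat.pow_le_pow_left h2 2
  set N := crossingNumber G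
  set b := biplanarCrossingNumber G
  set p := (ce D').card ^ 2
  set q := (ce D).card ^ 2
  obtain ⟨r, hr⟩ := Nat.exists_eq_add_of_le h4
  rw [hr]
  nlinarith

end

end Run7.h795
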