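import Pool.Agent.NH90.CN.All
import Pool.Agent.Helper770.Exist

/-!
# Gluing two pages of a drawing
-/

set_option autoImplicit false

open Set Classical
open Pool.Agent.Helper770.Crossing Pool.Agent.NH90.CN

namespace Run7.h795

/-- common inner points of two arcs -/
def XX {V : Type} {G : SimpleGraph V} (D : Drawing G) (e f : Sym2 V) : Set ℂ :=
  D.arc e '' Ioo (0 : ℝ) 1 ∩ D.arc f '' Ioo (0 : ℝ) 1

/-- a drawing from sets containing arcs -/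
theorem mk {V : Type} {G : SimpleGraph V} (hd tl : Sym2 V → V)
    (hht : ∀ e ∈ G.edgeSet, s(hd e, tl e) = e)
    (pos : V → ℂ) (hinj : Function.Injective pos) (R : Sym2 V → Set ℂ)
    (hR : ∀ e ∈ G.edgeSet, IsArc (R e) (pos (hd e)) (pos (tl e)))
    (hav : ∀ e ∈ G.edgeSet, ∀ w, pos w ∈ R e → w ∈ e) :
    ∃ P : Drawing G, P.pos = pos ∧ ∀ e ∈ G.edgeSet, ∀ t ∈ Icc (0 : ℝ) 1, P.arc e t ∈ R e := by
  have harc : ∀ e, ∃ γ : ℝ → ℂ, e ∈ G.edgeSet → ContinuousOn γ (Icc 0 1) ∧ InjOn γ (Icc 0 1) ∧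
      γ 0 = pos (hd e) ∧ γ 1 = pos (tl e) ∧ ∀ t ∈ Icc (0 : ℝ) 1, γ t ∈ R e := by
    intro e
    by_cases he : e ∈ G.edgeSet
    · obtain ⟨γ, hγ⟩ := hR e he
      exact ⟨γ, fun _ => hγ⟩
    · exact ⟨fun _ => 0, fun h => absurd h he⟩
  choose γ hγ using harc
  refine ⟨
    { pos := pos
      pos_injective := hinj
      arc := γ
      arc_continuousOn := fun e he => (hγ e he).1
      arc_injOn := fun e he => (hγ e he).2.1
      arc_ends := ?_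
      arc_avoids := ?_ }, rfl, fun e he => (hγ e he).2.2.2.2⟩
  · intro u v huv
    have he : s(u, v) ∈ G.edgeSet := huv
    have h3 := hht _ he
    rw [(hγ _ he).2.2.1, (hγ _ he).2.2.2.1]
    rw [Sym2.eq_iff] at h3
    rcases h3 with ⟨h3, h4⟩ | ⟨h3, h4⟩
    · left; rw [h3, h4]; exact ⟨rfl, rfl⟩
    · right; rw [h3, h4]; exact ⟨rfl, rfl⟩
  · intro e he t ht w hw
    have ht' := Ioo_subset_Icc_self ht
    have h5 := (hγ e he).2.2.2.2 t ht'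
    rw [hw] at h5
    have h6 := hav e he w h5
    rw [← hht e he, Sym2.mem_iff] at h6
    rcases h6 with h6 | h6
    · have h7 := (hγ e he).2.1 ht' (by simp : (0 : ℝ) ∈ Icc (0 : ℝ) 1)
        (by rw [hw, h6, (hγ e he).2.2.1])
      exact ht.1.ne' h7
    · have h7 := (hγ e he).2.1 ht' (by simp : (1 : ℝ) ∈ Icc (0 : ℝ) 1)
        (by rw [hw, h6, (hγ e he).2.2.2.1])
      exact ht.2.ne h7

/-- two pages which have only the point `0`, the image of `Γ`, in common -/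
structure Page (K Γ : Set ℂ) (Θ : Bool → ℂ → ℂ) : Prop where
  cont : ∀ i, ContinuousOn (Θ i) K
  zero : ∀ i, ∀ z ∈ K, z ∈ Γ → Θ i z = 0
  inj : ∀ i, ∀ z ∈ K, ∀ z' ∈ K, z ∉ Γ → Θ i z = Θ i z' → z = z'
  sep : ∀ z ∈ K, ∀ z' ∈ K, Θ false z = Θ true z' → z ∈ Γ ∧ z' ∈ Γ

theorem Page.eq {K Γ : Set ℂ} {Θ : Bool → ℂ → ℂ} (h : Page K Γ Θ) {i j : Bool} {z z' : ℂ}
    (hz : z ∈ K) (hz' : z' ∈ K) (he : Θ i z = Θ j z') :
    (z ∈ Γ ∧ z' ∈ Γ ∧ Θ i z = 0) ∨ (i = j ∧ z = z' ∧ z ∉ Γ) := by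
  by_cases hg : z ∈ Γ ∧ z' ∈ Γ
  · exact Or.inl ⟨hg.1, hg.2, h.zero i z hz hg.1⟩
  · right
    cases i <;> cases j
    · by_cases h1 : z ∈ Γ
      · have h2 : z' ∉ Γ := fun h2 => hg ⟨h1, h2⟩
        have h3 := h.inj false z' hz' z hz h2 he.symm
        exact absurd (h3 ▸ h1) h2
      · exact ⟨rfl, h.inj false z hz z' hz' h1 he, h1⟩
    · exact absurd (h.sep z hz z' hz' he) hg
    · exact absurd (h.sep z' hz' z hz he.symm).symm hg
    · by_cases h1 : z ∈ Γ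
      · have h2 : z' ∉ Γ := fun h2 => hg ⟨h1, h2⟩
        have h3 := h.inj true z' hz' z hz h2 he.symm
        exact absurd (h3 ▸ h1) h2
      · exact ⟨rfl, h.inj true z hz z' hz' h1 he, h1⟩

/-- points of an arc are inner points or positions of end-vertices -/
theorem arc_cases {V : Type} {G : SimpleGraph V} (D : Drawing G) {e : Sym2 V}
    (he : e ∈ G.edgeSet) {z : ℂ} (hz : z ∈ D.arc e '' Icc (0 : ℝ) 1) :
    z ∈ D.arc e '' Ioo (0 : ℝ) 1 ∨ ∃ u ∈ e, z = D.pos u := by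
  obtain ⟨t, ht, rfl⟩ := hz
  induction e with
  | h a b =>
    have hadj : G.Adj a b := he
    rcases ht.1.eq_or_lt with h0 | h0
    · right
      rcases D.arc_ends a b hadj with h | h
      · exact ⟨a, by simp, by rw [← h0, h.1]⟩
      · exact ⟨b, by simp, by rw [← h0, h.1]⟩
    · rcases ht.2.eq_or_lt with h1 | h1
      · right
        rcases D.arc_ends a b hadj with h | h
        · exact ⟨b, by simp, by rw [h1, h.2]⟩
        · exact ⟨a, by simp, by rw [h1, h.2]⟩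
      · exact Or.inl ⟨t, ⟨h0, h1⟩, rfl⟩

theorem pos_mem_arc {V : Type} {G : SimpleGraph V} (D : Drawing G) {e : Sym2 V}
    (he : e ∈ G.edgeSet) {w : V} (hw : D.pos w ∈ D.arc e '' Icc (0 : ℝ) 1) : w ∈ e := by
  rcases arc_cases D he hw with h | ⟨u, hu, h⟩
  · obtain ⟨t, ht, h⟩ := h
    exact absurd h (D.arc_avoids e he t ht w)
  · rw [D.pos_injective h]
    exact hu

/-- gluing the two pages -/
theorem glue {V : Type} {G G₁ : SimpleGraph V} (hG : G₁ ≤ G) (D : Drawing G)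
    (hd tl : Sym2 V → V) (hht : ∀ e ∈ G.edgeSet, s(hd e, tl e) = e)
    {K Γ : Set ℂ} {Θ : Bool → ℂ → ℂ} (hP : Page K Γ Θ)
    (hK : ∀ e ∈ G.edgeSet, D.arc e '' Icc (0 : ℝ) 1 ⊆ K) (hKp : ∀ v, D.pos v ∈ K)
    (hΓ1 : ∀ u v, D.pos u ∈ Γ → D.pos v ∈ Γ → u = v)
    (hΓ2 : ∀ e ∈ G₁.edgeSet, ∀ u, D.pos u ∈ Γ → (D.arc e '' Icc (0 : ℝ) 1 ∩ Γ).Nonempty → u ∈ e)
    (σ : V → Bool) (A : Sym2 V → Bool → Set ℂ)
    (hA1 : ∀ e ∈ G₁.edgeSet, ∀ i, A e i ⊆ D.arc e '' Icc (0 : ℝ) 1)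
    (hA2 : ∀ e ∈ G₁.edgeSet, ∀ i, ∀ u ∈ e, D.pos u ∈ A e i → D.pos u ∉ Γ → σ u = i)
    (hA3 : ∀ e ∈ G₁.edgeSet, IsArc (⋃ i, Θ i '' A e i) (Θ (σ (hd e)) (D.pos (hd e)))
      (Θ (σ (tl e)) (D.pos (tl e)))) :
    ∃ P : Drawing G₁, ∀ e ∈ G₁.edgeSet, ∀ f ∈ G₁.edgeSet, e ≠ f →
      XX P e f ⊆ (⋃ i, Θ i '' (XX D e f ∩ A e i ∩ A f i ∩ Γᶜ)) ∪
        {y | y = 0 ∧ (D.arc e '' Icc (0 : ℝ) 1 ∩ Γ).Nonempty ∧
          (D.arc f '' Icc (0 : ℝ) 1 ∩ Γ).Nonempty ∧ ∀ u, D.pos u ∉ Γ} := by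
  have hE : ∀ e ∈ G₁.edgeSet, e ∈ G.edgeSet := fun e he => SimpleGraph.edgeSet_mono hG he
  have hposinj : Function.Injective fun v => Θ (σ v) (D.pos v) := by
    intro u v huv
    rcases hP.eq (hKp u) (hKp v) huv with h | h
    · exact hΓ1 u v h.1 h.2.1
    · exact D.pos_injective h.2.1
  obtain ⟨P, hPp, hPa⟩ := mk (G := G₁) hd tl (fun e he => hht e (hE e he))
    (fun v => Θ (σ v) (D.pos v)) hposinj (fun e => ⋃ i, Θ i '' A e i) hA3 (by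
      intro e he w hw
      rw [mem_iUnion] at hw
      obtain ⟨i, z, hz, hzw⟩ := hw
      have hz1 := hA1 e he i hz
      rcases hP.eq (hK e (hE e he) hz1) (hKp w) hzw with h | h
      · exact hΓ2 e he w h.2.1 ⟨z, hz1, h.1⟩
      · rw [h.2.1] at hz1
        exact pos_mem_arc D (hE e he) hz1)
  refine ⟨P, ?_⟩
  rintro e he f hf hef y ⟨⟨s, hs, hsy⟩, ⟨t, ht, hty⟩⟩
  have h1 := hPa e he s (Ioo_subset_Icc_self hs)
  have h2 := hPa f hf t (Ioo_subset_Icc_self ht)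
  have hnp : ∀ w, y ≠ Θ (σ w) (D.pos w) := by
    intro w hw
    apply P.arc_avoids e he s hs w
    rw [hsy, hw, hPp]
  rw [hsy, mem_iUnion] at h1
  rw [hty, mem_iUnion] at h2
  obtain ⟨i, z, hz, hzy⟩ := h1
  obtain ⟨j, z', hz', hzy'⟩ := h2
  have hz1 := hA1 e he i hz
  have hz1' := hA1 f hf j hz'
  rcases hP.eq (hK e (hE e he) hz1) (hK f (hE f hf) hz1') (hzy.trans hzy'.symm) with h | h
  · right
    refine ⟨by rw [← hzy, h.2.2], ⟨z, hz1, h.1⟩, ⟨z', hz1', h.2.1⟩, ?_⟩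
    intro u hu
    apply hnp u
    rw [hP.zero _ _ (hKp u) hu, ← hzy, h.2.2]
  · left
    obtain ⟨rfl, rfl, hzΓ⟩ := h
    rw [mem_iUnion]
    refine ⟨i, z, ⟨⟨⟨⟨?_, ?_⟩, hz⟩, hz'⟩, hzΓ⟩, hzy⟩
    · rcases arc_cases D (hE e he) hz1 with h | ⟨u, hu, h⟩
      · exact h
      · exfalso
        rw [h] at hz hzΓ hzy
        have := hA2 e he i u hu hz hzΓ
        rw [← this] at hzy
        exact hnp u hzy.symm
    · rcases arc_cases D (hE f hf) hz1' with h | ⟨u, hu, h⟩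
      · exact h
      · exfalso
        rw [h] at hz' hzΓ hzy
        have := hA2 f hf i u hu hz' hzΓ
        rw [← this] at hzy
        exact hnp u hzy.symm

/-- counting the crossings after gluing -/
theorem glueDX {V : Type} [Fintype V] {G G₁ : SimpleGraph V} (hG : G₁ ≤ G) (D : Drawing G)
    (hfin : D.crossings.Finite)
    (hd tl : Sym2 V → V) (hht : ∀ e ∈ G.edgeSet, s(hd e, tl e) = e)
    {K Γ : Set ℂ} {Θ : Bool → ℂ → ℂ} (hP : Page K Γ Θ)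
    (hK : ∀ e ∈ G.edgeSet, D.arc e '' Icc (0 : ℝ) 1 ⊆ K) (hKp : ∀ v, D.pos v ∈ K)
    (hΓ1 : ∀ u v, D.pos u ∈ Γ → D.pos v ∈ Γ → u = v)
    (hΓ2 : ∀ e ∈ G₁.edgeSet, ∀ u, D.pos u ∈ Γ → (D.arc e '' Icc (0 : ℝ) 1 ∩ Γ).Nonempty → u ∈ e)
    (σ : V → Bool) (A : Sym2 V → Bool → Set ℂ)
    (hA1 : ∀ e ∈ G₁.edgeSet, ∀ i, A e i ⊆ D.arc e '' Icc (0 : ℝ) 1)
    (hA2 : ∀ e ∈ G₁.edgeSet, ∀ i, ∀ u ∈ e, D.pos u ∈ A e i → D.pos u ∉ Γ → σ u = i)
    (hA3 : ∀ e ∈ G₁.edgeSet, IsArc (⋃ i, Θ i '' A e i) (Θ (σ (hd e)) (D.pos (hd e)))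
      (Θ (σ (tl e)) (D.pos (tl e)))) :
    ∃ P : Drawing G₁, P.crossings.Finite ∧ ∀ e ∈ G₁.edgeSet, ∀ f ∈ G₁.edgeSet, e ≠ f →
      DX P e f ≤ (∑ i, (XX D e f ∩ A e i ∩ A f i ∩ Γᶜ).ncard) +
        if (D.arc e '' Icc (0 : ℝ) 1 ∩ Γ).Nonempty ∧
          (D.arc f '' Icc (0 : ℝ) 1 ∩ Γ).Nonempty ∧ ∀ u, D.pos u ∉ Γ then 1 else 0 := by
  obtain ⟨P, hPX⟩ := glue hG D hd tl hht hP hK hKp hΓ1 hΓ2 σ A hA1 hA2 hA3
  have hX := (t_CNT V G D).1.1 hfin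
  have hE : ∀ e ∈ G₁.edgeSet, e ∈ G.edgeSet := fun e he => SimpleGraph.edgeSet_mono hG he
  have hXf : ∀ e ∈ G₁.edgeSet, ∀ f ∈ G₁.edgeSet, e ≠ f → ∀ i,
      (XX D e f ∩ A e i ∩ A f i ∩ Γᶜ).Finite := by
    intro e he f hf hef i
    exact (hX e (hE e he) f (hE f hf) hef).subset fun z hz => hz.1.1.1
  have hZf : ∀ c : Prop, ({y : ℂ | y = 0 ∧ c}).Finite := fun c =>
    (finite_singleton (0 : ℂ)).subset fun y hy => hy.1
  refine ⟨P, (t_CNT V G₁ P).1.2 ?_, ?_⟩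
  · intro e he f hf hef
    refine Finite.subset ?_ (hPX e he f hf hef)
    exact (finite_iUnion fun i => (hXf e he f hf hef i).image _).union (hZf _)
  · intro e he f hf hef
    rw [DX, if_pos ⟨he, hf, hef⟩]
    have h1 : (XX P e f).ncard ≤ _ := ncard_le_ncard (hPX e he f hf hef)
      ((finite_iUnion fun i => (hXf e he f hf hef i).image _).union (hZf _))
    refine h1.trans ((ncard_union_le _ _).trans (Nat.add_le_add ?_ ?_))
    · have h2 : (⋃ i, Θ i '' (XX D e f ∩ A e i ∩ A f i ∩ Γᶜ)) =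
          (Θ true '' (XX D e f ∩ A e true ∩ A f true ∩ Γᶜ)) ∪
          (Θ false '' (XX D e f ∩ A e false ∩ A f false ∩ Γᶜ)) := by
        ext y
        simp only [mem_iUnion, mem_union, Bool.exists_bool]
        exact or_comm
      rw [h2, Fintype.sum_bool]
      refine (ncard_union_le _ _).trans (Nat.add_le_add ?_ ?_)
      · exact ncard_image_le (hXf e he f hf hef true)
      · exact ncard_image_le (hXf e he f hf hef false)
    · split_ifs with hc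
      · refine (ncard_le_ncard (t := {(0 : ℂ)}) (fun y hy => hy.1) (finite_singleton _)).trans ?_
        rw [ncard_singleton]
      · have : {y : ℂ | y = 0 ∧ (D.arc e '' Icc (0 : ℝ) 1 ∩ Γ).Nonempty ∧
            (D.arc f '' Icc (0 : ℝ) 1 ∩ Γ).Nonempty ∧ ∀ u, D.pos u ∉ Γ} = ∅ := by
          ext y
          simp only [mem_setOf_eq, mem_empty_iff_false, iff_false]
          exact fun h => hc h.2
        rw [this, ncard_empty]

end Run7.h795
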