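import Pool.Agent.Run7.h795.Collapse

/-!
# Optimal drawings with polygonal arcs
-/

set_option autoImplicit false

open Set Classical
open Pool.Agent.Helper770.Crossing Pool.Agent.NH90.CN

namespace Run7.h795

/-- a simple polygonal line -/
structure Simp (l : List ℂ) : Prop where
  nd : l.Nodup
  ns : ∀ s ∈ segL l, ∀ s' ∈ segL l, ¬ Xs s s'
  po : ∀ s ∈ segL l, ∀ q ∈ l, q ∈ sg s → q ∈ s

theorem Simp.tail {a b : ℂ} {l : List ℂ} (h : Simp (a :: b :: l)) : Simp (b :: l) := by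
  refine ⟨(List.nodup_cons.1 h.nd).2, ?_, ?_⟩
  · intro s hs s' hs'
    exact h.ns s (List.mem_cons_of_mem _ hs) s' (List.mem_cons_of_mem _ hs')
  · intro s hs q hq
    exact h.po s (List.mem_cons_of_mem _ hs) q (List.mem_cons_of_mem _ hq)

/-- two arcs after each other -/
theorem glue_arcs {f g : ℝ → ℂ} (hf : ContinuousOn f (Icc 0 1)) (hg : ContinuousOn g (Icc 0 1))
    (fi : InjOn f (Icc 0 1)) (gi : InjOn g (Icc 0 1)) (h1 : f 1 = g 0)
    (hfg : ∀ t ∈ Icc (0 : ℝ) 1, ∀ s ∈ Icc (0 : ℝ) 1, f t = g s → t = 1) :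
    ContinuousOn (CAT.gl f g) (Icc 0 1) ∧ InjOn (CAT.gl f g) (Icc 0 1) ∧
      (∀ t : ℝ, t ≤ 1 / 2 → CAT.gl f g t = f (2 * t)) ∧
      ∀ t : ℝ, 1 / 2 ≤ t → CAT.gl f g t = g (2 * t - 1) := by
  have m1 : ∀ t : ℝ, 0 ≤ t → t ≤ 1 / 2 → 2 * t ∈ Icc (0 : ℝ) 1 := fun t h h' =>
    ⟨by linarith, by linarith⟩
  have m2 : ∀ t : ℝ, 1 / 2 ≤ t → t ≤ 1 → 2 * t - 1 ∈ Icc (0 : ℝ) 1 := fun t h h' =>
    ⟨by linarith, by linarith⟩
  have e1 : ∀ t : ℝ, t ≤ 1 / 2 → CAT.gl f g t = f (2 * t) := fun t ht => if_pos ht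
  have e2 : ∀ t : ℝ, 1 / 2 ≤ t → CAT.gl f g t = g (2 * t - 1) := by
    intro t ht
    rcases eq_or_lt_of_le ht with h | h
    · rw [← h, e1 _ le_rfl]
      norm_num
      exact h1
    · exact if_neg (not_le.2 h)
  have hcross : ∀ t t' : ℝ, 0 ≤ t → t ≤ 1 / 2 → 1 / 2 < t' → t' ≤ 1 →
      CAT.gl f g t = CAT.gl f g t' → False := by
    intro t t' a b c d h
    rw [e1 t b, e2 t' c.le] at h
    have h2 := hfg _ (m1 t a b) _ (m2 t' c.le d) h
    rw [h2, h1] at h
    have h3 := gi (by norm_num) (m2 t' c.le d) h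
    linarith
  refine ⟨?_, ?_, e1, e2⟩
  · have hU : Icc (0 : ℝ) 1 = Icc 0 (1 / 2) ∪ Icc (1 / 2) 1 :=
      (Icc_union_Icc_eq_Icc (by norm_num) (by norm_num)).symm
    rw [hU]
    refine ContinuousOn.union_of_isClosed ?_ ?_ isClosed_Icc isClosed_Icc
    · have h2 : ContinuousOn (fun t : ℝ => f (2 * t)) (Icc 0 (1 / 2)) :=
        hf.comp (by fun_prop) fun t ht => m1 t ht.1 ht.2
      exact h2.congr fun t ht => e1 t ht.2
    · have h2 : ContinuousOn (fun t : ℝ => g (2 * t - 1)) (Icc (1 / 2) 1) :=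
        hg.comp (by fun_prop) fun t ht => m2 t ht.1 ht.2
      exact h2.congr fun t ht => e2 t ht.1
  · intro t ht t' ht' h
    by_cases a : t ≤ 1 / 2 <;> by_cases b : t' ≤ 1 / 2
    · rw [e1 t a, e1 t' b] at h
      have := fi (m1 t ht.1 a) (m1 t' ht'.1 b) h
      linarith
    · exact (hcross t t' ht.1 a (not_le.1 b) ht'.2 h).elim
    · exact (hcross t' t ht'.1 b (not_le.1 a) ht.2 h.symm).elim
    · rw [e2 t (not_le.1 a).le, e2 t' (not_le.1 b).le] at h
      have := gi (m2 t (not_le.1 a).le ht.2) (m2 t' (not_le.1 b).le ht'.2) h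
      linarith

theorem PLA.resc {g : ℝ → ℂ} {a b : ℝ} (h : PLA g a b) {γ : ℝ → ℂ} :
    (∀ u ∈ Icc a b, γ ((u + 1) / 2) = g u) → PLA γ ((a + 1) / 2) ((b + 1) / 2) := by
  have key : ∀ {a b : ℝ}, Aff g a b → (∀ u ∈ Icc a b, γ ((u + 1) / 2) = g u) →
      Aff γ ((a + 1) / 2) ((b + 1) / 2) := by
    rintro a b ⟨p, v, hA⟩ hγ
    refine ⟨p - v, 2 * v, fun t ht => ?_⟩
    have hm : 2 * t - 1 ∈ Icc a b := ⟨by linarith [ht.1], by linarith [ht.2]⟩
    have h1 := hγ _ hm
    rw [show (2 * t - 1 + 1) / 2 = t by ring, hA _ hm] at h1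
    rw [h1]
    push_cast
    ring
  induction h with
  | @one a b hab hA =>
    intro hγ
    exact PLA.one (by linarith) (key hA hγ)
  | @cons a b c hab hA hB ih =>
    intro hγ
    have hbc := hB.le
    exact PLA.cons (by linarith)
      (key hA (fun u hu => hγ u ⟨hu.1, hu.2.trans hbc⟩))
      (ih (fun u hu => hγ u ⟨hab.trans hu.1, hu.2⟩))

/-- the parametrisation of a simple polygonal line -/
theorem poly_arc : ∀ (l : List ℂ) (a b : ℂ), Simp l → 2 ≤ l.length →
    l.head? = some a → l.getLast? = some b → ∃ γ : ℝ → ℂ, ContinuousOn γ (Icc 0 1) ∧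
      InjOn γ (Icc 0 1) ∧ γ 0 = a ∧ γ 1 = b ∧
      (∀ t ∈ Icc (0 : ℝ) 1, γ t ∈ ⋃ s ∈ segL l, sg s) ∧ PLA γ 0 1
  | [], a, b, _, h, _, _ => by simp at h
  | [_], a, b, _, h, _, _ => by simp at h
  | [x, y], a, b, hn, _, ha, hb => by
    have ha' : x = a := by simpa using ha
    have hb' : y = b := by simpa using hb
    subst ha' hb'
    have hxy : x ≠ y := by
      intro h
      have := hn.nd
      rw [h] at this
      simp at this
    refine ⟨fun t => x + (t : ℂ) * (y - x), ?_, ?_, by simp, by simp, ?_, ?_⟩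
    · exact Continuous.continuousOn (by fun_prop)
    · intro t _ t' _ h
      have h1 : ((t : ℂ) - t') * (y - x) = 0 := by
        have h2 : x + (t : ℂ) * (y - x) = x + (t' : ℂ) * (y - x) := h
        linear_combination h2
      rcases mul_eq_zero.1 h1 with h2 | h2
      · have h3 : (t : ℂ) = t' := sub_eq_zero.1 h2
        exact_mod_cast h3
      · exact absurd (sub_eq_zero.1 h2).symm hxy
    · intro t ht
      rw [mem_iUnion₂]
      refine ⟨s(x, y), by simp [segL], ?_⟩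
      rw [T3.sgmk, T3.mem_seg]
      exact ⟨t, ht.1, ht.2, rfl⟩
    · exact PLA.one zero_le_one ⟨x, y - x, fun t _ => rfl⟩
  | x :: y :: w :: l, a, b, hn, _, ha, hb => by
    have ha' : x = a := by simpa using ha
    subst ha'
    have hn' := hn.nd
    rw [List.nodup_cons] at hn'
    have hb' : (y :: w :: l).getLast? = some b := by
      rw [List.getLast?_cons_cons] at hb
      exact hb
    obtain ⟨g, g1, g2, g3, g4, g5, g6⟩ := poly_arc (y :: w :: l) y b hn.tail (by simp) (by simp) hb'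
    have hxy : x ≠ y := fun h => hn'.1 (by rw [h]; simp)
    have hyw : y ≠ w := by
      intro h
      have h2 := (List.nodup_cons.1 hn'.2).1
      rw [h] at h2
      simp at h2
    have hxw : x ≠ w := fun h => hn'.1 (by rw [h]; simp)
    have hmeet : ∀ z, z ∈ sg s(x, y) → z ∈ (⋃ s ∈ segL (y :: w :: l), sg s) → z = y := by
      intro z hz hz'
      rw [mem_iUnion₂] at hz'
      obtain ⟨s, hs, hz'⟩ := hz'
      by_contra hzy
      have hs0 : s ∈ segL (x :: y :: w :: l) := List.mem_cons_of_mem _ hs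
      have hfst : s(x, y) ∈ segL (x :: y :: w :: l) := List.mem_cons_self
      by_cases hys : y ∈ s
      · have hsyw : s = s(y, w) := by
          rw [segL, List.mem_cons] at hs
          rcases hs with hs | hs
          · exact hs
          · exact absurd (T3.mem_of_segL hs y hys) (List.nodup_cons.1 hn'.2).1
        rw [hsyw, T3.sgmk] at hz'
        rw [Sym2.eq_swap, T3.sgmk] at hz
        rcases T3.share hz hz' hzy with h | h
        · rw [← T3.sgmk, ← hsyw] at h
          have h2 := hn.po s hs0 x (by simp) h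
          rw [hsyw, Sym2.mem_iff] at h2
          rcases h2 with h2 | h2
          · exact hxy h2
          · exact hxw h2
        · rw [← T3.sgmk, Sym2.eq_swap] at h
          have h2 := hn.po _ hfst w (by simp) h
          rw [Sym2.mem_iff] at h2
          rcases h2 with h2 | h2
          · exact hxw h2.symm
          · exact hyw h2.symm
      · refine hn.ns _ hfst s hs0 ⟨?_, ⟨z, hz, hz'⟩⟩
        intro q hq hqs
        rw [Sym2.mem_iff] at hq
        rcases hq with rfl | rfl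
        · exact hn'.1 (T3.mem_of_segL hs q hqs)
        · exact hys hqs
    set f : ℝ → ℂ := fun t => x + (t : ℂ) * (y - x) with hf
    have f1 : ContinuousOn f (Icc 0 1) := Continuous.continuousOn (by fun_prop)
    have f2 : InjOn f (Icc 0 1) := by
      intro t _ t' _ h
      have h1 : ((t : ℂ) - t') * (y - x) = 0 := by
        have h2 : x + (t : ℂ) * (y - x) = x + (t' : ℂ) * (y - x) := h
        linear_combination h2
      rcases mul_eq_zero.1 h1 with h2 | h2
      · have h3 : (t : ℂ) = t' := sub_eq_zero.1 h2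
        exact_mod_cast h3
      · exact absurd (sub_eq_zero.1 h2).symm hxy
    have f3 : f 1 = g 0 := by
      rw [g3, hf]
      simp
    have f4 : ∀ t ∈ Icc (0 : ℝ) 1, f t ∈ sg s(x, y) := by
      intro t ht
      rw [T3.sgmk, T3.mem_seg]
      exact ⟨t, ht.1, ht.2, rfl⟩
    obtain ⟨k1, k2, k3, k4⟩ := glue_arcs f1 g1 f2 g2 f3 (by
      intro t ht s hs h
      have h1 := hmeet _ (f4 t ht) (h ▸ g5 s hs)
      refine f2 ht (by simp) ?_
      rw [h1, f3, g3])
    refine ⟨CAT.gl f g, k1, k2, ?_, ?_, ?_, ?_⟩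
    · rw [k3 0 (by norm_num), hf]
      simp
    · rw [k4 1 (by norm_num)]
      norm_num
      exact g4
    · intro t ht
      rw [mem_iUnion₂]
      rcases le_total t (1 / 2) with h | h
      · rw [k3 t h]
        exact ⟨s(x, y), List.mem_cons_self, f4 _ ⟨by linarith [ht.1], by linarith⟩⟩
      · rw [k4 t h]
        have h1 := g5 (2 * t - 1) ⟨by linarith, by linarith [ht.2]⟩
        rw [mem_iUnion₂] at h1
        obtain ⟨s, hs, h1⟩ := h1
        exact ⟨s, List.mem_cons_of_mem _ hs, h1⟩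
    · refine PLA.cons (b := 1 / 2) (by norm_num) ?_ ?_
      · refine ⟨x, 2 * (y - x), fun t ht => ?_⟩
        rw [k3 t ht.2, hf]
        push_cast
        ring
      · have := PLA.resc g6 (γ := CAT.gl f g) (by
          intro u hu
          rw [k4 _ (by linarith [hu.1])]
          congr 1
          ring)
        norm_num at this
        norm_num
        exact this

open T3 in
/-- a drawing from a family of simple polygonal lines -/
theorem nice_T3 (V : Type) [Fintype V] (G : SimpleGraph V) (hd tl : Sym2 V → V)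
  (loc : V → ℂ) (W : Sym2 V → List ℂ) (hht : ∀ e ∈ G.edgeSet, s(hd e, tl e) = e)
  (hPL : PL (eF G) W) (hPO : PO (eF G) W) (hLb : Lb (eF G) hd tl loc W)
  (hNT : NT (eF G) W) (hSi : ∀ i ∈ eF G, Nx (W i) (W i) = 0) :
  ∃ D : Drawing G, D.crossings.Finite ∧ (∀ e ∈ G.edgeSet, ∀ f ∈ G.edgeSet, e ≠ f →
    DX D e f ≤ Nx (W e) (W f)) ∧ (∀ e ∈ G.edgeSet, PLA (D.arc e) 0 1) ∧
    ∀ e ∈ G.edgeSet, ∀ f ∈ G.edgeSet, ∀ g ∈ G.edgeSet, e ≠ f → e ≠ g → f ≠ g →
      ∀ z, z ∈ XX D e f → z ∈ XX D e g → False := by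
  have memA : ∀ {e}, e ∈ G.edgeSet → e ∈ eF G := fun he => by simp [eF, he]
  -- the arcs
  have harc : ∀ e, ∃ γ : ℝ → ℂ, e ∈ G.edgeSet → ContinuousOn γ (Icc 0 1) ∧ InjOn γ (Icc 0 1) ∧
      γ 0 = loc (hd e) ∧ γ 1 = loc (tl e) ∧
      (∀ t ∈ Icc (0 : ℝ) 1, γ t ∈ ⋃ s ∈ segL (W e), sg s) ∧ PLA γ 0 1 := by
    intro e
    by_cases he : e ∈ G.edgeSet
    · obtain ⟨γ, hγ⟩ := poly_arc (W e) (loc (hd e)) (loc (tl e)) ⟨hPL.nd e (memA he),
        fun s hs s' hs' => MVp.no_X (hSi e (memA he)) hs hs',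
        fun s hs q hq => hPO e (memA he) e (memA he) s hs q hq⟩
        (hPL.len e (memA he)) (hLb.head e (memA he)) (hLb.last e (memA he))
      exact ⟨γ, fun _ => hγ⟩
    · exact ⟨fun _ => 0, fun h => absurd h he⟩
  choose γ hγ using harc
  -- the bound
  have hbd : Bornology.IsBounded ((⋃ e ∈ eF G, ⋃ s ∈ segL (W e), sg s) ∪ range loc) := by
    apply Bornology.IsBounded.union
    · rw [Bornology.isBounded_biUnion_finset]
      intro e _
      have : (⋃ s ∈ segL (W e), sg s) = ⋃ s ∈ (segL (W e)).toFinset, sg s := by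
        simp
      rw [this, Bornology.isBounded_biUnion_finset]
      intro s _
      induction s using Sym2.ind with
      | _ a b =>
        rw [sgmk, segment_eq_image]
        exact (isCompact_Icc.image (by fun_prop)).isBounded
    · exact (finite_range loc).isBounded
  obtain ⟨R, hR⟩ := hbd.exists_norm_le
  have hR0 : ∀ e ∈ G.edgeSet, ∀ t ∈ Icc (0 : ℝ) 1, ‖γ e t‖ ≤ R := by
    intro e he t ht
    apply hR
    left
    rw [mem_iUnion₂]
    exact ⟨e, memA he, (hγ e he).2.2.2.2.1 t ht⟩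
  have hR1 : ∀ v, ‖loc v‖ ≤ R := fun v => hR _ (Or.inr ⟨v, rfl⟩)
  have hRn : ∀ v : V, 0 ≤ R := fun v => (norm_nonneg _).trans (hR1 v)
  -- the positions
  let idx : V → ℕ := fun v => (Fintype.equivFin V v : ℕ)
  have hidx : Function.Injective idx := fun u v h =>
    (Fintype.equivFin V).injective (Fin.ext h)
  set used : V → Prop := fun v => ∃ e ∈ G.edgeSet, v ∈ e with hused
  set pos : V → ℂ := fun v => if used v then loc v else ((R + 1 + idx v : ℝ) : ℂ) with hpos
  have hpos1 : ∀ v, used v → pos v = loc v := fun v hv => if_pos hv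
  have hpos2 : ∀ v, ¬ used v → ‖pos v‖ = R + 1 + idx v := by
    intro v hv
    rw [hpos]
    simp only [if_neg hv]
    rw [Complex.norm_real, Real.norm_of_nonneg]
    have := hRn v
    positivity
  have hend : ∀ e ∈ G.edgeSet, ∀ v ∈ e, v = hd e ∨ v = tl e := by
    intro e he v hv
    rw [← hht e he] at hv
    exact Sym2.mem_iff.1 hv
  have hhd : ∀ e ∈ G.edgeSet, hd e ∈ e := fun e he => by
    have h3 := Sym2.mem_mk_left (hd e) (tl e)
    rwa [hht e he] at h3
  have htl : ∀ e ∈ G.edgeSet, tl e ∈ e := fun e he => by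
    have h3 := Sym2.mem_mk_right (hd e) (tl e)
    rwa [hht e he] at h3
  have hinj : ∀ e ∈ G.edgeSet, ∀ f ∈ G.edgeSet, ∀ u ∈ e, ∀ v ∈ f, loc u = loc v → u = v := by
    intro e he f hf u hu v hv
    refine hLb.inj e (memA he) f (memA hf) u ?_ v ?_
    · rw [hht e he]; exact hu
    · rw [hht f hf]; exact hv
  have hposinj : Function.Injective pos := by
    intro u v huv
    by_cases hu : used u <;> by_cases hv : used v
    · rw [hpos1 u hu, hpos1 v hv] at huv
      obtain ⟨e, he, hue⟩ := hu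
      obtain ⟨f, hf, hvf⟩ := hv
      exact hinj e he f hf u hue v hvf huv
    · exfalso
      have h3 := hpos2 v hv
      rw [← huv, hpos1 u hu] at h3
      have h4 := hR1 u
      have h5 : (0 : ℝ) ≤ idx v := by positivity
      linarith
    · exfalso
      have h3 := hpos2 u hu
      rw [huv, hpos1 v hv] at h3
      have h4 := hR1 v
      have h5 : (0 : ℝ) ≤ idx u := by positivity
      linarith
    · have h3 := hpos2 u hu
      have h4 := hpos2 v hv
      rw [huv, h4] at h3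
      have h5 : (idx v : ℝ) = idx u := by linarith
      exact hidx (by exact_mod_cast h5.symm)
  -- ends of the polylines
  have hEn : ∀ e ∈ G.edgeSet, ∀ q, En (W e) q → ∃ v ∈ e, q = loc v ∧ (q = γ e 0 ∨ q = γ e 1) := by
    intro e he q hq
    rcases hq with hq | hq
    · rw [hLb.head e (memA he), Option.some_inj] at hq
      exact ⟨hd e, hhd e he, hq.symm, Or.inl (by rw [(hγ e he).2.2.1]; exact hq.symm)⟩
    · rw [hLb.last e (memA he), Option.some_inj] at hq
      exact ⟨tl e, htl e he, hq.symm, Or.inr (by rw [(hγ e he).2.2.2.1]; exact hq.symm)⟩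
  have hno : ∀ e ∈ G.edgeSet, ∀ t ∈ Ioo (0 : ℝ) 1, ¬ En (W e) (γ e t) := by
    intro e he t ht hq
    obtain ⟨v, _, _, h | h⟩ := hEn e he _ hq
    · have := (hγ e he).2.1 (Ioo_subset_Icc_self ht) (by simp) h
      exact ht.1.ne' this
    · have := (hγ e he).2.1 (Ioo_subset_Icc_self ht) (by simp) h
      exact ht.2.ne this
  have hlocmem : ∀ e ∈ G.edgeSet, ∀ v ∈ e, En (W e) (loc v) ∧ loc v ∈ W e := by
    intro e he v hv
    rcases hend e he v hv with rfl | rfl
    · have h3 := hLb.head e (memA he)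
      exact ⟨Or.inl h3, List.mem_of_head? h3⟩
    · have h3 := hLb.last e (memA he)
      exact ⟨Or.inr h3, List.mem_of_getLast? h3⟩
  let D : Drawing G :=
    { pos := pos
      pos_injective := hposinj
      arc := γ
      arc_continuousOn := fun e he => (hγ e he).1
      arc_injOn := fun e he => (hγ e he).2.1
      arc_ends := by
        intro u v huv
        have he : s(u, v) ∈ G.edgeSet := huv
        have h3 := hht _ he
        rw [(hγ _ he).2.2.1, (hγ _ he).2.2.2.1, hpos1 u ⟨_, he, Sym2.mem_mk_left _ _⟩,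
          hpos1 v ⟨_, he, Sym2.mem_mk_right _ _⟩]
        rw [Sym2.eq_iff] at h3
        rcases h3 with ⟨h3, h4⟩ | ⟨h3, h4⟩
        · left; rw [h3, h4]; exact ⟨rfl, rfl⟩
        · right; rw [h3, h4]; exact ⟨rfl, rfl⟩
      arc_avoids := by
        intro e he t ht w hw
        have ht' := Ioo_subset_Icc_self ht
        by_cases hu : used w
        · rw [hpos1 w hu] at hw
          obtain ⟨f, hf, hwf⟩ := hu
          obtain ⟨h3, h4⟩ := hlocmem f hf w hwf
          have h5 := (hγ e he).2.2.2.2.1 t ht'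
          rw [mem_iUnion₂] at h5
          obtain ⟨s, hs, h5⟩ := h5
          rw [hw] at h5
          have h6 := hPO e (memA he) f (memA hf) s hs _ h4 h5
          have h7 := mem_of_segL hs _ h6
          apply hno e he t ht
          rw [hw]
          by_cases hef : e = f
          · rw [hef]; exact h3
          · exact (hPL.sep e (memA he) f (memA hf) hef _ h7 h4).1
        · have h3 := hpos2 w hu
          rw [← hw] at h3
          have h4 := hR0 e he t ht'
          have h5 : (0 : ℝ) ≤ idx w := by positivity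
          linarith }
  -- the crossings
  -- meeting segments cross
  have hXs : ∀ e ∈ G.edgeSet, ∀ f ∈ G.edgeSet, e ≠ f →
      ∀ z, z ∈ γ e '' Ioo (0 : ℝ) 1 → z ∈ γ f '' Ioo (0 : ℝ) 1 →
      ∀ s ∈ segL (W e), ∀ s' ∈ segL (W f), z ∈ sg s → z ∈ sg s' → Xs s s' := by
    intro e he f hf hef z hze hzf s hs s' hs' h5 h6
    have hA := memA he
    have hB := memA hf
    obtain ⟨t, ht, hzt⟩ := hze
    refine ⟨?_, ⟨z, h5, h6⟩⟩
    intro q hq hq'
    have q1 := mem_of_segL hs q hq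
    have q2 := mem_of_segL hs' q hq'
    obtain ⟨q3, q4⟩ := hPL.sep e hA f hB hef q q1 q2
    have hzq : z ≠ q := by
      intro h
      apply hno e he t ht
      rw [hzt, h]
      exact q3
    obtain ⟨x, hx, rfl⟩ := other (hPL.nd e hA) hs hq
    obtain ⟨y, hy, rfl⟩ := other (hPL.nd f hB) hs' hq'
    have hxW : x ∈ W e := mem_of_segL hs x (Sym2.mem_mk_right _ _)
    have hyW : y ∈ W f := mem_of_segL hs' y (Sym2.mem_mk_right _ _)
    have hxy : x = y := by
      have h5' := h5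
      have h6' := h6
      rw [sgmk] at h5' h6'
      rcases share h5' h6' hzq with h7 | h7
      · rw [← sgmk] at h7
        have := hPO f hB e hA _ hs' x hxW h7
        rw [Sym2.mem_iff] at this
        exact this.resolve_left hx
      · rw [← sgmk] at h7
        have := hPO e hA f hB _ hs y hyW h7
        rw [Sym2.mem_iff] at this
        exact (this.resolve_left hy).symm
    rw [← hxy] at hyW
    obtain ⟨x3, x4⟩ := hPL.sep e hA f hB hef x hxW hyW
    obtain ⟨u1, hu1, e1, _⟩ := hEn e he q q3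
    obtain ⟨u2, hu2, e2, _⟩ := hEn f hf q q4
    obtain ⟨v1, hv1, e3, _⟩ := hEn e he x x3
    obtain ⟨v2, hv2, e4, _⟩ := hEn f hf x x4
    have huu : u1 = u2 := hinj e he f hf u1 hu1 u2 hu2 (by rw [← e1, ← e2])
    have hvv : v1 = v2 := hinj e he f hf v1 hv1 v2 hv2 (by rw [← e3, ← e4])
    have huv : u1 ≠ v1 := by
      intro h
      apply hx
      rw [e1, e3, h]
    rw [← huu] at hu2
    rw [← hvv] at hv2
    apply hef
    rw [(Sym2.mem_and_mem_iff huv).1 ⟨hu1, hv1⟩, (Sym2.mem_and_mem_iff huv).1 ⟨hu2, hv2⟩]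
  have hsegof : ∀ e ∈ G.edgeSet, ∀ z, z ∈ γ e '' Ioo (0 : ℝ) 1 → ∃ s ∈ segL (W e), z ∈ sg s := by
    rintro e he z ⟨t, ht, rfl⟩
    have h5 := (hγ e he).2.2.2.2.1 t (Ioo_subset_Icc_self ht)
    rw [mem_iUnion₂] at h5
    obtain ⟨s, hs, h5⟩ := h5
    exact ⟨s, hs, h5⟩
  have key : ∀ e ∈ G.edgeSet, ∀ f ∈ G.edgeSet, e ≠ f →
      (γ e '' Ioo (0 : ℝ) 1 ∩ γ f '' Ioo (0 : ℝ) 1).Finite ∧
      (γ e '' Ioo (0 : ℝ) 1 ∩ γ f '' Ioo (0 : ℝ) 1).ncard ≤ Nx (W e) (W f) := by
    intro e he f hf hef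
    have hA := memA he
    have hB := memA hf
    set Z := γ e '' Ioo (0 : ℝ) 1 ∩ γ f '' Ioo (0 : ℝ) 1 with hZ
    have hex : ∀ z, ∃ p : (_ : Sym2 ℂ) × Sym2 ℂ, z ∈ Z → p.1 ∈ segL (W e) ∧ p.2 ∈ segL (W f) ∧
        z ∈ sg p.1 ∧ z ∈ sg p.2 ∧ Xs p.1 p.2 := by
      intro z
      by_cases hz : z ∈ Z
      swap
      · exact ⟨⟨s(0, 0), s(0, 0)⟩, fun h => absurd h hz⟩
      obtain ⟨s, hs, h5⟩ := hsegof e he z hz.1
      obtain ⟨s', hs', h6⟩ := hsegof f hf z hz.2
      exact ⟨⟨s, s'⟩, fun _ => ⟨hs, hs', h5, h6, hXs e he f hf hef z hz.1 hz.2 s hs s' hs' h5 h6⟩⟩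
    choose P hP using hex
    set T : Finset ((_ : Sym2 ℂ) × Sym2 ℂ) := (segL (W e)).toFinset.sigma
      fun s => ((segL (W f)).filter fun s' => decide (Xs s s')).toFinset with hT
    have hmaps : ∀ z ∈ Z, P z ∈ (T : Set ((_ : Sym2 ℂ) × Sym2 ℂ)) := by
      intro z hz
      obtain ⟨p1, p2, _, _, p5⟩ := hP z hz
      rw [Finset.mem_coe, hT, Finset.mem_sigma, List.mem_toFinset, List.mem_toFinset,
        List.mem_filter]
      exact ⟨p1, p2, by simpa using p5⟩
    have hinjP : InjOn P Z := by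
      intro z hz z' hz' h
      obtain ⟨p1, p2, p3, p4, p5⟩ := hP z hz
      obtain ⟨p1', p2', p3', p4', _⟩ := hP z' hz'
      rw [← h] at p3' p4'
      by_contra hne
      obtain ⟨a, b, hab, hs⟩ := segL_ne (hPL.nd e hA) p1
      obtain ⟨c, d, hcd, hs'⟩ := segL_ne (hPL.nd f hB) p2
      have hno1 : ∀ q ∈ (P z).2, q ∉ sg (P z).1 := by
        intro q hq hq'
        have := hPO e hA f hB _ p1 q (mem_of_segL p2 q hq) hq'
        exact p5.1 q this hq
      have hno2 : ∀ q ∈ (P z).1, q ∉ sg (P z).2 := by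
        intro q hq hq'
        have := hPO f hB e hA _ p2 q (mem_of_segL p1 q hq) hq'
        exact p5.1 q hq this
      rw [hs, hs'] at hno1 hno2
      rw [hs, sgmk] at p3 p3'
      rw [hs', sgmk] at p4 p4'
      rw [sgmk] at hno1 hno2
      exact hno2 a (Sym2.mem_mk_left _ _) (two p3 p4 p3' p4' hne
        (hno1 c (Sym2.mem_mk_left _ _)) (hno1 d (Sym2.mem_mk_right _ _)))
    refine ⟨Set.Finite.of_injOn hmaps hinjP (Finset.finite_toSet T), ?_⟩
    calc Z.ncard ≤ (T : Set ((_ : Sym2 ℂ) × Sym2 ℂ)).ncard :=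
          Set.ncard_le_ncard_of_injOn P hmaps hinjP (Finset.finite_toSet T)
      _ = T.card := Set.ncard_coe_finset T
      _ = ∑ s ∈ (segL (W e)).toFinset,
          ((segL (W f)).filter fun s' => decide (Xs s s')).toFinset.card := Finset.card_sigma _ _
      _ ≤ ∑ s ∈ (segL (W e)).toFinset, NS s (W f) := by
          refine Finset.sum_le_sum fun s _ => ?_
          refine (List.toFinset_card_le _).trans ?_
          rw [NS, List.countP_eq_length_filter]
      _ = Nx (W e) (W f) := by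
          rw [Nx, List.sum_toFinset _ (segL_nodup (hPL.nd e hA))]
  refine ⟨D, (t_CNT V G D).1.2 fun e he f hf hef => (key e he f hf hef).1, ?_, ?_, ?_⟩
  · intro e he f hf hef
    rw [DX, if_pos ⟨he, hf, hef⟩]
    exact (key e he f hf hef).2
  · intro e he
    exact (hγ e he).2.2.2.2.2
  · intro e he f hf g hg hef heg hfg z hz1 hz2
    obtain ⟨s, hs, h5⟩ := hsegof e he z hz1.1
    obtain ⟨s', hs', h6⟩ := hsegof f hf z hz1.2
    obtain ⟨s'', hs'', h7⟩ := hsegof g hg z hz2.2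
    have x1 := hXs e he f hf hef z hz1.1 hz1.2 s hs s' hs' h5 h6
    have x2 := hXs e he g hg heg z hz2.1 hz2.2 s hs s'' hs'' h5 h7
    have x3 := hXs f hf g hg hfg z hz1.2 hz2.2 s' hs' s'' hs'' h6 h7
    have h8 := hNT e (memA he) f (memA hf) g (memA hg) s hs s' hs' s'' hs'' x1 x3 x2
    have h9 : z ∈ sg s ∩ sg s' ∩ sg s'' := ⟨⟨h5, h6⟩, h7⟩
    rw [h8] at h9
    exact h9

/-- polygonal optimal drawings, from a given optimal drawing -/
theorem exists_nice_of (V : Type) [Fintype V] (G : SimpleGraph V) (D0 : Drawing G)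
    (hf0 : D0.crossings.Finite) (hn0 : D0.crossings.ncard = crossingNumber G) :
    ∃ D : Drawing G, D.crossings.Finite ∧ Good D ∧ D.crossings.ncard = crossingNumber G ∧
      (∀ e ∈ G.edgeSet, PLA (D.arc e) 0 1) ∧
      (∀ e ∈ G.edgeSet, ∀ f ∈ G.edgeSet, ∀ g ∈ G.edgeSet, e ≠ f → e ≠ g → f ≠ g →
        ∀ z, z ∈ XX D e f → z ∈ XX D e g → False) ∧
      ∀ e ∈ G.edgeSet, ∀ f ∈ G.edgeSet, e ≠ f → DX D e f ≤ DX D0 e f := by
  obtain ⟨hd, tl, he⟩ : ∃ hd tl : Sym2 V → V, ∀ e ∈ G.edgeSet, s(hd e, tl e) = e :=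
    ⟨fun e => (Quot.out e).1, fun e => (Quot.out e).2, fun e _ => Quot.out_eq e⟩
  obtain ⟨W0, hP0, hL0, hN0⟩ := p_T1 V G D0 hd tl hf0 he
  obtain ⟨φ, hφ, hP1, hO1, hT1, hN1⟩ := p_GP (Sym2 V) (eF G) W0 hP0
  have hL1 := GOOD.lb_map hL0 hφ
  obtain ⟨W2, hP2, hO2, hT2, hE2, hS2, hN2⟩ := t_SIMP (Sym2 V) (eF G) _ hP1 hO1 hT1
  have hL2 := GOOD.lb_of hL1 hE2
  have hD2 := GOOD.ds_of he hP2 hL2
  have mem : ∀ {e : Sym2 V}, e ∈ G.edgeSet → e ∈ eF G := fun {e} h =>
    Finset.mem_filter.2 ⟨Finset.mem_univ _, h⟩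
  have hTT : TT (eF G) W2 ≤ 2 * crossingNumber G := by
    rw [← hn0, (t_CNT V G D0).2 hf0]
    refine GOOD.le_sum D0 fun e hee f hff hef => ?_
    exact (hN2 e (mem hee) f (mem hff)).trans
      ((hN1 e (mem hee) f (mem hff)).trans (hN0 e hee f hff hef))
  have key : ∀ e ∈ G.edgeSet, ∀ f ∈ G.edgeSet, e ≠ f → ∀ v, v ∈ e → v ∈ f →
      Nx (W2 e) (W2 f) = 0 := by
    intro e hee f hff hef v hve hvf
    by_contra hcon
    obtain ⟨W3, hP3, hO3, hE3, hT3⟩ := p_UNX (Sym2 V) (eF G) W2 hP2 hO2 hT2 hD2 hS2 e (mem hee) f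
      (mem hff) hef ⟨_, GOOD.lb_en hL2 (mem hee) (u := v) (by rw [he e hee]; exact hve),
        GOOD.lb_en hL2 (mem hff) (u := v) (by rw [he f hff]; exact hvf)⟩ hcon
    have hL3 := GOOD.lb_of hL2 hE3
    obtain ⟨D3, hf3, hD3⟩ := p_T3 V G hd tl _ W3 he hP3 hO3 hL3
    have g1 := (t_CNT V G D3).2 hf3
    have g2 := GOOD.sum_le D3 hD3
    have g3 := GOOD.cr_le D3 hf3
    omega
  obtain ⟨D, hf, hD, hD4, hD5⟩ := nice_T3 V G hd tl _ W2 he hP2 hO2 hL2 hT2 hS2
  refine ⟨D, hf, ?_, ?_, hD4, hD5, fun e hee f hff hef => (hD e hee f hff hef).trans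
    ((hN2 e (mem hee) f (mem hff)).trans
      ((hN1 e (mem hee) f (mem hff)).trans (hN0 e hee f hff hef)))⟩
  · intro e hee f hff hef v hve hvf
    have g1 := hD e hee f hff hef
    rw [key e hee f hff hef v hve hvf] at g1
    have g2 : (D.arc e '' Ioo (0 : ℝ) 1 ∩ D.arc f '' Ioo (0 : ℝ) 1).ncard = 0 := by
      unfold DX at g1
      rw [if_pos ⟨hee, hff, hef⟩] at g1
      omega
    exact (Set.ncard_eq_zero (((t_CNT V G D).1.1 hf) e hee f hff hef)).1 g2
  · have g1 := (t_CNT V G D).2 hf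
    have g2 := GOOD.sum_le D hD
    have g3 := GOOD.cr_le D hf
    omega

/-- polygonal optimal drawings -/
theorem exists_nice (V : Type) [Fintype V] (G : SimpleGraph V) :
    ∃ D : Drawing G, D.crossings.Finite ∧ Good D ∧ D.crossings.ncard = crossingNumber G ∧
      (∀ e ∈ G.edgeSet, PLA (D.arc e) 0 1) ∧
      ∀ e ∈ G.edgeSet, ∀ f ∈ G.edgeSet, ∀ g ∈ G.edgeSet, e ≠ f → e ≠ g → f ≠ g →
        ∀ z, z ∈ XX D e f → z ∈ XX D e g → False := by
  obtain ⟨D0, hf0, hn0⟩ := Pool.Agent.Helper770.Exist.crossingNumber_attained G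
  obtain ⟨D, h1, h2, h3, h4, h5, _⟩ := exists_nice_of V G D0 hf0 hn0
  exact ⟨D, h1, h2, h3, h4, h5⟩

end Run7.h795
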