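import Pool.Agent.Run7.h795.Glue

/-!
# The two pages
-/

set_option autoImplicit false

open Set Classical
open Pool.Agent.Helper770.Crossing Pool.Agent.NH90.CN

namespace Run7.h795

/-- two disjoint pages -/
theorem page_empty {K : Set ℂ} {R : ℝ} (hR : ∀ z ∈ K, ‖z‖ ≤ R) :
    Page K ∅ (fun i z => bif i then z + ((2 * R + 1 : ℝ) : ℂ) else z) := by
  refine ⟨?_, fun i z _ h => h.elim, ?_, ?_⟩
  · intro i
    cases i
    · exact continuousOn_id
    · exact (continuous_id.add continuous_const).continuousOn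
  · intro i z _ z' _ _ h
    cases i
    · exact h
    · exact add_right_cancel h
  · intro z hz z' hz' h
    exfalso
    have h1 : z = z' + ((2 * R + 1 : ℝ) : ℂ) := h
    have h2 : ‖((2 * R + 1 : ℝ) : ℂ)‖ ≤ ‖z‖ + ‖z'‖ := by
      have : ((2 * R + 1 : ℝ) : ℂ) = z - z' := by rw [h1]; ring
      rw [this]
      exact norm_sub_le _ _
    have h3 := hR z hz
    have h4 := hR z' hz'
    have h5 : 0 ≤ R := (norm_nonneg z).trans h3
    rw [Complex.norm_real, Real.norm_of_nonneg (by linarith)] at h2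
    linarith

/-- opening of a slit -/
noncomputable def Xi (w : ℂ) : ℂ := w + (‖w‖ : ℂ)

theorem Xi_zero : Xi 0 = 0 := by simp [Xi]

theorem Xi_cont : Continuous Xi := by
  unfold Xi
  exact continuous_id.add (Complex.continuous_ofReal.comp continuous_norm)

theorem Xi_re (w : ℂ) : (Xi w).re = w.re + ‖w‖ := by simp [Xi]

theorem Xi_im (w : ℂ) : (Xi w).im = w.im := by simp [Xi]

theorem norm_sq' (w : ℂ) : ‖w‖ ^ 2 = w.re ^ 2 + w.im ^ 2 := by
  rw [← Complex.normSq_eq_norm_sq, Complex.normSq_apply]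
  ring

theorem Xi_pos {w : ℂ} (hw : 0 < w.re ∨ w.im ≠ 0) : 0 < (Xi w).re := by
  rw [Xi_re]
  rcases hw with h | h
  · have := norm_nonneg w
    linarith
  · have h1 : |w.re| < ‖w‖ := by
      have h2 := norm_sq' w
      have h3 : 0 < w.im ^ 2 := by positivity
      have h4 : |w.re| ^ 2 < ‖w‖ ^ 2 := by rw [sq_abs]; linarith
      exact lt_of_pow_lt_pow_left₀ 2 (norm_nonneg _) h4
    have := neg_abs_le w.re
    linarith

theorem Xi_inj {w w' : ℂ} (hw : 0 < w.re ∨ w.im ≠ 0) (h : Xi w = Xi w') : w = w' := by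
  have h1 := congrArg Complex.re h
  have h2 := congrArg Complex.im h
  have hpos := Xi_pos hw
  rw [Xi_re, Xi_re] at h1
  rw [Xi_im, Xi_im] at h2
  rw [Xi_re] at hpos
  have e1 := norm_sq' w
  have e2 := norm_sq' w'
  rw [← h2] at e2
  -- both are solutions of the same linear equation
  have h3 : (w.re + ‖w‖) * (w.re - w'.re) = 0 := by
    have a1 : ‖w‖ = (w.re + ‖w‖) - w.re := by ring
    have a2 : ‖w'‖ = (w.re + ‖w‖) - w'.re := by rw [h1]; ring
    have b1 : ((w.re + ‖w‖) - w.re) ^ 2 = w.re ^ 2 + w.im ^ 2 := by rw [← a1, e1]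
    have b2 : ((w.re + ‖w‖) - w'.re) ^ 2 = w'.re ^ 2 + w.im ^ 2 := by rw [← a2, e2]
    nlinarith
  rcases mul_eq_zero.1 h3 with h4 | h4
  · exact absurd h4 hpos.ne'
  · exact Complex.ext (by linarith) h2

/-- the half-plane page -/
noncomputable def slit (p d : ℂ) (i : Bool) (z : ℂ) : ℂ :=
  bif i then -(starRingEnd ℂ) (Xi ((z - p) / (z - d))) else Xi ((z - p) / (z - d))

theorem page_slit {K : Set ℂ} {p d : ℂ} (hpd : p ≠ d)
    (hK : ∀ z ∈ K, z ∈ segment ℝ p d → z = p) : Page K {p} (slit p d) := by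
  have hd : ∀ z ∈ K, z ≠ d := fun z hz h =>
    hpd (by rw [← hK z hz (by rw [h]; exact right_mem_segment ℝ p d), h])
  have hw : ∀ z ∈ K, z ≠ p → 0 < ((z - p) / (z - d)).re ∨ ((z - p) / (z - d)).im ≠ 0 := by
    intro z hz hzp
    by_contra hcon
    push Not at hcon
    obtain ⟨h1, h2⟩ := hcon
    set t : ℝ := -((z - p) / (z - d)).re with ht
    have ht0 : 0 ≤ t := by linarith
    have h3 : (z - p) / (z - d) = ((-t : ℝ) : ℂ) := by
      apply Complex.ext
      · simp [ht]
      · simp [h2]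
    have hzd : z - d ≠ 0 := sub_ne_zero.2 (hd z hz)
    rw [div_eq_iff hzd] at h3
    have h1t : (1 + (t : ℂ)) ≠ 0 := by
      have : (1 + t : ℝ) ≠ 0 := by linarith
      exact_mod_cast this
    apply hzp
    apply hK z hz
    rw [T3.mem_seg]
    refine ⟨t / (1 + t), by positivity, by rw [div_le_one (by linarith)]; linarith, ?_⟩
    push_cast
    field_simp
    push_cast at h3
    linear_combination h3
  have hinj : ∀ z ∈ K, ∀ z' ∈ K, (z - p) / (z - d) = (z' - p) / (z' - d) → z = z' := by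
    intro z hz z' hz' h
    have h1 : z - d ≠ 0 := sub_ne_zero.2 (hd z hz)
    have h2 : z' - d ≠ 0 := sub_ne_zero.2 (hd z' hz')
    rw [div_eq_div_iff h1 h2] at h
    have h3 : (z - z') * (p - d) = 0 := by linear_combination h
    rcases mul_eq_zero.1 h3 with h4 | h4
    · exact sub_eq_zero.1 h4
    · exact absurd (sub_eq_zero.1 h4) hpd
  have hcont : ContinuousOn (fun z => Xi ((z - p) / (z - d))) K := by
    refine Xi_cont.comp_continuousOn ?_
    refine ContinuousOn.div (by fun_prop) (by fun_prop) ?_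
    intro z hz
    exact sub_ne_zero.2 (hd z hz)
  have hzero : Xi ((p - p) / (p - d)) = 0 := by rw [sub_self, zero_div, Xi_zero]
  have key : ∀ z ∈ K, ∀ z' ∈ K, z ∉ ({p} : Set ℂ) →
      Xi ((z - p) / (z - d)) = Xi ((z' - p) / (z' - d)) → z = z' := by
    intro z hz z' hz' hzp h
    exact hinj z hz z' hz' (Xi_inj (hw z hz hzp) h)
  refine ⟨?_, ?_, ?_, ?_⟩
  · intro i
    cases i
    · exact hcont
    · exact (Complex.continuous_conj.comp_continuousOn hcont).neg
  · intro i z _ hz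
    rw [mem_singleton_iff] at hz
    subst hz
    cases i
    · exact hzero
    · show -(starRingEnd ℂ) (Xi ((z - z) / (z - d))) = 0
      rw [hzero, map_zero, neg_zero]
  · intro i z hz z' hz' hzp h
    cases i
    · exact key z hz z' hz' hzp h
    · have h1 : -(starRingEnd ℂ) (Xi ((z - p) / (z - d))) =
        -(starRingEnd ℂ) (Xi ((z' - p) / (z' - d))) := h
      exact key z hz z' hz' hzp ((starRingEnd ℂ).injective (neg_injective h1))
  · intro z hz z' hz' h
    have h1 : Xi ((z - p) / (z - d)) = -(starRingEnd ℂ) (Xi ((z' - p) / (z' - d))) := h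
    have h2 := congrArg Complex.re h1
    rw [Complex.neg_re, Complex.conj_re] at h2
    have nn : ∀ z ∈ K, 0 ≤ (Xi ((z - p) / (z - d))).re := by
      intro z hz
      by_cases hzp : z = p
      · rw [hzp, hzero]
        simp
      · exact (Xi_pos (hw z hz hzp)).le
    have n1 := nn z hz
    have n2 := nn z' hz'
    constructor
    · by_contra hzp
      have := Xi_pos (hw z hz hzp)
      linarith
    · by_contra hzp
      have := Xi_pos (hw z' hz' hzp)
      linarith

/-- composition of the pages with a collapsing map -/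
theorem Page.comp {K K' Γ : Set ℂ} {p : ℂ} {Θ : Bool → ℂ → ℂ} (h : Page K' {p} Θ) {φ : ℂ → ℂ}
    (hc : ContinuousOn φ K) (hm : ∀ z ∈ K, φ z ∈ K') (hp : ∀ z ∈ K, (φ z = p ↔ z ∈ Γ))
    (hi : ∀ z ∈ K, ∀ z' ∈ K, z ∉ Γ → φ z = φ z' → z = z') : Page K Γ (fun i z => Θ i (φ z)) := by
  refine ⟨?_, ?_, ?_, ?_⟩
  · intro i
    exact (h.cont i).comp hc hm
  · intro i z hz hzΓ
    exact h.zero i _ (hm z hz) ((hp z hz).2 hzΓ)
  · intro i z hz z' hz' hzΓ he
    exact hi z hz z' hz' hzΓ (h.inj i _ (hm z hz) _ (hm z' hz') (fun h1 => hzΓ ((hp z hz).1 h1)) he)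
  · intro z hz z' hz' he
    obtain ⟨h1, h2⟩ := h.sep _ (hm z hz) _ (hm z' hz') he
    exact ⟨(hp z hz).1 h1, (hp z' hz').1 h2⟩

end Run7.h795
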