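import Pool.Agent.Run7.h795.Slit

/-!
# Random labels
-/

set_option autoImplicit false

open Set Classical
open Pool.Agent.Helper770.Crossing Pool.Agent.NH90.CN

namespace Run7.h795

section flips

variable {V : Type} [Fintype V]

omit [Fintype V] in
/-- flipping one label -/
noncomputable def flp (b : V) (σ : V → Bool) : V → Bool := Function.update σ b (!σ b)

omit [Fintype V] in
theorem flp_self (b : V) (σ : V → Bool) : flp b σ b = !σ b := by simp [flp]

omit [Fintype V] in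
theorem flp_ne {b u : V} (h : u ≠ b) (σ : V → Bool) : flp b σ u = σ u := by simp [flp, h]

omit [Fintype V] in
theorem flp_flp (b : V) (σ : V → Bool) : flp b (flp b σ) = σ := by
  funext u
  by_cases h : u = b
  · rw [h, flp_self, flp_self, Bool.not_not]
  · rw [flp_ne h, flp_ne h]

theorem sum_flp (b : V) (F : (V → Bool) → ℕ) : ∑ σ, F (flp b σ) = ∑ σ, F σ :=
  Equiv.sum_comp (Function.Involutive.toPerm (flp b) (flp_flp b)) F

theorem half_eq (b : V) (h : (V → Bool) → ℕ) (g : (V → Bool) → Bool)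
    (hh : ∀ σ, h (flp b σ) = h σ) (hg : ∀ σ, g (flp b σ) = g σ) :
    2 * ∑ σ, (if σ b = g σ then h σ else 0) = ∑ σ, h σ := by
  have h1 : ∑ σ, (if σ b = g σ then h σ else 0) = ∑ σ, (if σ b = g σ then 0 else h σ) := by
    rw [← sum_flp b]
    refine Finset.sum_congr rfl fun σ _ => ?_
    rw [flp_self, hh, hg]
    by_cases h : σ b = g σ
    · rw [if_pos h, if_neg]
      rw [← h]
      simp
    · rw [if_neg h, if_pos]
      cases h2 : σ b <;> cases h3 : g σ <;> simp_all
  have h2 : ∑ σ, (if σ b = g σ then h σ else 0) + ∑ σ, (if σ b = g σ then 0 else h σ) =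
      ∑ σ, h σ := by
    rw [← Finset.sum_add_distrib]
    refine Finset.sum_congr rfl fun σ _ => ?_
    split_ifs <;> simp
  omega

theorem half_ne (b : V) (h : (V → Bool) → ℕ) (g : (V → Bool) → Bool)
    (hh : ∀ σ, h (flp b σ) = h σ) (hg : ∀ σ, g (flp b σ) = g σ) :
    2 * ∑ σ, (if σ b ≠ g σ then h σ else 0) = ∑ σ, h σ := by
  rw [← half_eq b h (fun σ => !g σ) hh (fun σ => by rw [hg])]
  congr 1
  refine Finset.sum_congr rfl fun σ _ => ?_
  have : (σ b ≠ g σ) ↔ (σ b = !g σ) := by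
    cases σ b <;> cases g σ <;> simp
  simp only [this]

/-- the number of labelings -/
noncomputable def NN (V : Type) [Fintype V] : ℕ := ∑ _σ : V → Bool, 1

theorem NN_pos : 0 < NN V := by
  unfold NN
  rw [Finset.sum_const, smul_eq_mul, mul_one]
  exact Finset.card_pos.2 Finset.univ_nonempty

theorem pr_two {a b : V} (hab : a ≠ b) :
    2 * ∑ σ : V → Bool, (if σ a = σ b then 1 else 0) = NN V :=
  half_eq a (fun _ => 1) (fun σ => σ b) (fun _ => rfl) (fun σ => flp_ne hab.symm σ)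

theorem pr_three {u c d : V} (h1 : u ≠ c) (h2 : u ≠ d) (h3 : c ≠ d) :
    4 * ∑ σ : V → Bool, (if σ u = σ c ∧ σ c = σ d then 1 else 0) = NN V := by
  have e1 := half_eq u (fun σ => if σ c = σ d then 1 else 0) (fun σ => σ c)
    (fun σ => by rw [flp_ne h1.symm, flp_ne h2.symm]) (fun σ => flp_ne h1.symm σ)
  have e2 := pr_two h3
  have e3 : ∑ σ : V → Bool, (if σ u = σ c ∧ σ c = σ d then 1 else 0) =
      ∑ σ : V → Bool, (if σ u = σ c then (if σ c = σ d then 1 else 0) else 0) := by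
    refine Finset.sum_congr rfl fun σ _ => ?_
    by_cases ha : σ u = σ c <;> by_cases hb : σ c = σ d <;> simp [ha, hb]
  rw [e3]
  omega

theorem pr_four {a b c d : V} (hab : a ≠ b) (hac : a ≠ c) (had : a ≠ d) (hbc : b ≠ c)
    (hbd : b ≠ d) (hcd : c ≠ d) :
    8 * ∑ σ : V → Bool, (if σ a = σ b ∧ σ c = σ d ∧ σ a = σ c then 1 else 0) = NN V := by
  have e1 := half_eq a (fun σ => if σ b = σ c ∧ σ c = σ d then 1 else 0) (fun σ => σ b)
    (fun σ => by rw [flp_ne hab.symm, flp_ne hac.symm, flp_ne had.symm])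
    (fun σ => flp_ne hab.symm σ)
  have e2 := pr_three hbc hbd hcd
  have e3 : ∑ σ : V → Bool, (if σ a = σ b ∧ σ c = σ d ∧ σ a = σ c then 1 else 0) =
      ∑ σ : V → Bool, (if σ a = σ b then (if σ b = σ c ∧ σ c = σ d then 1 else 0) else 0) := by
    refine Finset.sum_congr rfl fun σ _ => ?_
    by_cases ha : σ a = σ b <;> by_cases hb : σ c = σ d <;> by_cases hc : σ b = σ c <;>
      simp [ha, hb, hc]
  rw [e3]
  omega

theorem pr_ne {a b c d : V} (hab : a ≠ b) (hac : a ≠ c) (had : a ≠ d) (hcd : c ≠ d) :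
    4 * ∑ σ : V → Bool, (if σ a ≠ σ b ∧ σ c ≠ σ d then 1 else 0) = NN V := by
  have e1 := half_ne a (fun σ => if σ c ≠ σ d then 1 else 0) (fun σ => σ b)
    (fun σ => by rw [flp_ne hac.symm, flp_ne had.symm]) (fun σ => flp_ne hab.symm σ)
  have e2 := half_ne c (fun _ => 1) (fun σ => σ d) (fun _ => rfl) (fun σ => flp_ne hcd.symm σ)
  have e3 : ∑ σ : V → Bool, (if σ a ≠ σ b ∧ σ c ≠ σ d then 1 else 0) =
      ∑ σ : V → Bool, (if σ a ≠ σ b then (if σ c ≠ σ d then 1 else 0) else 0) := by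
    refine Finset.sum_congr rfl fun σ _ => ?_
    by_cases ha : σ a = σ b <;> by_cases hb : σ c = σ d <;> simp [ha, hb]
  have e4 : NN V = ∑ _σ : V → Bool, 1 := rfl
  rw [e3]
  omega

end flips

end Run7.h795
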