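import Pool.Agent.Run7.h795.Opt

/-!
# Two edges of an optimal drawing cross at most once
-/

set_option autoImplicit false

open Set Classical
open Pool.Agent.Helper770.Crossing Pool.Agent.NH90.CN

namespace Run7.h795

theorem IsArc.symm' {S : Set ℂ} {p q : ℂ} (h : IsArc S p q) : IsArc S q p := by
  obtain ⟨γ, h1, h2, h3, h4, h5⟩ := h
  have hm : ∀ t ∈ Icc (0 : ℝ) 1, 1 - t ∈ Icc (0 : ℝ) 1 := fun t ht =>
    ⟨by linarith [ht.2], by linarith [ht.1]⟩
  refine ⟨fun t => γ (1 - t), h1.comp (by fun_prop) hm, ?_, ?_, ?_, fun t ht => h5 _ (hm t ht)⟩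
  · intro s hs t ht h
    have := h2 (hm s hs) (hm t ht) h
    linarith
  · show γ (1 - 0) = q
    rw [sub_zero, h4]
  · show γ (1 - 1) = p
    rw [sub_self, h3]

theorem IsArc.of_eq {α : Type} {S : Set ℂ} (pos : α → ℂ) {a b c d : α}
    (h : IsArc S (pos a) (pos b)) (he : s(a, b) = s(c, d)) : IsArc S (pos c) (pos d) := by
  rw [Sym2.eq_iff] at he
  rcases he with ⟨rfl, rfl⟩ | ⟨rfl, rfl⟩
  · exact h
  · exact IsArc.symm' h

/-- an arc as `IsArc` -/
theorem arc_isArc {V : Type} {G : SimpleGraph V} (D : Drawing G) {e : Sym2 V}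
    (he : e ∈ G.edgeSet) : IsArc (D.arc e '' Icc (0 : ℝ) 1) (D.arc e 0) (D.arc e 1) :=
  ⟨D.arc e, D.arc_continuousOn e he, D.arc_injOn e he, rfl, rfl, fun _ ht => mem_image_of_mem _ ht⟩

/-- a part of an arc as `IsArc` -/
theorem piece_isArc {V : Type} {G : SimpleGraph V} (D : Drawing G) {e : Sym2 V}
    (he : e ∈ G.edgeSet) {a b : ℝ} (ha : 0 ≤ a) (hb : b ≤ 1) (hab : a < b) :
    IsArc (D.arc e '' Icc a b) (D.arc e a) (D.arc e b) := by
  refine ⟨fun t => D.arc e (a + (b - a) * t), ?_, ?_, ?_, ?_, ?_⟩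
  · exact (D.arc_continuousOn e he).comp (by fun_prop) fun t ht => CAT.mem_aff ha hb hab.le ht
  · intro t ht t' ht' h
    have h1 := D.arc_injOn e he (CAT.mem_aff ha hb hab.le ht) (CAT.mem_aff ha hb hab.le ht') h
    have h2 : (b - a) * t = (b - a) * t' := by linarith
    exact mul_left_cancel₀ (sub_pos.2 hab).ne' h2
  · show D.arc e (a + (b - a) * 0) = _
    rw [mul_zero, add_zero]
  · show D.arc e (a + (b - a) * 1) = _
    rw [mul_one, add_sub_cancel]
  · intro t ht
    refine mem_image_of_mem _ ⟨?_, ?_⟩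
    · have := mul_nonneg (sub_nonneg.2 hab.le) ht.1
      linarith
    · have := mul_le_of_le_one_right (sub_nonneg.2 hab.le) ht.2
      linarith

section

variable {V : Type}

/-- the graph with the two edges `e`, `f` subdivided at a common vertex -/
def HH (G : SimpleGraph V) (e f : Sym2 V) : SimpleGraph (Option V) :=
  SimpleGraph.fromEdgeSet ({h | ∃ g ∈ G.edgeSet, g ≠ e ∧ g ≠ f ∧ h = toC g} ∪
    {h | ∃ y, (y ∈ e ∨ y ∈ f) ∧ h = arm y})

theorem toC_nd {G : SimpleGraph V} {g : Sym2 V} (hg : g ∈ G.edgeSet) : ¬ (toC g).IsDiag := by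
  induction g with
  | h a b =>
    rw [toC, Sym2.map_mk, Sym2.mk_isDiag_iff]
    intro h
    exact ((SimpleGraph.mem_edgeSet G).1 hg).ne (Option.some.inj h)

theorem mem_HH {G : SimpleGraph V} {e f : Sym2 V} {h : Sym2 (Option V)} :
    h ∈ (HH G e f).edgeSet ↔ (∃ g ∈ G.edgeSet, g ≠ e ∧ g ≠ f ∧ h = toC g) ∨
      ∃ y, (y ∈ e ∨ y ∈ f) ∧ h = arm y := by
  unfold HH
  rw [SimpleGraph.edgeSet_fromEdgeSet]
  constructor
  · exact fun h => h.1
  · intro h0
    refine ⟨h0, ?_⟩
    rcases h0 with ⟨g, hg, -, -, rfl⟩ | ⟨y, -, rfl⟩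
    · exact toC_nd hg
    · rw [arm]
      show ¬ (s(none, some y) : Sym2 (Option V)).IsDiag
      rw [Sym2.mk_isDiag_iff]
      simp

/-- the edge of `G` containing an edge of the subdivided graph -/
noncomputable def prj (e f : Sym2 V) (h : Sym2 (Option V)) : Sym2 V :=
  if (∃ y, y ∈ e ∧ h = arm y) then e else if (∃ y, h = arm y) then f
    else if hg : ∃ g, h = toC g then hg.choose else e

theorem prj_toC (e f g : Sym2 V) : prj e f (toC g) = g := by
  unfold prj
  rw [if_neg, if_neg, dif_pos ⟨g, rfl⟩]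
  · have h : ∃ g', toC g = toC g' := ⟨g, rfl⟩
    exact (PRISM.toC_inj h.choose_spec).symm
  · rintro ⟨y, h⟩
    exact PRISM.arm_ne_toC y g h.symm
  · rintro ⟨y, -, h⟩
    exact PRISM.arm_ne_toC y g h.symm

theorem prj_arm_e {e f : Sym2 V} {y : V} (hy : y ∈ e) : prj e f (arm y) = e := by
  unfold prj
  rw [if_pos ⟨y, hy, rfl⟩]

theorem prj_arm_f {e f : Sym2 V} {y : V} (hy : y ∉ e) : prj e f (arm y) = f := by
  unfold prj
  rw [if_neg, if_pos ⟨y, rfl⟩]
  rintro ⟨z, hz, h⟩
  rw [PRISM.arm_inj h] at hy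
  exact hy hz

end

/-- the projection of crossings -/
noncomputable def Phi {V : Type} (e f : Sym2 V) (p : Sym2 (Sym2 (Option V)) × ℂ) :
    Sym2 (Sym2 V) × ℂ := (Sym2.map (prj e f) p.1, p.2)

section

variable {V : Type} [Fintype V] {G : SimpleGraph V}

/-- Two edges of an optimal drawing without triple points cross at most once: from two crossings
one gets a drawing of the graph with the two edges subdivided with two crossings less. -/
theorem split_step (D : Drawing G) (hDf : D.crossings.Finite) (hD : Good D)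
    (hNT : ∀ e ∈ G.edgeSet, ∀ f ∈ G.edgeSet, ∀ g ∈ G.edgeSet, e ≠ f → e ≠ g → f ≠ g →
      ∀ z, z ∈ XX D e f → z ∈ XX D e g → False)
    {e f : Sym2 V} (he : e ∈ G.edgeSet) (hf : f ∈ G.edgeSet) (hef : e ≠ f)
    (hdis : ∀ u, u ∈ e → u ∉ f) {x y : ℂ} (hx : x ∈ XX D e f) (hy : y ∈ XX D e f) (hxy : x ≠ y) :
    crossingNumber (HH G e f) + 2 ≤ D.crossings.ncard := by
  obtain ⟨hd, tl, hht⟩ := exists_orient D
  obtain ⟨⟨te, hte, hxe⟩, ⟨tf, htf, hxf⟩⟩ := hx
  obtain ⟨he1, he2, he3⟩ := hht e he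
  obtain ⟨hf1, hf2, hf3⟩ := hht f hf
  have me1 : hd e ∈ e := by
    have := Sym2.mem_mk_left (hd e) (tl e)
    rwa [he1] at this
  have me2 : tl e ∈ e := by
    have := Sym2.mem_mk_right (hd e) (tl e)
    rwa [he1] at this
  have mf1 : hd f ∈ f := by
    have := Sym2.mem_mk_left (hd f) (tl f)
    rwa [hf1] at this
  have mf2 : tl f ∈ f := by
    have := Sym2.mem_mk_right (hd f) (tl f)
    rwa [hf1] at this
  have ne1 : hd e ≠ tl e := by
    intro h
    rw [h] at he1
    rw [← he1] at he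
    exact G.loopless.irrefl _ ((SimpleGraph.mem_edgeSet G).1 he)
  have ne2 : hd f ≠ tl f := by
    intro h
    rw [h] at hf1
    rw [← hf1] at hf
    exact G.loopless.irrefl _ ((SimpleGraph.mem_edgeSet G).1 hf)
  have ne3 : hd e ≠ hd f := fun h => hdis _ me1 (h ▸ mf1)
  have ne4 : hd e ≠ tl f := fun h => hdis _ me1 (h ▸ mf2)
  have ne5 : tl e ≠ hd f := fun h => hdis _ me2 (h ▸ mf1)
  have ne6 : tl e ≠ tl f := fun h => hdis _ me2 (h ▸ mf2)
  have a12 : arm (hd e) ≠ arm (tl e) := fun h => ne1 (PRISM.arm_inj h)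
  have a34 : arm (hd f) ≠ arm (tl f) := fun h => ne2 (PRISM.arm_inj h)
  have a13 : arm (hd e) ≠ arm (hd f) := fun h => ne3 (PRISM.arm_inj h)
  have a14 : arm (hd e) ≠ arm (tl f) := fun h => ne4 (PRISM.arm_inj h)
  have a23 : arm (tl e) ≠ arm (hd f) := fun h => ne5 (PRISM.arm_inj h)
  have a24 : arm (tl e) ≠ arm (tl f) := fun h => ne6 (PRISM.arm_inj h)
  set lo : Sym2 (Option V) → ℝ := fun h => if h = arm (tl e) then te else
    if h = arm (tl f) then tf else 0 with hlo
  set hi : Sym2 (Option V) → ℝ := fun h => if h = arm (hd e) then te else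
    if h = arm (hd f) then tf else 1 with hhi
  -- classification
  have hcl : ∀ h ∈ (HH G e f).edgeSet,
      (∃ g ∈ G.edgeSet, g ≠ e ∧ g ≠ f ∧ h = toC g ∧ prj e f h = g ∧ lo h = 0 ∧ hi h = 1) ∨
      (h = arm (hd e) ∧ prj e f h = e ∧ lo h = 0 ∧ hi h = te) ∨
      (h = arm (tl e) ∧ prj e f h = e ∧ lo h = te ∧ hi h = 1) ∨
      (h = arm (hd f) ∧ prj e f h = f ∧ lo h = 0 ∧ hi h = tf) ∨
      (h = arm (tl f) ∧ prj e f h = f ∧ lo h = tf ∧ hi h = 1) := by
    intro h hh
    rcases mem_HH.1 hh with ⟨g, hg, hge, hgf, rfl⟩ | ⟨v, hv, rfl⟩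
    · left
      refine ⟨g, hg, hge, hgf, rfl, prj_toC e f g, ?_, ?_⟩
      · show (if toC g = arm (tl e) then te else if toC g = arm (tl f) then tf else 0) = 0
        rw [if_neg (PRISM.arm_ne_toC _ _).symm, if_neg (PRISM.arm_ne_toC _ _).symm]
      · show (if toC g = arm (hd e) then te else if toC g = arm (hd f) then tf else 1) = 1
        rw [if_neg (PRISM.arm_ne_toC _ _).symm, if_neg (PRISM.arm_ne_toC _ _).symm]
    · right
      rw [← he1, ← hf1, Sym2.mem_iff, Sym2.mem_iff] at hv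
      rcases hv with (rfl | rfl) | (rfl | rfl)
      · left
        refine ⟨rfl, prj_arm_e me1, ?_, ?_⟩
        · show (if arm (hd e) = arm (tl e) then te else if arm (hd e) = arm (tl f) then tf else 0) = 0
          rw [if_neg a12, if_neg a14]
        · show (if arm (hd e) = arm (hd e) then te else _) = te
          rw [if_pos rfl]
      · right; left
        refine ⟨rfl, prj_arm_e me2, ?_, ?_⟩
        · show (if arm (tl e) = arm (tl e) then te else _) = te
          rw [if_pos rfl]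
        · show (if arm (tl e) = arm (hd e) then te else if arm (tl e) = arm (hd f) then tf else 1) = 1
          rw [if_neg a12.symm, if_neg a23]
      · right; right; left
        refine ⟨rfl, prj_arm_f (fun h => hdis _ h mf1), ?_, ?_⟩
        · show (if arm (hd f) = arm (tl e) then te else if arm (hd f) = arm (tl f) then tf else 0) = 0
          rw [if_neg a23.symm, if_neg a34]
        · show (if arm (hd f) = arm (hd e) then te else if arm (hd f) = arm (hd f) then tf else 1) = tf
          rw [if_neg a13.symm, if_pos rfl]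
      · right; right; right
        refine ⟨rfl, prj_arm_f (fun h => hdis _ h mf2), ?_, ?_⟩
        · show (if arm (tl f) = arm (tl e) then te else if arm (tl f) = arm (tl f) then tf else 0) = tf
          rw [if_neg a24.symm, if_pos rfl]
        · show (if arm (tl f) = arm (hd e) then te else if arm (tl f) = arm (hd f) then tf else 1) = 1
          rw [if_neg a14.symm, if_neg a34.symm]
  have hxv : ∀ v, x ≠ D.pos v := by
    intro v hv
    exact D.arc_avoids e he te hte v (hxe.trans hv)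
  set posH : Option V → ℂ := fun w => w.elim x D.pos with hposH
  have hpinj : Function.Injective posH := by
    intro w w' h
    cases w with
    | none =>
      cases w' with
      | none => rfl
      | some v => exact absurd h (hxv v)
    | some v =>
      cases w' with
      | none => exact absurd h.symm (hxv v)
      | some v' => rw [D.pos_injective h]
  have hprj : ∀ h ∈ (HH G e f).edgeSet, prj e f h ∈ G.edgeSet := by
    intro h hh
    rcases hcl h hh with ⟨g, hg, _, _, _, h1, _⟩ | ⟨_, h1, _⟩ | ⟨_, h1, _⟩ | ⟨_, h1, _⟩ | ⟨_, h1, _⟩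
    · rw [h1]; exact hg
    · rw [h1]; exact he
    · rw [h1]; exact he
    · rw [h1]; exact hf
    · rw [h1]; exact hf
  have hlh : ∀ h ∈ (HH G e f).edgeSet, 0 ≤ lo h ∧ lo h < hi h ∧ hi h ≤ 1 := by
    intro h hh
    rcases hcl h hh with ⟨g, hg, _, _, _, _, h1, h2⟩ | ⟨_, _, h1, h2⟩ | ⟨_, _, h1, h2⟩ |
      ⟨_, _, h1, h2⟩ | ⟨_, _, h1, h2⟩
    · rw [h1, h2]; exact ⟨le_rfl, zero_lt_one, le_rfl⟩
    · rw [h1, h2]; exact ⟨le_rfl, hte.1, hte.2.le⟩
    · rw [h1, h2]; exact ⟨hte.1.le, hte.2, le_rfl⟩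
    · rw [h1, h2]; exact ⟨le_rfl, htf.1, htf.2.le⟩
    · rw [h1, h2]; exact ⟨htf.1.le, htf.2, le_rfl⟩
  have hends : ∀ h ∈ (HH G e f).edgeSet, ∃ a b, h = s(a, b) ∧
      D.arc (prj e f h) (lo h) = posH a ∧ D.arc (prj e f h) (hi h) = posH b := by
    intro h hh
    rcases hcl h hh with ⟨g, hg, _, _, h0, h1, h2, h3⟩ | ⟨h0, h1, h2, h3⟩ | ⟨h0, h1, h2, h3⟩ |
      ⟨h0, h1, h2, h3⟩ | ⟨h0, h1, h2, h3⟩
    · rw [h1, h2, h3]
      obtain ⟨g1, g2, g3⟩ := hht g hg
      refine ⟨some (hd g), some (tl g), ?_, g2, g3⟩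
      rw [h0, toC]
      conv_lhs => rw [← g1]
      rw [Sym2.map_mk]
    · rw [h1, h2, h3]
      exact ⟨some (hd e), none, by rw [h0, arm, Sym2.eq_swap], he2, hxe⟩
    · rw [h1, h2, h3]
      exact ⟨none, some (tl e), by rw [h0, arm], hxe, he3⟩
    · rw [h1, h2, h3]
      exact ⟨some (hd f), none, by rw [h0, arm, Sym2.eq_swap], hf2, hxf⟩
    · rw [h1, h2, h3]
      exact ⟨none, some (tl f), by rw [h0, arm], hxf, hf3⟩
  have hnone : ∀ h ∈ (HH G e f).edgeSet, (prj e f h = e ∨ prj e f h = f) → none ∈ h := by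
    intro h hh hp
    rcases hcl h hh with ⟨g, hg, g1, g2, h0, h1, h2, h3⟩ | ⟨h0, _⟩ | ⟨h0, _⟩ | ⟨h0, _⟩ | ⟨h0, _⟩
    · rw [h1] at hp
      rcases hp with hp | hp
      · exact absurd hp g1
      · exact absurd hp g2
    all_goals
      rw [h0, arm]
      exact Sym2.mem_mk_left _ _
  set R : Sym2 (Option V) → Set ℂ := fun h => D.arc (prj e f h) '' Icc (lo h) (hi h) with hR
  have hRs : ∀ h ∈ (HH G e f).edgeSet, R h ⊆ D.arc (prj e f h) '' Icc (0 : ℝ) 1 := fun h hh =>
    image_mono (Icc_subset_Icc (hlh h hh).1 (hlh h hh).2.2)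
  obtain ⟨hdH, tlH, hhtH⟩ := exists_or (Option V)
  obtain ⟨P, hPp, hPa⟩ := mk (G := HH G e f) hdH tlH (fun h _ => hhtH h) posH hpinj R
    (by
      intro h hh
      obtain ⟨a, b, h1, h2, h3⟩ := hends h hh
      have h4 := piece_isArc D (hprj h hh) (hlh h hh).1 (hlh h hh).2.2 (hlh h hh).2.1
      rw [h2, h3] at h4
      exact IsArc.of_eq posH h4 (by rw [hhtH, h1]))
    (by
      intro h hh w hw
      obtain ⟨a, b, h1, h2, h3⟩ := hends h hh
      obtain ⟨t, ht, htw⟩ := hw
      have ht' : t ∈ Icc (0 : ℝ) 1 := ⟨(hlh h hh).1.trans ht.1, ht.2.trans (hlh h hh).2.2⟩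
      cases w with
      | none =>
        have htx : D.arc (prj e f h) t = x := htw
        by_cases hp : prj e f h = e ∨ prj e f h = f
        · exact hnone h hh hp
        · exfalso
          rw [not_or] at hp
          have h5 : x ∈ D.arc (prj e f h) '' Ioo (0 : ℝ) 1 := by
            rcases arc_cases D (hprj h hh) ⟨t, ht', htx⟩ with h6 | ⟨u, _, h6⟩
            · exact h6
            · exact absurd h6 (hxv u)
          exact hNT e he f hf _ (hprj h hh) hef (Ne.symm hp.1) (Ne.symm hp.2) x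
            ⟨⟨te, hte, hxe⟩, ⟨tf, htf, hxf⟩⟩ ⟨⟨te, hte, hxe⟩, h5⟩
      | some v =>
        have htv : D.arc (prj e f h) t = D.pos v := htw
        rcases ht'.1.eq_or_lt with h0 | h0
        · have h5 : lo h = t := le_antisymm ht.1 (by rw [← h0]; exact (hlh h hh).1)
          rw [h5] at h2
          have h6 : posH a = posH (some v) := h2.symm.trans htv
          rw [h1, ← hpinj h6]
          exact Sym2.mem_mk_left _ _
        · rcases ht'.2.eq_or_lt with h7 | h7
          · have h5 : hi h = t := le_antisymm (by rw [h7]; exact (hlh h hh).2.2) ht.2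
            rw [h5] at h3
            have h6 : posH b = posH (some v) := h3.symm.trans htv
            rw [h1, ← hpinj h6]
            exact Sym2.mem_mk_right _ _
          · exact absurd htv (D.arc_avoids _ (hprj h hh) t ⟨h0, h7⟩ v))
  -- uniqueness
  have huniq : ∀ h ∈ (HH G e f).edgeSet, ∀ h' ∈ (HH G e f).edgeSet, prj e f h = prj e f h' →
      ∀ z, z ≠ x → z ∈ R h → z ∈ R h' → h = h' := by
    intro h hh h' hh' hp z hzx hz hz'
    obtain ⟨t, ht, htz⟩ := hz
    obtain ⟨t', ht', htz'⟩ := hz'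
    rw [← hp] at htz'
    have htt : t = t' := D.arc_injOn _ (hprj h hh)
      ⟨(hlh h hh).1.trans ht.1, ht.2.trans (hlh h hh).2.2⟩
      ⟨(hlh h' hh').1.trans ht'.1, ht'.2.trans (hlh h' hh').2.2⟩ (htz.trans htz'.symm)
    rw [← htt] at ht'
    rcases hcl h hh with ⟨g, hg, g1, g2, h0, h1, h2, h3⟩ | ⟨h0, h1, h2, h3⟩ | ⟨h0, h1, h2, h3⟩ |
      ⟨h0, h1, h2, h3⟩ | ⟨h0, h1, h2, h3⟩ <;>
    rcases hcl h' hh' with ⟨g', hg', g1', g2', h0', h1', h2', h3'⟩ | ⟨h0', h1', h2', h3'⟩ |
      ⟨h0', h1', h2', h3'⟩ | ⟨h0', h1', h2', h3'⟩ | ⟨h0', h1', h2', h3'⟩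
    · rw [h0, h0', ← h1, ← h1', hp]
    · exact absurd (h1.symm.trans (hp.trans h1')) g1
    · exact absurd (h1.symm.trans (hp.trans h1')) g1
    · exact absurd (h1.symm.trans (hp.trans h1')) g2
    · exact absurd (h1.symm.trans (hp.trans h1')) g2
    · exact absurd (h1'.symm.trans (hp.symm.trans h1)) g1'
    · rw [h0, h0']
    · exfalso
      rw [h3] at ht
      rw [h2'] at ht'
      have : t = te := le_antisymm ht.2 ht'.1
      rw [h1, this, hxe] at htz
      exact hzx htz.symm
    · exact absurd (h1.symm.trans (hp.trans h1')) hef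
    · exact absurd (h1.symm.trans (hp.trans h1')) hef
    · exact absurd (h1'.symm.trans (hp.symm.trans h1)) g1'
    · exfalso
      rw [h2] at ht
      rw [h3'] at ht'
      have : t = te := le_antisymm ht'.2 ht.1
      rw [h1, this, hxe] at htz
      exact hzx htz.symm
    · rw [h0, h0']
    · exact absurd (h1.symm.trans (hp.trans h1')) hef
    · exact absurd (h1.symm.trans (hp.trans h1')) hef
    · exact absurd (h1'.symm.trans (hp.symm.trans h1)) g2'
    · exact absurd (h1.symm.trans (hp.trans h1')) hef.symm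
    · exact absurd (h1.symm.trans (hp.trans h1')) hef.symm
    · rw [h0, h0']
    · exfalso
      rw [h3] at ht
      rw [h2'] at ht'
      have : t = tf := le_antisymm ht.2 ht'.1
      rw [h1, this, hxf] at htz
      exact hzx htz.symm
    · exact absurd (h1'.symm.trans (hp.symm.trans h1)) g2'
    · exact absurd (h1.symm.trans (hp.trans h1')) hef.symm
    · exact absurd (h1.symm.trans (hp.trans h1')) hef.symm
    · exfalso
      rw [h2] at ht
      rw [h3'] at ht'
      have : t = tf := le_antisymm ht'.2 ht.1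
      rw [h1, this, hxf] at htz
      exact hzx htz.symm
    · rw [h0, h0']
  -- the crossings of `P`
  have hPv : ∀ h ∈ (HH G e f).edgeSet, ∀ z ∈ P.arc h '' Ioo (0 : ℝ) 1,
      z ∈ R h ∧ z ≠ x ∧ z ∈ D.arc (prj e f h) '' Ioo (0 : ℝ) 1 := by
    rintro h hh z ⟨t, ht, htz⟩
    have h1 : z ∈ R h := htz ▸ hPa h hh t (Ioo_subset_Icc_self ht)
    have h2 : ∀ w, z ≠ posH w := by
      intro w hw
      apply P.arc_avoids h hh t ht w
      rw [hPp, htz, hw]
    refine ⟨h1, h2 none, ?_⟩
    rcases arc_cases D (hprj h hh) (hRs h hh h1) with h3 | ⟨u, _, h3⟩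
    · exact h3
    · exact absurd h3 (h2 (some u))
  have hPc : ∀ p ∈ P.crossings, ∃ h ∈ (HH G e f).edgeSet, ∃ h' ∈ (HH G e f).edgeSet, h ≠ h' ∧
      p.1 = s(h, h') ∧ p.2 ≠ x ∧ p.2 ∈ R h ∧ p.2 ∈ R h' ∧ prj e f h ≠ prj e f h' ∧
      p.2 ∈ XX D (prj e f h) (prj e f h') ∧ p.2 ∈ XX P h h' := by
    rintro ⟨q, z⟩ ⟨h, hh, h', hh', hne, h1, h2, h3⟩
    obtain ⟨k1, k2, k3⟩ := hPv h hh z h2
    obtain ⟨k1', k2', k3'⟩ := hPv h' hh' z h3
    exact ⟨h, hh, h', hh', hne, h1, k2, k1, k1',
      fun h4 => hne (huniq h hh h' hh' h4 z k2 k1 k1'), ⟨k3, k3'⟩, ⟨h2, h3⟩⟩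
  have hmaps : ∀ p ∈ P.crossings, Phi e f p ∈ D.crossings \ {(s(e, f), x)} := by
    intro p hp
    obtain ⟨h, hh, h', hh', hne, h1, h2, h3, h4, h5, h6, h7⟩ := hPc p hp
    refine ⟨⟨prj e f h, hprj h hh, prj e f h', hprj h' hh', h5, ?_, h6.1, h6.2⟩, ?_⟩
    · show Sym2.map (prj e f) p.1 = _
      rw [h1, Sym2.map_mk]
    · rw [mem_singleton_iff]
      intro h8
      exact h2 (congrArg Prod.snd h8)
  have hinj : InjOn (Phi e f) P.crossings := by
    intro p hp p' hp' hpp
    obtain ⟨h, hh, h', hh', hne, h1, h2, h3, h4, h5, h6, h7⟩ := hPc p hp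
    obtain ⟨k, hk, k', hk', kne, k1, k2, k3, k4, k5, k6, k7⟩ := hPc p' hp'
    have e1 : Sym2.map (prj e f) p.1 = Sym2.map (prj e f) p'.1 := by
      show (Phi e f p).1 = (Phi e f p').1
      rw [hpp]
    have e2 : p.2 = p'.2 := by
      show (Phi e f p).2 = (Phi e f p').2
      rw [hpp]
    rw [h1, k1, Sym2.map_mk, Sym2.map_mk, Sym2.eq_iff] at e1
    refine Prod.ext ?_ e2
    rw [h1, k1]
    rcases e1 with ⟨e3, e4⟩ | ⟨e3, e4⟩
    · rw [huniq h hh k hk e3 p.2 h2 h3 (e2 ▸ k3), huniq h' hh' k' hk' e4 p.2 h2 h4 (e2 ▸ k4)]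
    · rw [huniq h hh k' hk' e3 p.2 h2 h3 (e2 ▸ k4), huniq h' hh' k hk e4 p.2 h2 h4 (e2 ▸ k3),
        Sym2.eq_swap]
  have hPf : P.crossings.Finite :=
    Set.Finite.of_injOn (fun p hp => (hmaps p hp).1) hinj hDf
  have hxc : (s(e, f), x) ∈ D.crossings :=
    ⟨e, he, f, hf, hef, rfl, ⟨te, hte, hxe⟩, ⟨tf, htf, hxf⟩⟩
  have hyc : (s(e, f), y) ∈ D.crossings := ⟨e, he, f, hf, hef, rfl, hy.1, hy.2⟩
  have hcr := GOOD.cr_le P hPf
  by_cases hyP : ∃ p ∈ P.crossings, Phi e f p = (s(e, f), y)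
  · -- two adjacent edges cross
    obtain ⟨p, hp, hpy⟩ := hyP
    obtain ⟨h, hh, h', hh', hne, h1, h2, h3, h4, h5, h6, h7⟩ := hPc p hp
    have e1 : Sym2.map (prj e f) p.1 = s(e, f) := congrArg Prod.fst hpy
    rw [h1, Sym2.map_mk, Sym2.eq_iff] at e1
    have n1 : none ∈ h := hnone h hh (by rcases e1 with e1 | e1 <;> tauto)
    have n2 : none ∈ h' := hnone h' hh' (by rcases e1 with e1 | e1 <;> tauto)
    have h0 : DX P h h' ≠ 0 := by
      rw [DX, if_pos ⟨hh, hh', hne⟩]
      intro h8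
      have h9 := (Set.ncard_eq_zero (((t_CNT _ _ P).1.1 hPf) h hh h' hh' hne)).1 h8
      have h10 : p.2 ∈ (∅ : Set ℂ) := h9 ▸ h7
      exact h10
    have h8 := not_good_lt P hPf h0 n1 n2
    have h9 : P.crossings.ncard ≤ (D.crossings \ {(s(e, f), x)}).ncard :=
      Set.ncard_le_ncard_of_injOn _ hmaps hinj (hDf.subset sdiff_subset)
    rw [Set.ncard_sdiff_singleton_of_mem hxc] at h9
    omega
  · have h9 : P.crossings.ncard ≤ ((D.crossings \ {(s(e, f), x)}) \ {(s(e, f), y)}).ncard := by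
      refine Set.ncard_le_ncard_of_injOn _ ?_ hinj ((hDf.subset sdiff_subset).subset sdiff_subset)
      intro p hp
      exact ⟨hmaps p hp, fun h => hyP ⟨p, hp, h⟩⟩
    have hyc' : (s(e, f), y) ∈ D.crossings \ {(s(e, f), x)} := by
      refine ⟨hyc, ?_⟩
      rw [mem_singleton_iff]
      intro h
      exact hxy (congrArg Prod.snd h).symm
    rw [Set.ncard_sdiff_singleton_of_mem hyc', Set.ncard_sdiff_singleton_of_mem hxc] at h9
    have h10 : 0 < (D.crossings \ {(s(e, f), x)}).ncard :=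
      (Set.ncard_pos (hDf.subset sdiff_subset)).2 ⟨_, hyc'⟩
    rw [Set.ncard_sdiff_singleton_of_mem hxc] at h10
    omega

/-- a drawing of the subdivided graph gives a drawing of `G` with at most one more crossing -/
theorem merge_step {e f : Sym2 V} (he : e ∈ G.edgeSet) (hf : f ∈ G.edgeSet) (hef : e ≠ f)
    (hdis : ∀ u, u ∈ e → u ∉ f) :
    crossingNumber G ≤ crossingNumber (HH G e f) + 1 := by
  obtain ⟨Q, hQf, hQn⟩ := Pool.Agent.Helper770.Exist.crossingNumber_attained (HH G e f)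
  obtain ⟨hd, tl, hht⟩ := exists_or V
  have hend : ∀ g, hd g ∈ g ∧ tl g ∈ g := by
    intro g
    have h1 := Sym2.mem_mk_left (hd g) (tl g)
    have h2 := Sym2.mem_mk_right (hd g) (tl g)
    rw [hht] at h1 h2
    exact ⟨h1, h2⟩
  have hmem : ∀ g u, u ∈ g ↔ u = hd g ∨ u = tl g := by
    intro g u
    rw [← Sym2.mem_iff, hht]
  have hnd : ∀ g ∈ G.edgeSet, hd g ≠ tl g := by
    intro g hg h
    have h5 := hht g
    rw [h] at h5
    rw [← h5] at hg
    exact G.loopless.irrefl _ ((SimpleGraph.mem_edgeSet G).1 hg)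
  have hQinj : ∀ v w, Q.pos (some v) = Q.pos (some w) → v = w := fun v w h =>
    Option.some.inj (Q.pos_injective h)
  set U : V → Set ℂ := fun v => Q.arc (arm v) '' Icc (0 : ℝ) 1 with hU
  have hUarc : ∀ v, (v ∈ e ∨ v ∈ f) → IsArc (U v) (Q.pos (some v)) (Q.pos none) := by
    intro v hv
    have hm : arm v ∈ (HH G e f).edgeSet := mem_HH.2 (Or.inr ⟨v, hv, rfl⟩)
    have hadj : (HH G e f).Adj none (some v) := hm
    have h1 := arc_isArc Q hm
    rcases Q.arc_ends _ _ hadj with h | h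
    · have e1 : Q.arc (arm v) 0 = Q.pos none := h.1
      have e2 : Q.arc (arm v) 1 = Q.pos (some v) := h.2
      rw [e1, e2] at h1
      exact IsArc.symm' h1
    · have e1 : Q.arc (arm v) 0 = Q.pos (some v) := h.1
      have e2 : Q.arc (arm v) 1 = Q.pos none := h.2
      rw [e1, e2] at h1
      exact h1
  set R : Sym2 V → Set ℂ := fun g => if g = e then U (hd e) ∪ U (tl e) else
    if g = f then U (hd f) ∪ U (tl f) else Q.arc (toC g) '' Icc (0 : ℝ) 1 with hR
  -- the points of the sets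
  have hRp : ∀ g ∈ G.edgeSet, ∀ z ∈ R g, ∃ h ∈ (HH G e f).edgeSet, prj e f h = g ∧
      z ∈ Q.arc h '' Icc (0 : ℝ) 1 ∧ (∀ v, some v ∈ h → v ∈ g) ∧ (none ∈ h → g = e ∨ g = f) := by
    intro g hg z hz
    have harm : ∀ v w : V, some w ∈ arm v → w = v := by
      intro v w hw
      rw [arm, Sym2.mem_iff] at hw
      rcases hw with hw | hw
      · exact absurd hw (by simp)
      · exact Option.some.inj hw
    by_cases hge : g = e
    · subst hge
      have h1 : R g = U (hd g) ∪ U (tl g) := if_pos rfl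
      rw [h1] at hz
      rcases hz with hz | hz
      · refine ⟨arm (hd g), mem_HH.2 (Or.inr ⟨_, Or.inl (hend g).1, rfl⟩),
          prj_arm_e (hend g).1, hz, fun v hv => ?_, fun _ => Or.inl rfl⟩
        rw [harm _ v hv]
        exact (hend g).1
      · refine ⟨arm (tl g), mem_HH.2 (Or.inr ⟨_, Or.inl (hend g).2, rfl⟩),
          prj_arm_e (hend g).2, hz, fun v hv => ?_, fun _ => Or.inl rfl⟩
        rw [harm _ v hv]
        exact (hend g).2
    · by_cases hgf : g = f
      · subst hgf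
        have h1 : R g = U (hd g) ∪ U (tl g) := by
          show (if g = e then _ else if g = g then _ else _) = _
          rw [if_neg hge, if_pos rfl]
        rw [h1] at hz
        rcases hz with hz | hz
        · refine ⟨arm (hd g), mem_HH.2 (Or.inr ⟨_, Or.inr (hend g).1, rfl⟩),
            prj_arm_f (fun h => hdis _ h (hend g).1), hz, fun v hv => ?_, fun _ => Or.inr rfl⟩
          rw [harm _ v hv]
          exact (hend g).1
        · refine ⟨arm (tl g), mem_HH.2 (Or.inr ⟨_, Or.inr (hend g).2, rfl⟩),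
            prj_arm_f (fun h => hdis _ h (hend g).2), hz, fun v hv => ?_, fun _ => Or.inr rfl⟩
          rw [harm _ v hv]
          exact (hend g).2
      · have h1 : R g = Q.arc (toC g) '' Icc (0 : ℝ) 1 := by
          show (if g = e then _ else if g = f then _ else _) = _
          rw [if_neg hge, if_neg hgf]
        rw [h1] at hz
        refine ⟨toC g, mem_HH.2 (Or.inl ⟨g, hg, hge, hgf, rfl⟩), prj_toC e f g, hz, ?_, ?_⟩
        · intro v hv
          rw [toC, Sym2.mem_map] at hv
          obtain ⟨w, hw, h2⟩ := hv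
          rw [← Option.some.inj h2]
          exact hw
        · intro h2
          rw [toC, Sym2.mem_map] at h2
          obtain ⟨w, _, h3⟩ := h2
          exact absurd h3 (by simp)
  obtain ⟨P, hPp, hPa⟩ := mk (G := G) hd tl (fun g _ => hht g) (fun v => Q.pos (some v))
    (fun v w h => hQinj v w h) R
    (by
      intro g hg
      by_cases hge : g = e
      · subst hge
        have h1 : R g = U (hd g) ∪ U (tl g) := if_pos rfl
        rw [h1]
        exact t_CAT _ _ _ _ _ (fun h => hnd g hg (hQinj _ _ h)) (hUarc _ (Or.inl (hend g).1))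
          (IsArc.symm' (hUarc _ (Or.inl (hend g).2)))
      · by_cases hgf : g = f
        · subst hgf
          have h1 : R g = U (hd g) ∪ U (tl g) := by
            show (if g = e then _ else if g = g then _ else _) = _
            rw [if_neg hge, if_pos rfl]
          rw [h1]
          exact t_CAT _ _ _ _ _ (fun h => hnd g hg (hQinj _ _ h)) (hUarc _ (Or.inr (hend g).1))
            (IsArc.symm' (hUarc _ (Or.inr (hend g).2)))
        · have h1 : R g = Q.arc (toC g) '' Icc (0 : ℝ) 1 := by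
            show (if g = e then _ else if g = f then _ else _) = _
            rw [if_neg hge, if_neg hgf]
          rw [h1]
          have hm : toC g ∈ (HH G e f).edgeSet := mem_HH.2 (Or.inl ⟨g, hg, hge, hgf, rfl⟩)
          have hg2 : toC g = s(some (hd g), some (tl g)) := by
            rw [toC]
            conv_lhs => rw [← hht g]
            rw [Sym2.map_mk]
          have hadj : (HH G e f).Adj (some (hd g)) (some (tl g)) := by
            rw [← SimpleGraph.mem_edgeSet, ← hg2]
            exact hm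
          have h2 := arc_isArc Q hm
          rcases Q.arc_ends _ _ hadj with h | h
          · rw [← hg2] at h
            rw [h.1, h.2] at h2
            exact h2
          · rw [← hg2] at h
            rw [h.1, h.2] at h2
            exact IsArc.symm' h2)
    (by
      intro g hg w hw
      obtain ⟨h, hh, _, h2, h3, _⟩ := hRp g hg _ hw
      exact h3 w (pos_mem_arc Q hh h2))
  -- the crossings
  have hsub : P.crossings ⊆ insert (s(e, f), Q.pos none) (Phi e f '' Q.crossings) := by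
    rintro ⟨q, z⟩ ⟨g, hg, g', hg', hne, h1, h2, h3⟩
    obtain ⟨t, ht, htz⟩ := h2
    obtain ⟨t', ht', htz'⟩ := h3
    have k1 : z ∈ R g := by
      have := hPa g hg t (Ioo_subset_Icc_self ht)
      rwa [htz] at this
    have k2 : z ∈ R g' := by
      have := hPa g' hg' t' (Ioo_subset_Icc_self ht')
      rwa [htz'] at this
    have hzv : ∀ v, z ≠ Q.pos (some v) := by
      intro v hv
      apply P.arc_avoids g hg t ht v
      rw [hPp]
      exact htz.trans hv
    obtain ⟨h, hh, e1, e2, _, e3⟩ := hRp g hg z k1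
    obtain ⟨h', hh', e1', e2', _, e3'⟩ := hRp g' hg' z k2
    by_cases hzn : z = Q.pos none
    · left
      have n1 : none ∈ h := pos_mem_arc Q hh (hzn ▸ e2)
      have n2 : none ∈ h' := pos_mem_arc Q hh' (hzn ▸ e2')
      refine Prod.ext ?_ hzn
      show q = s(e, f)
      have h1' : q = s(g, g') := h1
      rw [h1']
      rcases e3 n1 with rfl | rfl
      · rcases e3' n2 with rfl | rfl
        · exact absurd rfl hne
        · rfl
      · rcases e3' n2 with rfl | rfl
        · exact Sym2.eq_swap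
        · exact absurd rfl hne
    · right
      have i1 : z ∈ Q.arc h '' Ioo (0 : ℝ) 1 := by
        rcases arc_cases Q hh e2 with h4 | ⟨u, _, h4⟩
        · exact h4
        · cases u with
          | none => exact absurd h4 hzn
          | some v => exact absurd h4 (hzv v)
      have i2 : z ∈ Q.arc h' '' Ioo (0 : ℝ) 1 := by
        rcases arc_cases Q hh' e2' with h4 | ⟨u, _, h4⟩
        · exact h4
        · cases u with
          | none => exact absurd h4 hzn
          | some v => exact absurd h4 (hzv v)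
      refine ⟨(s(h, h'), z), ⟨h, hh, h', hh', ?_, rfl, i1, i2⟩, ?_⟩
      · rintro rfl
        exact hne (e1.symm.trans e1')
      · refine Prod.ext ?_ rfl
        show Sym2.map (prj e f) s(h, h') = q
        rw [Sym2.map_mk, e1, e1']
        exact h1.symm
  have hfin : (insert (s(e, f), Q.pos none) (Phi e f '' Q.crossings)).Finite :=
    (hQf.image _).insert _
  have hPf : P.crossings.Finite := hfin.subset hsub
  have h1 := GOOD.cr_le P hPf
  have h2 := Set.ncard_le_ncard hsub hfin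
  have h3 := Set.ncard_insert_le (s(e, f), Q.pos none) (Phi e f '' Q.crossings)
  have h4 := Set.ncard_image_le (f := Phi e f) hQf
  omega

/-- **Two edges of an optimal drawing without triple points cross at most once** -/
theorem simple_of_opt (D : Drawing G) (hDf : D.crossings.Finite)
    (hopt : D.crossings.ncard = crossingNumber G)
    (hNT : ∀ e ∈ G.edgeSet, ∀ f ∈ G.edgeSet, ∀ g ∈ G.edgeSet, e ≠ f → e ≠ g → f ≠ g →
      ∀ z, z ∈ XX D e f → z ∈ XX D e g → False) (e f : Sym2 V) : DX D e f ≤ 1 := by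
  by_contra hcon
  have hD := good_of_opt D hDf hopt
  have h0 : DX D e f ≠ 0 := by omega
  obtain ⟨he, hf, hef⟩ := DX_ne h0
  have hdis := DX_disj hD h0
  rw [DX, if_pos ⟨he, hf, hef⟩, not_le] at hcon
  obtain ⟨x, y, hx, hy, hxy⟩ := (Set.one_lt_ncard_iff
    (((t_CNT V G D).1.1 hDf) e he f hf hef)).1 hcon
  have h1 := split_step D hDf hD hNT he hf hef hdis hx hy hxy
  have h2 := merge_step he hf hef hdis
  omega

end

end Run7.h795
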