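import Pool.Agent.Run7.h795.Nice

/-!
# Slits, subgraphs and one-page edges
-/

set_option autoImplicit false

open Set Classical
open Pool.Agent.Helper770.Crossing Pool.Agent.NH90.CN

namespace Run7.h795

theorem sg_closed (s : Sym2 ℂ) : IsClosed (sg s) := by
  induction s with
  | h a b =>
    rw [T3.sgmk, segment_eq_image]
    exact (isCompact_Icc.image (by fun_prop)).isClosed

/-- a slit at `p` -/
theorem exists_slit (T : Finset (Sym2 ℂ)) (p : ℂ) :
    ∃ d, p ≠ d ∧ ∀ s ∈ T, ∀ z ∈ sg s, z ∈ segment ℝ p d → z = p := by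
  set sl : Sym2 ℂ → ℝ := fun s => ((Quot.out s).2 - (Quot.out s).1).im /
    ((Quot.out s).2 - (Quot.out s).1).re with hsl
  obtain ⟨t, ht⟩ := Infinite.exists_notMem_finset (T.image sl)
  set u : ℂ := ⟨1, t⟩ with hu
  have hC : IsClosed (⋃ s ∈ T.filter (fun s => p ∉ sg s), sg s) :=
    (Finset.finite_toSet _).isClosed_biUnion fun s _ => sg_closed s
  have hp : p ∉ ⋃ s ∈ T.filter (fun s => p ∉ sg s), sg s := by
    rw [mem_iUnion₂]
    rintro ⟨s, hs, hps⟩
    exact (Finset.mem_filter.1 hs).2 hps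
  obtain ⟨ε, hε, hball⟩ := Metric.isOpen_iff.1 hC.isOpen_compl p hp
  have hun : 0 < 1 + ‖u‖ := by positivity
  set c : ℝ := ε / (1 + ‖u‖) with hc
  have hc0 : 0 < c := by positivity
  have hcu : c * ‖u‖ < ε := by
    have h1 : c * (1 + ‖u‖) = ε := by rw [hc]; field_simp
    nlinarith
  refine ⟨p + (c : ℂ) * u, ?_, ?_⟩
  · intro h
    have h1 : (c : ℂ) * u = 0 := by linear_combination -h
    have h2 := congrArg Complex.re h1
    rw [Complex.re_ofReal_mul] at h2
    simp [hu] at h2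
    exact hc0.ne' h2
  · intro s hs z hz hz'
    rw [T3.mem_seg] at hz'
    obtain ⟨τ, hτ0, hτ1, hzτ⟩ := hz'
    have hzp : z - p = ((τ * c : ℝ) : ℂ) * u := by
      rw [hzτ]
      push_cast
      ring
    by_cases hps : p ∈ sg s
    · have hs2 : s = s((Quot.out s).1, (Quot.out s).2) := (Quot.out_eq s).symm
      set a := (Quot.out s).1
      set b := (Quot.out s).2
      rw [hs2, T3.sgmk, T3.mem_seg] at hz hps
      obtain ⟨lz, _, _, e1⟩ := hz
      obtain ⟨lp, _, _, e2⟩ := hps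
      have e3 : ((τ * c : ℝ) : ℂ) * u = ((lz - lp : ℝ) : ℂ) * (b - a) := by
        rw [← hzp]
        push_cast
        linear_combination e1 - e2
      have r1 := congrArg Complex.re e3
      have r2 := congrArg Complex.im e3
      rw [Complex.re_ofReal_mul, Complex.re_ofReal_mul] at r1
      rw [Complex.im_ofReal_mul, Complex.im_ofReal_mul] at r2
      have u1 : u.re = 1 := rfl
      have u2 : u.im = t := rfl
      rw [u1, mul_one] at r1
      rw [u2] at r2
      by_cases hτc : τ * c = 0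
      · rw [hτc] at hzp
        have : z - p = 0 := by rw [hzp]; simp
        exact sub_eq_zero.1 this
      · exfalso
        have h1 : lz - lp ≠ 0 := by
          intro h
          rw [h, zero_mul] at r1
          exact hτc r1
        have h2 : (b - a).re ≠ 0 := by
          intro h
          rw [h, mul_zero] at r1
          exact hτc r1
        apply ht
        rw [Finset.mem_image]
        refine ⟨s, hs, ?_⟩
        show (b - a).im / (b - a).re = t
        rw [div_eq_iff h2]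
        rw [r1] at r2
        have h3 : (lz - lp) * ((b - a).im - t * (b - a).re) = 0 := by linarith
        rcases mul_eq_zero.1 h3 with h4 | h4
        · exact absurd h4 h1
        · linarith
    · exfalso
      have h1 : z ∈ Metric.ball p ε := by
        rw [Metric.mem_ball, dist_eq_norm, hzp, norm_mul, Complex.norm_real,
          Real.norm_of_nonneg (by positivity)]
        have h2 : τ * c * ‖u‖ ≤ c * ‖u‖ := by
          have : 0 ≤ c * ‖u‖ := by positivity
          nlinarith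
        linarith
      apply hball h1
      rw [mem_iUnion₂]
      exact ⟨s, Finset.mem_filter.2 ⟨hs, hps⟩, hz⟩

/-- the subgraph of the edges with the property `Q` -/
def sub {V : Type} (G : SimpleGraph V) (Q : Sym2 V → Prop) : SimpleGraph V :=
  SimpleGraph.fromEdgeSet {e | e ∈ G.edgeSet ∧ Q e}

theorem mem_sub {V : Type} {G : SimpleGraph V} {Q : Sym2 V → Prop} {e : Sym2 V} :
    e ∈ (sub G Q).edgeSet ↔ e ∈ G.edgeSet ∧ Q e := by
  unfold sub
  rw [SimpleGraph.edgeSet_fromEdgeSet]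
  constructor
  · exact fun h => h.1
  · exact fun h => ⟨h, G.not_isDiag_of_mem_edgeSet h.1⟩

theorem sub_le {V : Type} (G : SimpleGraph V) (Q : Sym2 V → Prop) : sub G Q ≤ G := by
  rw [← SimpleGraph.edgeSet_subset_edgeSet]
  exact fun e he => (mem_sub.1 he).1

theorem sub_sup {V : Type} (G : SimpleGraph V) (Q : Sym2 V → Prop) :
    sub G Q ⊔ sub G (fun e => ¬ Q e) = G := by
  rw [← SimpleGraph.edgeSet_inj, SimpleGraph.edgeSet_sup]
  ext e
  rw [mem_union, mem_sub, mem_sub]
  tauto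

theorem sub_disj {V : Type} (G : SimpleGraph V) (Q : Sym2 V → Prop) :
    Disjoint (sub G Q) (sub G (fun e => ¬ Q e)) := by
  rw [← SimpleGraph.disjoint_edgeSet, Set.disjoint_left]
  intro e he he'
  exact (mem_sub.1 he').2 (mem_sub.1 he).2

theorem bip_le {V : Type} (G : SimpleGraph V) (Q : Sym2 V → Prop) :
    biplanarCrossingNumber G ≤
      crossingNumber (sub G Q) + crossingNumber (sub G (fun e => ¬ Q e)) :=
  Nat.sInf_le ⟨_, _, sub_sup G Q, sub_disj G Q, rfl⟩

/-- orientation of the arcs -/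
theorem exists_orient {V : Type} {G : SimpleGraph V} (D : Drawing G) :
    ∃ hd tl : Sym2 V → V, ∀ e ∈ G.edgeSet, s(hd e, tl e) = e ∧ D.arc e 0 = D.pos (hd e) ∧
      D.arc e 1 = D.pos (tl e) := by
  have h : ∀ e : Sym2 V, ∃ p : V × V, e ∈ G.edgeSet → s(p.1, p.2) = e ∧
      D.arc e 0 = D.pos p.1 ∧ D.arc e 1 = D.pos p.2 := by
    intro e
    induction e with
    | h a b =>
      by_cases he : s(a, b) ∈ G.edgeSet
      · rcases D.arc_ends a b he with h | h
        · exact ⟨(a, b), fun _ => ⟨rfl, h⟩⟩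
        · exact ⟨(b, a), fun _ => ⟨Sym2.eq_swap, h⟩⟩
      · exact ⟨(a, b), fun h => absurd h he⟩
  choose p hp using h
  exact ⟨fun e => (p e).1, fun e => (p e).2, hp⟩

/-- every edge on one page -/
theorem onepage {V : Type} [Fintype V] {G G₁ : SimpleGraph V} (hG : G₁ ≤ G) (D : Drawing G)
    (hfin : D.crossings.Finite)
    {K Γ : Set ℂ} {Θ : Bool → ℂ → ℂ} (hP : Page K Γ Θ)
    (hK : ∀ e ∈ G.edgeSet, D.arc e '' Icc (0 : ℝ) 1 ⊆ K) (hKp : ∀ v, D.pos v ∈ K)
    (hΓ1 : ∀ u v, D.pos u ∈ Γ → D.pos v ∈ Γ → u = v)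
    (hΓ2 : ∀ e ∈ G.edgeSet, ∀ z ∈ D.arc e '' Icc (0 : ℝ) 1, z ∈ Γ → ∃ u ∈ e, z = D.pos u)
    (σ : V → Bool) (pg : Sym2 V → Bool)
    (hpg : ∀ e ∈ G₁.edgeSet, ∀ u ∈ e, D.pos u ∉ Γ → σ u = pg e) :
    ∃ P : Drawing G₁, P.crossings.Finite ∧ ∀ e ∈ G₁.edgeSet, ∀ f ∈ G₁.edgeSet, e ≠ f →
      DX P e f ≤ if pg e = pg f then DX D e f else 0 := by
  obtain ⟨hd, tl, hht⟩ := exists_orient D
  have hE : ∀ e ∈ G₁.edgeSet, e ∈ G.edgeSet := fun e he => SimpleGraph.edgeSet_mono hG he
  have hX := (t_CNT V G D).1.1 hfin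
  obtain ⟨P, hPf, hPX⟩ := glueDX hG D hfin hd tl (fun e he => (hht e he).1) hP hK hKp hΓ1
    (by
      rintro e he u hu ⟨z, hz1, hz2⟩
      obtain ⟨w, hw, rfl⟩ := hΓ2 e (hE e he) z hz1 hz2
      rw [hΓ1 u w hu hz2]
      exact hw)
    σ (fun e i => if pg e = i then D.arc e '' Icc (0 : ℝ) 1 else ∅)
    (by
      intro e he i
      split_ifs
      · exact le_rfl
      · exact empty_subset _)
    (by
      intro e he i u hu hz hΓ
      split_ifs at hz with h
      · rw [hpg e he u hu hΓ, h]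
      · exact hz.elim)
    (by
      intro e he
      obtain ⟨h1, h2, h3⟩ := hht e (hE e he)
      have hpos : ∀ u ∈ e, Θ (pg e) (D.pos u) = Θ (σ u) (D.pos u) := by
        intro u hu
        by_cases h4 : D.pos u ∈ Γ
        · rw [hP.zero _ _ (hKp u) h4, hP.zero _ _ (hKp u) h4]
        · rw [hpg e he u hu h4]
      have hKa : ∀ t ∈ Icc (0 : ℝ) 1, D.arc e t ∈ K := fun t ht =>
        hK e (hE e he) (mem_image_of_mem _ ht)
      refine ⟨fun t => Θ (pg e) (D.arc e t), ?_, ?_, ?_, ?_, ?_⟩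
      · exact (hP.cont _).comp (D.arc_continuousOn e (hE e he)) hKa
      · intro t ht t' ht' h
        apply D.arc_injOn e (hE e he) ht ht'
        rcases hP.eq (hKa t ht) (hKa t' ht') h with h4 | h4
        · obtain ⟨u, hu, e1⟩ := hΓ2 e (hE e he) _ (mem_image_of_mem _ ht) h4.1
          obtain ⟨w, hw, e2⟩ := hΓ2 e (hE e he) _ (mem_image_of_mem _ ht') h4.2.1
          rw [e1, e2]
          rw [hΓ1 u w (e1 ▸ h4.1) (e2 ▸ h4.2.1)]
        · exact h4.2.1
      · show Θ (pg e) (D.arc e 0) = _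
        rw [h2]
        refine hpos _ ?_
        rw [← h1, Sym2.mem_iff]
        left
        rw [h1]
      · show Θ (pg e) (D.arc e 1) = _
        rw [h3]
        refine hpos _ ?_
        rw [← h1, Sym2.mem_iff]
        right
        rw [h1]
      · intro t ht
        rw [mem_iUnion]
        refine ⟨pg e, D.arc e t, ?_, rfl⟩
        rw [if_pos rfl]
        exact mem_image_of_mem _ ht)
  refine ⟨P, hPf, fun e he f hf hef => (hPX e he f hf hef).trans ?_⟩
  have hno : ¬ ((D.arc e '' Icc (0 : ℝ) 1 ∩ Γ).Nonempty ∧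
      (D.arc f '' Icc (0 : ℝ) 1 ∩ Γ).Nonempty ∧ ∀ u, D.pos u ∉ Γ) := by
    rintro ⟨⟨z, hz1, hz2⟩, _, h⟩
    obtain ⟨u, _, rfl⟩ := hΓ2 e (hE e he) z hz1 hz2
    exact h u hz2
  rw [if_neg hno, add_zero]
  have hXf : (XX D e f).Finite := hX e (hE e he) f (hE f hf) hef
  have hDX : DX D e f = (XX D e f).ncard := if_pos ⟨hE e he, hE f hf, hef⟩
  have hemp : ∀ i, i ≠ pg e ∨ i ≠ pg f →
      (XX D e f ∩ (if pg e = i then D.arc e '' Icc (0 : ℝ) 1 else ∅) ∩
        (if pg f = i then D.arc f '' Icc (0 : ℝ) 1 else ∅) ∩ Γᶜ).ncard = 0 := by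
    intro i hi
    rcases hi with h | h
    · rw [if_neg (Ne.symm h)]
      simp
    · rw [if_neg (Ne.symm h)]
      simp
  split_ifs with hpp
  · rw [Finset.sum_eq_single (pg e)]
    · rw [hDX]
      exact ncard_le_ncard (fun z hz => hz.1.1.1) hXf
    · intro i _ hi
      exact hemp i (Or.inl hi)
    · intro h
      exact absurd (Finset.mem_univ _) h
  · rw [Finset.sum_eq_zero]
    intro i _
    apply hemp
    by_cases h : i = pg e
    · right
      rw [h]
      exact hpp
    · exact Or.inl h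

end Run7.h795
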