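import Pool.Agent.Run7.h795.Vertex

/-!
# Local changes of a random labeling
-/

set_option autoImplicit false

open Set Classical
open Pool.Agent.Helper770.Crossing Pool.Agent.NH90.CN

namespace Run7.h795

/-- the two-plane scheme for one labeling -/
theorem base_scheme {V : Type} [Fintype V] {G : SimpleGraph V} (D : Drawing G)
    (hDf : D.crossings.Finite) (hd tl : Sym2 V → V) (hht : ∀ e, s(hd e, tl e) = e)
    (σ : V → Bool) :
    2 * biplanarCrossingNumber G ≤ ∑ e : Sym2 V, ∑ f : Sym2 V,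
      ((if σ (hd e) = σ (tl e) ∧ σ (hd f) = σ (tl f) ∧ σ (hd e) = σ (hd f)
        then DX D e f else 0) +
      (if σ (hd e) ≠ σ (tl e) ∧ σ (hd f) ≠ σ (tl f) then DX D e f else 0)) := by
  have hmem : ∀ e u, u ∈ e ↔ u = hd e ∨ u = tl e := by
    intro e u
    rw [← Sym2.mem_iff, hht]
  set K : Set ℂ := (⋃ e ∈ {e | e ∈ G.edgeSet}, D.arc e '' Icc (0 : ℝ) 1) ∪ range D.pos with hK
  have hKc : IsCompact K :=
    ((toFinite {e | e ∈ G.edgeSet}).isCompact_biUnion fun e he =>
      isCompact_Icc.image_of_continuousOn (D.arc_continuousOn _ he)).union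
      (finite_range _).isCompact
  obtain ⟨R, hR⟩ := hKc.isBounded.exists_norm_le
  have hPage := page_empty (K := K) hR
  have hKa : ∀ e ∈ G.edgeSet, D.arc e '' Icc (0 : ℝ) 1 ⊆ K := by
    intro e he z hz
    exact Or.inl (mem_iUnion₂.2 ⟨e, he, hz⟩)
  have hKp : ∀ v, D.pos v ∈ K := fun v => Or.inr ⟨v, rfl⟩
  obtain ⟨P, hPf, hPX⟩ := onepage (sub_le G (fun e => σ (hd e) = σ (tl e))) D hDf hPage hKa hKp
    (fun u w hu _ => hu.elim) (fun e _ z _ hz => hz.elim) σ (fun e => σ (hd e))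
    (by
      intro e he u hu _
      rcases (hmem e u).1 hu with rfl | rfl
      · rfl
      · exact (mem_sub.1 he).2.symm)
  obtain ⟨P', hPf', hPX'⟩ := restr (sub_le G (fun e => ¬ (σ (hd e) = σ (tl e)))) D hDf
  have h1 := two_cr P hPf (F := fun e f => if σ (hd e) = σ (tl e) ∧ σ (hd f) = σ (tl f) ∧
      σ (hd e) = σ (hd f) then DX D e f else 0) (by
    intro e he f hf hef
    have h2 := hPX e he f hf hef
    by_cases h4 : σ (hd e) = σ (hd f)
    · rw [if_pos h4] at h2
      rw [if_pos ⟨(mem_sub.1 he).2, (mem_sub.1 hf).2, h4⟩]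
      exact h2
    · rw [if_neg h4] at h2
      omega)
  have h2 := two_cr P' hPf' (F := fun e f => if σ (hd e) ≠ σ (tl e) ∧ σ (hd f) ≠ σ (tl f)
      then DX D e f else 0) (by
    intro e he f hf hef
    rw [if_pos ⟨(mem_sub.1 he).2, (mem_sub.1 hf).2⟩]
    exact hPX' e he f hf hef)
  have h3 := bip_le G (fun e => σ (hd e) = σ (tl e))
  simp only [Finset.sum_add_distrib]
  omega

section sep

variable {V : Type} [Fintype V]

/-- the change under a flip -/
noncomputable def dif (a : V) (F : (V → Bool) → ℤ) (σ : V → Bool) : ℤ := F (flp a σ) - F σ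

omit [Fintype V] in
theorem flp_comm (a b : V) (σ : V → Bool) : flp a (flp b σ) = flp b (flp a σ) := by
  funext u
  by_cases hab : a = b
  · rw [hab]
  by_cases h1 : u = a
  · subst h1
    rw [flp_self, flp_ne hab, flp_ne hab, flp_self]
  · by_cases h2 : u = b
    · subst h2
      rw [flp_ne h1, flp_self, flp_self, flp_ne h1]
    · rw [flp_ne h1, flp_ne h2, flp_ne h2, flp_ne h1]

theorem sum_flpZ (b : V) (F : (V → Bool) → ℤ) : ∑ σ, F (flp b σ) = ∑ σ, F σ :=
  Equiv.sum_comp (Function.Involutive.toPerm (flp b) (flp_flp b)) F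

/-- flipping the vertices of an independent set to their better sides -/
theorem separable (I : Finset V) : ∀ F : (V → Bool) → ℤ,
    (∀ a ∈ I, ∀ b ∈ I, a ≠ b → ∀ σ, dif a F (flp b σ) = dif a F σ) →
    ∃ H : (V → Bool) → ℤ, (∀ σ, ∃ σ', H σ = F σ') ∧
      2 * ∑ σ, H σ ≤ 2 * ∑ σ, F σ - ∑ a ∈ I, ∑ σ, |dif a F σ| := by
  induction I using Finset.induction_on with
  | empty =>
    intro F _
    exact ⟨F, fun σ => ⟨σ, rfl⟩, by simp⟩
  | insert a I ha ih =>
    intro F hF
    set F1 : (V → Bool) → ℤ := fun σ => min (F σ) (F (flp a σ)) with hF1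
    have hne : ∀ b ∈ I, b ≠ a := fun b hb h => ha (h ▸ hb)
    have hd : ∀ b ∈ I, ∀ σ, dif b F1 σ = dif b F σ := by
      intro b hb σ
      have h1 := hF b (Finset.mem_insert_of_mem hb) a (Finset.mem_insert_self _ _) (hne b hb) σ
      unfold dif at h1 ⊢
      rw [hF1]
      dsimp only
      rw [flp_comm a b]
      rw [show F (flp b σ) = F σ + (F (flp b σ) - F σ) by ring,
        show F (flp b (flp a σ)) = F (flp a σ) + (F (flp b σ) - F σ) by linarith,
        min_add_add_right]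
      ring
    obtain ⟨H, h1, h2⟩ := ih F1 (by
      intro b hb c hc hbc σ
      rw [hd b hb, hd b hb]
      exact hF b (Finset.mem_insert_of_mem hb) c (Finset.mem_insert_of_mem hc) hbc σ)
    refine ⟨H, ?_, ?_⟩
    · intro σ
      obtain ⟨σ', h3⟩ := h1 σ
      rw [hF1] at h3
      rcases le_total (F σ') (F (flp a σ')) with h4 | h4
      · exact ⟨σ', h3.trans (min_eq_left h4)⟩
      · exact ⟨flp a σ', h3.trans (min_eq_right h4)⟩
    · rw [Finset.sum_insert ha]
      have h3 : ∑ b ∈ I, ∑ σ, |dif b F1 σ| = ∑ b ∈ I, ∑ σ, |dif b F σ| :=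
        Finset.sum_congr rfl fun b hb => Finset.sum_congr rfl fun σ _ => by rw [hd b hb]
      rw [h3] at h2
      have h4 : 2 * ∑ σ, F1 σ = 2 * ∑ σ, F σ - ∑ σ, |dif a F σ| := by
        have h5 : ∑ σ, (2 * F1 σ) = ∑ σ, (F σ + F (flp a σ) - |dif a F σ|) := by
          refine Finset.sum_congr rfl fun σ _ => ?_
          rw [hF1]
          unfold dif
          dsimp only
          rcases le_total (F σ) (F (flp a σ)) with h6 | h6
          · rw [min_eq_left h6, abs_of_nonneg (by linarith)]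
            ring
          · rw [min_eq_right h6, abs_of_nonpos (by linarith)]
            ring
        rw [← Finset.mul_sum, Finset.sum_sub_distrib, Finset.sum_add_distrib, sum_flpZ] at h5
        linarith
      linarith

end sep

section fourier

variable {V : Type} [Fintype V] {G : SimpleGraph V}

/-- the sign of a label -/
def sgn (b : Bool) : ℤ := if b then 1 else -1

theorem sgn_not (b : Bool) : sgn (!b) = - sgn b := by cases b <;> simp [sgn]

/-- the character of a set of vertices -/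
noncomputable def chi (A : Finset V) (σ : V → Bool) : ℤ := ∏ x ∈ A, sgn (σ x)

omit [Fintype V] in
theorem chi_flp_mem {A : Finset V} {a : V} (ha : a ∈ A) (σ : V → Bool) :
    chi A (flp a σ) = - chi A σ := by
  unfold chi
  rw [← Finset.mul_prod_erase A _ ha, ← Finset.mul_prod_erase A (fun x => sgn (σ x)) ha,
    flp_self, sgn_not]
  have : ∏ x ∈ A.erase a, sgn (flp a σ x) = ∏ x ∈ A.erase a, sgn (σ x) :=
    Finset.prod_congr rfl fun x hx => by rw [flp_ne (Finset.ne_of_mem_erase hx)]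
  rw [this]
  ring

omit [Fintype V] in
theorem chi_abs (A : Finset V) (σ : V → Bool) : |chi A σ| = 1 := by
  unfold chi
  rw [Finset.abs_prod]
  refine Finset.prod_eq_one fun x _ => ?_
  cases σ x <;> simp [sgn]

/-- the contribution of a pair of edges -/
noncomputable def term (D : Drawing G) (hd tl : Sym2 V → V) (e f : Sym2 V) (σ : V → Bool) : ℕ :=
  (if σ (hd e) = σ (tl e) ∧ σ (hd f) = σ (tl f) ∧ σ (hd e) = σ (hd f) then DX D e f else 0) +
    (if σ (hd e) ≠ σ (tl e) ∧ σ (hd f) ≠ σ (tl f) then DX D e f else 0)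

omit [Fintype V] in
theorem term_flp (D : Drawing G) {hd tl : Sym2 V → V} (hht : ∀ e, s(hd e, tl e) = e)
    {e f : Sym2 V} {x : V} (h1 : x ∉ e) (h2 : x ∉ f) (σ : V → Bool) :
    term D hd tl e f (flp x σ) = term D hd tl e f σ := by
  have hmem : ∀ e u, u ∈ e ↔ u = hd e ∨ u = tl e := by
    intro e u
    rw [← Sym2.mem_iff, hht]
  rw [hmem, not_or] at h1 h2
  unfold term
  rw [flp_ne (Ne.symm h1.1), flp_ne (Ne.symm h1.2), flp_ne (Ne.symm h2.1),
    flp_ne (Ne.symm h2.2)]

/-- the end-vertices of two edges -/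
noncomputable def E4 (hd tl : Sym2 V → V) (e f : Sym2 V) : Finset V := {hd e, tl e, hd f, tl f}

omit [Fintype V] in
theorem E4_card {D : Drawing G} (hD : Good D) {hd tl : Sym2 V → V}
    (hht : ∀ e, s(hd e, tl e) = e) {e f : Sym2 V} (h0 : DX D e f ≠ 0) :
    (E4 hd tl e f).card = 4 := by
  obtain ⟨_, _, _, _, n1, n2, n3, n4, n5, n6⟩ := ends4 hD hht h0
  unfold E4
  rw [Finset.card_insert_of_notMem, Finset.card_insert_of_notMem, Finset.card_pair n2]
  · simp [n5, n6]
  · simp [n1, n3, n4]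

omit [Fintype V] in
theorem mem_E4 {hd tl : Sym2 V → V} (hht : ∀ e, s(hd e, tl e) = e) {e f : Sym2 V} {x : V} :
    x ∈ E4 hd tl e f ↔ x ∈ e ∨ x ∈ f := by
  have hmem : ∀ e u, u ∈ e ↔ u = hd e ∨ u = tl e := by
    intro e u
    rw [← Sym2.mem_iff, hht]
  rw [hmem, hmem]
  simp [E4, or_assoc]

/-- the average of a term -/
theorem term_avg {D : Drawing G} (hD : Good D) {hd tl : Sym2 V → V}
    (hht : ∀ e, s(hd e, tl e) = e) (e f : Sym2 V) :
    8 * ∑ σ : V → Bool, term D hd tl e f σ = 3 * (NN V * DX D e f) := by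
  by_cases h0 : DX D e f = 0
  · unfold term
    rw [h0]
    simp
  · obtain ⟨_, _, _, _, n1, n2, n3, n4, n5, n6⟩ := ends4 hD hht h0
    unfold term
    rw [Finset.sum_add_distrib,
      sum_ite_mul (fun σ : V → Bool => σ (hd e) = σ (tl e) ∧ σ (hd f) = σ (tl f) ∧
        σ (hd e) = σ (hd f)),
      sum_ite_mul (fun σ : V → Bool => σ (hd e) ≠ σ (tl e) ∧ σ (hd f) ≠ σ (tl f))]
    have e1 := pr_four n1 n3 n4 n5 n6 n2
    have e2 := pr_ne n1 n3 n4 n2
    generalize (∑ σ : V → Bool, (if σ (hd e) = σ (tl e) ∧ σ (hd f) = σ (tl f) ∧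
      σ (hd e) = σ (hd f) then 1 else 0)) = X at e1 ⊢
    generalize (∑ σ : V → Bool, (if σ (hd e) ≠ σ (tl e) ∧ σ (hd f) ≠ σ (tl f) then 1 else 0)) = Y
      at e2 ⊢
    rw [← e1] at e2
    have e3 : Y = 2 * X := by omega
    rw [e3, ← e1]
    ring

/-- the Fourier coefficient of a term -/
theorem term_chi {D : Drawing G} (hD : Good D) {hd tl : Sym2 V → V}
    (hht : ∀ e, s(hd e, tl e) = e) (e f : Sym2 V) {A : Finset V} (hA : A.card = 4) :
    8 * ∑ σ : V → Bool, (term D hd tl e f σ : ℤ) * chi A σ =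
      if A = E4 hd tl e f then ((3 * (NN V * DX D e f) : ℕ) : ℤ) else 0 := by
  by_cases h0 : DX D e f = 0
  · have h1 : ∀ σ, term D hd tl e f σ = 0 := by
      intro σ
      unfold term
      rw [h0]
      simp
    simp [h1, h0]
  · split_ifs with hAE
    · rw [← term_avg hD hht]
      push_cast
      congr 1
      refine Finset.sum_congr rfl fun σ _ => ?_
      by_cases h1 : term D hd tl e f σ = 0
      · rw [h1]
        simp
      · obtain ⟨_, _, _, _, n1, n2, n3, n4, n5, n6⟩ := ends4 hD hht h0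
        have h2 : chi A σ = sgn (σ (hd e)) * (sgn (σ (tl e)) * (sgn (σ (hd f)) *
            sgn (σ (tl f)))) := by
          unfold chi
          rw [hAE]
          unfold E4
          rw [Finset.prod_insert, Finset.prod_insert, Finset.prod_pair n2]
          · simp [n5, n6]
          · simp [n1, n3, n4]
        rw [h2]
        unfold term at h1 ⊢
        cases ha : σ (hd e) <;> cases hb : σ (tl e) <;> cases hc : σ (hd f) <;>
          cases hd' : σ (tl f) <;> simp [ha, hb, hc, hd', sgn] at h1 ⊢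
    · have h1 : ∃ x ∈ A, x ∉ E4 hd tl e f := by
        by_contra hcon
        push Not at hcon
        exact hAE (Finset.eq_of_subset_of_card_le hcon (by rw [hA, E4_card hD hht h0]))
      obtain ⟨x, hx, hx'⟩ := h1
      rw [mem_E4 hht, not_or] at hx'
      have h2 : ∑ σ : V → Bool, (term D hd tl e f σ : ℤ) * chi A σ =
          - ∑ σ : V → Bool, (term D hd tl e f σ : ℤ) * chi A σ := by
        conv_lhs => rw [← sum_flpZ x]
        rw [← Finset.sum_neg_distrib]
        refine Finset.sum_congr rfl fun σ _ => ?_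
        rw [term_flp D hht hx'.1 hx'.2, chi_flp_mem hx]
        ring
      have h3 : ∑ σ : V → Bool, (term D hd tl e f σ : ℤ) * chi A σ = 0 := by linarith
      rw [h3, mul_zero]

/-- the total number of crossings for a labeling -/
noncomputable def FF (D : Drawing G) (hd tl : Sym2 V → V) (σ : V → Bool) : ℤ :=
  ∑ e : Sym2 V, ∑ f : Sym2 V, (term D hd tl e f σ : ℤ)

theorem FF_avg {D : Drawing G} (hDf : D.crossings.Finite) (hD : Good D) {hd tl : Sym2 V → V}
    (hht : ∀ e, s(hd e, tl e) = e) :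
    8 * ∑ σ : V → Bool, FF D hd tl σ = 6 * (NN V * D.crossings.ncard : ℤ) := by
  have h1 := (t_CNT V G D).2 hDf
  have h2 : 8 * ∑ σ : V → Bool, ∑ e : Sym2 V, ∑ f : Sym2 V, term D hd tl e f σ =
      3 * (NN V * (2 * D.crossings.ncard)) := by
    rw [h1, Finset.sum_comm, Finset.mul_sum, Finset.mul_sum, Finset.mul_sum]
    refine Finset.sum_congr rfl fun e _ => ?_
    rw [Finset.sum_comm, Finset.mul_sum, Finset.mul_sum, Finset.mul_sum]
    exact Finset.sum_congr rfl fun f _ => term_avg hD hht e f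
  unfold FF
  have h3 := congrArg (fun n : ℕ => (n : ℤ)) h2
  push_cast at h3
  rw [h3]
  ring

theorem dif_FF {D : Drawing G} {hd tl : Sym2 V → V}
    (hht : ∀ e, s(hd e, tl e) = e) {a b : V}
    (hab : ∀ e f, DX D e f ≠ 0 → (a ∈ e ∨ a ∈ f) → b ∉ e ∧ b ∉ f) (σ : V → Bool) :
    dif a (FF D hd tl) (flp b σ) = dif a (FF D hd tl) σ := by
  unfold dif FF
  rw [← Finset.sum_sub_distrib, ← Finset.sum_sub_distrib]
  refine Finset.sum_congr rfl fun e _ => ?_
  rw [← Finset.sum_sub_distrib, ← Finset.sum_sub_distrib]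
  refine Finset.sum_congr rfl fun f _ => ?_
  by_cases h0 : DX D e f = 0
  · have h1 : ∀ σ, term D hd tl e f σ = 0 := by
      intro σ
      unfold term
      rw [h0]
      simp
    simp [h1]
  · by_cases ha : a ∈ e ∨ a ∈ f
    · obtain ⟨h1, h2⟩ := hab e f h0 ha
      rw [flp_comm a b, term_flp D hht h1 h2, term_flp D hht h1 h2]
    · rw [not_or] at ha
      rw [term_flp D hht ha.1 ha.2, term_flp D hht ha.1 ha.2]
      ring

/-- every vertex of a crossed edge has influence -/
theorem dif_big {D : Drawing G} (hD : Good D) {hd tl : Sym2 V → V}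
    (hht : ∀ e, s(hd e, tl e) = e) {a : V} {e₀ f₀ : Sym2 V} (h0 : DX D e₀ f₀ ≠ 0)
    (ha : a ∈ e₀) : 3 * (NN V : ℤ) ≤ 2 * ∑ σ : V → Bool, |dif a (FF D hd tl) σ| := by
  set A := E4 hd tl e₀ f₀ with hA
  have hA4 : A.card = 4 := E4_card hD hht h0
  have haA : a ∈ A := (mem_E4 hht).2 (Or.inl ha)
  set Z := ∑ σ : V → Bool, FF D hd tl σ * chi A σ with hZ
  -- the Fourier coefficient of the sum
  have h1 : 6 * (NN V : ℤ) ≤ 8 * Z := by
    have h2 : 8 * Z = ∑ e : Sym2 V, ∑ f : Sym2 V,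
        if A = E4 hd tl e f then ((3 * (NN V * DX D e f) : ℕ) : ℤ) else 0 := by
      rw [hZ]
      unfold FF
      have h3 : ∀ σ : V → Bool, (∑ e : Sym2 V, ∑ f : Sym2 V, (term D hd tl e f σ : ℤ)) * chi A σ =
          ∑ e : Sym2 V, ∑ f : Sym2 V, (term D hd tl e f σ : ℤ) * chi A σ := by
        intro σ
        rw [Finset.sum_mul]
        refine Finset.sum_congr rfl fun e _ => ?_
        rw [Finset.sum_mul]
      rw [Finset.sum_congr rfl fun σ _ => h3 σ, Finset.sum_comm, Finset.mul_sum]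
      refine Finset.sum_congr rfl fun e _ => ?_
      rw [Finset.sum_comm, Finset.mul_sum]
      exact Finset.sum_congr rfl fun f _ => term_chi hD hht e f hA4
    have hnn : ∀ e f : Sym2 V,
        0 ≤ if A = E4 hd tl e f then ((3 * (NN V * DX D e f) : ℕ) : ℤ) else 0 := by
      intro e f
      split_ifs
      · exact Int.natCast_nonneg _
      · exact le_rfl
    have hne : e₀ ≠ f₀ := (DX_ne h0).2.2
    have h4 : ∀ e f : Sym2 V, (if A = E4 hd tl e f then ((3 * (NN V * DX D e f) : ℕ) : ℤ) else 0)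
        ≤ ∑ f : Sym2 V, if A = E4 hd tl e f then ((3 * (NN V * DX D e f) : ℕ) : ℤ) else 0 :=
      fun e f => Finset.single_le_sum (f := fun f => if A = E4 hd tl e f then
        ((3 * (NN V * DX D e f) : ℕ) : ℤ) else 0) (fun f _ => hnn e f) (Finset.mem_univ f)
    have h5 : (∑ f : Sym2 V, if A = E4 hd tl e₀ f then ((3 * (NN V * DX D e₀ f) : ℕ) : ℤ) else 0) +
        (∑ f : Sym2 V, if A = E4 hd tl f₀ f then ((3 * (NN V * DX D f₀ f) : ℕ) : ℤ) else 0) ≤
        8 * Z := by
      rw [h2]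
      rw [← Finset.sum_pair (f := fun e => ∑ f : Sym2 V, if A = E4 hd tl e f then
        ((3 * (NN V * DX D e f) : ℕ) : ℤ) else 0) hne]
      exact Finset.sum_le_sum_of_subset_of_nonneg (Finset.subset_univ _)
        fun e _ _ => Finset.sum_nonneg fun f _ => hnn e f
    have h6 := h4 e₀ f₀
    have h7 := h4 f₀ e₀
    have h8 : A = E4 hd tl f₀ e₀ := by
      rw [hA]
      ext x
      rw [mem_E4 hht, mem_E4 hht, or_comm]
    rw [if_pos rfl] at h6
    rw [if_pos h8, DX_symm D f₀ e₀] at h7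
    have h9 : (NN V : ℤ) ≤ ((NN V * DX D e₀ f₀ : ℕ) : ℤ) := by
      have : NN V * 1 ≤ NN V * DX D e₀ f₀ := Nat.mul_le_mul_left _ (Nat.one_le_iff_ne_zero.2 h0)
      rw [mul_one] at this
      exact_mod_cast this
    push_cast at h5 h6 h7 h9
    linarith
  -- flipping `a`
  have h2 : ∑ σ : V → Bool, dif a (FF D hd tl) σ * chi A σ = -(2 * Z) := by
    unfold dif
    simp only [sub_mul]
    rw [Finset.sum_sub_distrib]
    have h3 : ∑ σ : V → Bool, FF D hd tl (flp a σ) * chi A σ = - Z := by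
      rw [← sum_flpZ a, hZ, ← Finset.sum_neg_distrib]
      refine Finset.sum_congr rfl fun σ _ => ?_
      rw [flp_flp, chi_flp_mem haA]
      ring
    rw [h3]
    ring
  have h3 : |∑ σ : V → Bool, dif a (FF D hd tl) σ * chi A σ| ≤
      ∑ σ : V → Bool, |dif a (FF D hd tl) σ| := by
    refine (Finset.abs_sum_le_sum_abs _ _).trans (le_of_eq ?_)
    refine Finset.sum_congr rfl fun σ _ => ?_
    rw [abs_mul, chi_abs, mul_one]
  rw [h2, abs_neg] at h3
  have h4 := le_abs_self (2 * Z)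
  linarith

/-- **Local changes at an independent set of vertices** -/
theorem independent_gain (D : Drawing G) (hDf : D.crossings.Finite) (hD : Good D)
    (I : Finset V) (h1 : ∀ a ∈ I, ∃ e f, DX D e f ≠ 0 ∧ a ∈ e)
    (h2 : ∀ a ∈ I, ∀ b ∈ I, a ≠ b → ∀ e f, DX D e f ≠ 0 → (a ∈ e ∨ a ∈ f) → b ∉ e ∧ b ∉ f) :
    8 * biplanarCrossingNumber G + 3 * I.card ≤ 3 * D.crossings.ncard := by
  obtain ⟨hd, tl, hht⟩ := exists_or V
  obtain ⟨H, hH1, hH2⟩ := separable I (FF D hd tl) (by
    intro a ha b hb hab σ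
    exact dif_FF hht (h2 a ha b hb hab) σ)
  have h3 : ∀ σ, 2 * (biplanarCrossingNumber G : ℤ) ≤ H σ := by
    intro σ
    obtain ⟨σ', h4⟩ := hH1 σ
    rw [h4]
    have h5 := base_scheme D hDf hd tl hht σ'
    unfold FF term
    exact_mod_cast h5
  have h4 : (NN V : ℤ) * (2 * (biplanarCrossingNumber G : ℤ)) ≤ ∑ σ, H σ := by
    have h5 : (NN V : ℤ) * (2 * (biplanarCrossingNumber G : ℤ)) =
        ∑ _σ : V → Bool, 2 * (biplanarCrossingNumber G : ℤ) := by
      rw [NN]
      push_cast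
      rw [Finset.sum_mul]
      simp
    rw [h5]
    exact Finset.sum_le_sum fun σ _ => h3 σ
  have h5 : ∑ a ∈ I, 3 * (NN V : ℤ) ≤ ∑ a ∈ I, 2 * ∑ σ, |dif a (FF D hd tl) σ| := by
    refine Finset.sum_le_sum fun a ha => ?_
    obtain ⟨e, f, h6, h7⟩ := h1 a ha
    exact dif_big hD hht h6 h7
  rw [Finset.sum_const, nsmul_eq_mul, ← Finset.mul_sum] at h5
  have h6 := FF_avg hDf hD hht
  have hN : (0 : ℤ) < NN V := by exact_mod_cast NN_pos
  have h7 : (NN V : ℤ) * (8 * (biplanarCrossingNumber G : ℤ) + 3 * I.card) ≤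
      NN V * (3 * D.crossings.ncard) := by
    linarith
  have h8 := le_of_mul_le_mul_left h7 hN
  exact_mod_cast h8

end fourier

end Run7.h795
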