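import Pool.Agent.Run7.h795.Dense

/-!
# Labels tied along a matching
-/

set_option autoImplicit false

open Set Classical
open Pool.Agent.Helper770.Crossing Pool.Agent.NH90.CN

namespace Run7.h795

section comb

variable {α : Type}

/-- a heavy matching, by greedy choice -/
theorem exists_matching {V : Type} (c : Sym2 V → ℕ) (Δ : ℕ) :
    ∀ (n : ℕ) (H : Finset (Sym2 V)), H.card = n →
      (∀ v : V, (H.filter (fun e => v ∈ e)).card ≤ Δ) →
      ∃ M ⊆ H, (∀ e ∈ M, ∀ f ∈ M, e ≠ f → ∀ u, u ∈ e → u ∉ f) ∧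
        ∑ e ∈ H, c e ≤ 2 * Δ * ∑ e ∈ M, c e := by
  intro n
  induction n using Nat.strong_induction_on with
  | _ n ih =>
    intro H hH hdeg
    rcases H.eq_empty_or_nonempty with h0 | h0
    · subst h0
      exact ⟨∅, le_rfl, by simp, by simp⟩
    obtain ⟨e, he, hmax⟩ := Finset.exists_max_image H c h0
    obtain ⟨a, b, hab⟩ : ∃ a b, e = s(a, b) := by
      induction e with
      | h a b => exact ⟨a, b, rfl⟩
    set A := H.filter (fun f => ∃ u, u ∈ e ∧ u ∈ f) with hA
    have heA : e ∈ A := by
      rw [hA, Finset.mem_filter]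
      exact ⟨he, a, by rw [hab]; exact Sym2.mem_mk_left _ _, by rw [hab]; exact Sym2.mem_mk_left _ _⟩
    have hAH : A ⊆ H := Finset.filter_subset _ _
    have hAc : A.card ≤ 2 * Δ := by
      have h1 : A ⊆ H.filter (fun f => a ∈ f) ∪ H.filter (fun f => b ∈ f) := by
        intro f hf
        obtain ⟨h1, u, hu, hu'⟩ := Finset.mem_filter.1 hf
        rw [hab, Sym2.mem_iff] at hu
        rw [Finset.mem_union, Finset.mem_filter, Finset.mem_filter]
        rcases hu with rfl | rfl
        · exact Or.inl ⟨h1, hu'⟩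
        · exact Or.inr ⟨h1, hu'⟩
      have h2 := (Finset.card_le_card h1).trans (Finset.card_union_le _ _)
      have h3 := hdeg a
      have h4 := hdeg b
      omega
    set H' := H \ A with hH'
    have hcard : H'.card < n := by
      rw [← hH, hH']
      apply Finset.card_lt_card
      refine ⟨Finset.sdiff_subset, fun h => ?_⟩
      exact (Finset.mem_sdiff.1 (h he)).2 heA
    obtain ⟨M, hM1, hM2, hM3⟩ := ih H'.card hcard H' rfl (by
      intro v
      refine le_trans (Finset.card_le_card ?_) (hdeg v)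
      exact Finset.filter_subset_filter _ Finset.sdiff_subset)
    have heM : e ∉ M := fun h => (Finset.mem_sdiff.1 (hM1 h)).2 heA
    have hout : ∀ f ∈ M, ∀ u, u ∈ e → u ∉ f := by
      intro f hf u hu hu'
      have h1 := Finset.mem_sdiff.1 (hM1 hf)
      exact h1.2 (Finset.mem_filter.2 ⟨h1.1, u, hu, hu'⟩)
    refine ⟨insert e M, Finset.insert_subset he (hM1.trans Finset.sdiff_subset), ?_, ?_⟩
    · intro f hf g hg hfg u hu hu'
      rw [Finset.mem_insert] at hf hg
      rcases hf with rfl | hf
      · rcases hg with rfl | hg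
        · exact hfg rfl
        · exact hout g hg u hu hu'
      · rcases hg with rfl | hg
        · exact hout f hf u hu' hu
        · exact hM2 f hf g hg hfg u hu hu'
    · rw [Finset.sum_insert heM, ← Finset.sum_sdiff hAH]
      have h1 : ∑ f ∈ A, c f ≤ A.card * c e := by
        rw [← smul_eq_mul, ← Finset.sum_const]
        exact Finset.sum_le_sum fun f hf => hmax f (hAH hf)
      have h2 : A.card * c e ≤ 2 * Δ * c e := Nat.mul_le_mul_right _ hAc
      calc ∑ f ∈ H \ A, c f + ∑ f ∈ A, c f ≤ 2 * Δ * ∑ f ∈ M, c f + 2 * Δ * c e :=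
            Nat.add_le_add hM3 (h1.trans h2)
        _ = 2 * Δ * (c e + ∑ f ∈ M, c f) := by ring

/-- a partition into four parts with few conflicts inside the parts -/
theorem exists_parts (b : α → α → ℕ) (hs : ∀ x y, b x y = b y x) (h0 : ∀ x, b x x = 0)
    (M : Finset α) : ∃ κ : α → Fin 4,
      4 * ∑ x ∈ M, ∑ y ∈ M, (if κ x = κ y then b x y else 0) ≤ ∑ x ∈ M, ∑ y ∈ M, b x y := by
  induction M using Finset.induction_on with
  | empty => exact ⟨fun _ => 0, by simp⟩
  | insert a M ha ih =>
    obtain ⟨κ, hκ⟩ := ih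
    obtain ⟨i, -, hi⟩ := Finset.exists_min_image (Finset.univ : Finset (Fin 4))
      (fun i => ∑ y ∈ M, (if κ y = i then b a y else 0)) ⟨0, Finset.mem_univ _⟩
    have h1 : 4 * ∑ y ∈ M, (if κ y = i then b a y else 0) ≤ ∑ y ∈ M, b a y := by
      have h2 : ∑ _j : Fin 4, ∑ y ∈ M, (if κ y = i then b a y else 0) ≤
          ∑ j : Fin 4, ∑ y ∈ M, (if κ y = j then b a y else 0) :=
        Finset.sum_le_sum fun j hj => hi j hj
      rw [Finset.sum_const, Finset.card_univ, Fintype.card_fin, smul_eq_mul, Finset.sum_comm] at h2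
      refine h2.trans (le_of_eq (Finset.sum_congr rfl fun y _ => ?_))
      rw [Finset.sum_ite_eq]
      simp
    have hne : ∀ y ∈ M, y ≠ a := fun y hy h => ha (h ▸ hy)
    refine ⟨Function.update κ a i, ?_⟩
    rw [Finset.sum_insert ha, Finset.sum_insert ha, Finset.sum_insert ha, Finset.sum_insert ha,
      h0 a]
    have e1 : ∑ y ∈ M, (if Function.update κ a i a = Function.update κ a i y then b a y else 0) =
        ∑ y ∈ M, (if κ y = i then b a y else 0) := by
      refine Finset.sum_congr rfl fun y hy => ?_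
      rw [Function.update_self, Function.update_of_ne (hne y hy)]
      by_cases h : κ y = i
      · rw [if_pos h, if_pos h.symm]
      · rw [if_neg h, if_neg (Ne.symm h)]
    have e2 : ∑ x ∈ M, ∑ y ∈ insert a M, (if Function.update κ a i x = Function.update κ a i y
        then b x y else 0) = ∑ y ∈ M, (if κ y = i then b a y else 0) +
        ∑ x ∈ M, ∑ y ∈ M, (if κ x = κ y then b x y else 0) := by
      rw [← Finset.sum_add_distrib]
      refine Finset.sum_congr rfl fun x hx => ?_
      rw [Finset.sum_insert ha, Function.update_self, Function.update_of_ne (hne x hx), hs x a]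
      congr 1
      exact Finset.sum_congr rfl fun y hy => by rw [Function.update_of_ne (hne y hy)]
    have e3 : ∑ x ∈ M, ∑ y ∈ insert a M, b x y = ∑ y ∈ M, b a y + ∑ x ∈ M, ∑ y ∈ M, b x y := by
      rw [← Finset.sum_add_distrib]
      refine Finset.sum_congr rfl fun x hx => ?_
      rw [Finset.sum_insert ha, hs x a]
    rw [e1, e2, e3]
    simp only [ite_self]
    omega

end comb

section ties

variable {V : Type}

/-- the representatives of a matching -/
noncomputable def rep (hd : Sym2 V → V) (M : Finset (Sym2 V)) (v : V) : V :=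
  if h : ∃ e ∈ M, v ∈ e then hd h.choose else v

theorem rep_mem {hd : Sym2 V → V} {M : Finset (Sym2 V)}
    (hM : ∀ e ∈ M, ∀ f ∈ M, e ≠ f → ∀ u, u ∈ e → u ∉ f) {e : Sym2 V} (he : e ∈ M) {v : V}
    (hv : v ∈ e) : rep hd M v = hd e := by
  have h : ∃ e ∈ M, v ∈ e := ⟨e, he, hv⟩
  unfold rep
  rw [dif_pos h]
  obtain ⟨h1, h2⟩ := h.choose_spec
  by_contra hne
  exact hM _ h1 _ he (fun h3 => hne (by rw [h3])) v h2 hv

theorem rep_not {hd : Sym2 V → V} {M : Finset (Sym2 V)} {v : V} (h : ¬ ∃ e ∈ M, v ∈ e) :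
    rep hd M v = v := dif_neg h

theorem rep_eq {hd tl : Sym2 V → V} (hht : ∀ e, s(hd e, tl e) = e) {M : Finset (Sym2 V)}
    (hM : ∀ e ∈ M, ∀ f ∈ M, e ≠ f → ∀ u, u ∈ e → u ∉ f) {u x : V} (hux : u ≠ x)
    (h : rep hd M u = rep hd M x) : s(u, x) ∈ M := by
  have hhd : ∀ e : Sym2 V, hd e ∈ e := by
    intro e
    have h4 := Sym2.mem_mk_left (hd e) (tl e)
    rwa [hht] at h4
  by_cases hu : ∃ e ∈ M, u ∈ e
  · obtain ⟨e, he, hue⟩ := hu
    rw [rep_mem hM he hue] at h
    have hxe : x ∈ e := by
      by_cases hx : ∃ e ∈ M, x ∈ e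
      · obtain ⟨f, hf, hxf⟩ := hx
        rw [rep_mem hM hf hxf] at h
        by_cases hef : e = f
        · rw [hef]
          exact hxf
        · exact absurd (h ▸ hhd f) (hM e he f hf hef _ (hhd e))
      · rw [rep_not hx] at h
        rw [← h]
        exact hhd e
    rw [(Sym2.mem_and_mem_iff hux).1 ⟨hue, hxe⟩] at he
    exact he
  · rw [rep_not hu] at h
    by_cases hx : ∃ e ∈ M, x ∈ e
    · obtain ⟨f, hf, hxf⟩ := hx
      rw [rep_mem hM hf hxf] at h
      exact absurd ⟨f, hf, h ▸ hhd f⟩ hu
    · rw [rep_not hx] at h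
      exact absurd h hux

section avg

variable [Fintype V] {G : SimpleGraph V}

/-- tied end-vertices of different edges -/
def crs (M : Finset (Sym2 V)) (e f : Sym2 V) : Prop := ∃ u ∈ e, ∃ x ∈ f, s(u, x) ∈ M

/-- the average of a term for labels tied along a matching -/
theorem tie_avg {D : Drawing G} (hD : Good D) {hd tl : Sym2 V → V}
    (hht : ∀ e, s(hd e, tl e) = e) {M : Finset (Sym2 V)}
    (hM : ∀ e ∈ M, ∀ f ∈ M, e ≠ f → ∀ u, u ∈ e → u ∉ f) (e f : Sym2 V) :
    8 * ∑ σ : V → Bool, term D hd tl e f (fun v => σ (rep hd M v)) +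
      NN V * ((if e ∈ M then DX D e f else 0) + (if f ∈ M then DX D e f else 0)) ≤
      NN V * (3 * DX D e f + 3 * (if e ∈ M ∧ f ∈ M then DX D e f else 0) +
        7 * (if crs M e f then DX D e f else 0)) := by
  by_cases h0 : DX D e f = 0
  · have h1 : ∀ σ, term D hd tl e f σ = 0 := by
      intro σ
      unfold term
      rw [h0]
      simp
    simp [h1, h0]
  obtain ⟨m1, m2, m3, m4, n1, n2, n3, n4, n5, n6⟩ := ends4 hD hht h0
  by_cases hc : crs M e f
  · -- the trivial bound
    have h1 : ∑ σ : V → Bool, term D hd tl e f (fun v => σ (rep hd M v)) ≤ NN V * DX D e f := by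
      have h2 : NN V * DX D e f = ∑ _σ : V → Bool, DX D e f := by
        rw [NN, Finset.sum_mul]
        simp
      rw [h2]
      refine Finset.sum_le_sum fun σ _ => ?_
      unfold term
      dsimp only
      by_cases h3 : σ (rep hd M (hd e)) = σ (rep hd M (tl e))
      · rw [if_neg (fun h : _ ≠ _ ∧ _ => h.1 h3)]
        split_ifs <;> omega
      · rw [if_neg (fun h : _ = _ ∧ _ => h3 h.1)]
        split_ifs <;> omega
    rw [if_pos hc]
    have h3 : (if e ∈ M then DX D e f else 0) ≤ DX D e f := by split_ifs <;> omega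
    have h4 : (if f ∈ M then DX D e f else 0) ≤ DX D e f := by split_ifs <;> omega
    have h5 : 8 * DX D e f + ((if e ∈ M then DX D e f else 0) + (if f ∈ M then DX D e f else 0)) ≤
        3 * DX D e f + 3 * (if e ∈ M ∧ f ∈ M then DX D e f else 0) + 7 * DX D e f := by omega
    calc _ ≤ 8 * (NN V * DX D e f) + NN V * ((if e ∈ M then DX D e f else 0) +
          (if f ∈ M then DX D e f else 0)) := by omega
      _ = NN V * (8 * DX D e f + ((if e ∈ M then DX D e f else 0) +
          (if f ∈ M then DX D e f else 0))) := by ring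
      _ ≤ _ := Nat.mul_le_mul_left _ h5
  rw [if_neg hc]
  have hr : ∀ u x, u ∈ e → x ∈ f → u ≠ x → rep hd M u ≠ rep hd M x := fun u x hu hx hux h =>
    hc ⟨u, hu, x, hx, rep_eq hht hM hux h⟩
  have k3 := hr _ _ m1 m3 n3
  have k4 := hr _ _ m1 m4 n4
  have k5 := hr _ _ m2 m3 n5
  have k6 := hr _ _ m2 m4 n6
  have s1 : ∑ σ : V → Bool, term D hd tl e f (fun v => σ (rep hd M v)) =
      ((∑ σ : V → Bool, (if σ (rep hd M (hd e)) = σ (rep hd M (tl e)) ∧
        σ (rep hd M (hd f)) = σ (rep hd M (tl f)) ∧ σ (rep hd M (hd e)) = σ (rep hd M (hd f))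
        then 1 else 0)) + ∑ σ : V → Bool, (if σ (rep hd M (hd e)) ≠ σ (rep hd M (tl e)) ∧
        σ (rep hd M (hd f)) ≠ σ (rep hd M (tl f)) then 1 else 0)) * DX D e f := by
    unfold term
    dsimp only
    rw [Finset.sum_add_distrib, add_mul,
      sum_ite_mul (fun σ : V → Bool => σ (rep hd M (hd e)) = σ (rep hd M (tl e)) ∧
        σ (rep hd M (hd f)) = σ (rep hd M (tl f)) ∧ σ (rep hd M (hd e)) = σ (rep hd M (hd f))),
      sum_ite_mul (fun σ : V → Bool => σ (rep hd M (hd e)) ≠ σ (rep hd M (tl e)) ∧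
        σ (rep hd M (hd f)) ≠ σ (rep hd M (tl f)))]
  rw [s1]
  -- the cases
  have key : ∀ P Q : ℕ, 8 * (P + Q) + NN V * ((if e ∈ M then 1 else 0) + (if f ∈ M then 1 else 0))
      ≤ NN V * (3 + 3 * (if e ∈ M ∧ f ∈ M then 1 else 0)) →
      8 * ((P + Q) * DX D e f) +
        NN V * ((if e ∈ M then DX D e f else 0) + (if f ∈ M then DX D e f else 0)) ≤
      NN V * (3 * DX D e f + 3 * (if e ∈ M ∧ f ∈ M then DX D e f else 0) + 7 * 0) := by
    intro P Q h
    have h1 := Nat.mul_le_mul_right (DX D e f) h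
    by_cases he : e ∈ M <;> by_cases hf : f ∈ M <;> simp only [he, hf, if_true, if_false,
      and_true, and_false, and_self, mul_one, mul_zero, add_zero, zero_add] at h1 ⊢ <;> nlinarith
  apply key
  by_cases he : e ∈ M
  · have a1 : rep hd M (tl e) = rep hd M (hd e) := by
      rw [rep_mem hM he m1, rep_mem hM he m2]
    rw [a1]
    have z2 : ∑ σ : V → Bool, (if σ (rep hd M (hd e)) ≠ σ (rep hd M (hd e)) ∧
        σ (rep hd M (hd f)) ≠ σ (rep hd M (tl f)) then 1 else 0) = 0 := by
      refine Finset.sum_eq_zero fun σ _ => ?_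
      rw [if_neg]
      exact fun h => h.1 rfl
    rw [z2]
    by_cases hf : f ∈ M
    · have a2 : rep hd M (tl f) = rep hd M (hd f) := by
        rw [rep_mem hM hf m3, rep_mem hM hf m4]
      rw [a2]
      have z1 : ∑ σ : V → Bool, (if σ (rep hd M (hd e)) = σ (rep hd M (hd e)) ∧
          σ (rep hd M (hd f)) = σ (rep hd M (hd f)) ∧ σ (rep hd M (hd e)) = σ (rep hd M (hd f))
          then 1 else 0) = ∑ σ : V → Bool, (if σ (rep hd M (hd e)) = σ (rep hd M (hd f))
          then 1 else 0) := by
        refine Finset.sum_congr rfl fun σ _ => ?_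
        congr 1
        simp
      rw [z1]
      have := pr_two k3
      simp only [he, hf, if_true, and_self]
      omega
    · have n2' : rep hd M (hd f) ≠ rep hd M (tl f) := by
        intro h
        have := rep_eq hht hM n2 h
        rw [hht] at this
        exact hf this
      have z1 : ∑ σ : V → Bool, (if σ (rep hd M (hd e)) = σ (rep hd M (hd e)) ∧
          σ (rep hd M (hd f)) = σ (rep hd M (tl f)) ∧ σ (rep hd M (hd e)) = σ (rep hd M (hd f))
          then 1 else 0) = ∑ σ : V → Bool, (if σ (rep hd M (hd e)) = σ (rep hd M (hd f)) ∧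
          σ (rep hd M (hd f)) = σ (rep hd M (tl f)) then 1 else 0) := by
        refine Finset.sum_congr rfl fun σ _ => ?_
        congr 1
        simp [and_comm]
      rw [z1]
      have := pr_three k3 k4 n2'
      simp only [he, hf, if_true, if_false, and_false]
      omega
  · have n1' : rep hd M (hd e) ≠ rep hd M (tl e) := by
      intro h
      have := rep_eq hht hM n1 h
      rw [hht] at this
      exact he this
    by_cases hf : f ∈ M
    · have a2 : rep hd M (tl f) = rep hd M (hd f) := by
        rw [rep_mem hM hf m3, rep_mem hM hf m4]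
      rw [a2]
      have z2 : ∑ σ : V → Bool, (if σ (rep hd M (hd e)) ≠ σ (rep hd M (tl e)) ∧
          σ (rep hd M (hd f)) ≠ σ (rep hd M (hd f)) then 1 else 0) = 0 := by
        refine Finset.sum_eq_zero fun σ _ => ?_
        rw [if_neg]
        exact fun h => h.2 rfl
      have z1 : ∑ σ : V → Bool, (if σ (rep hd M (hd e)) = σ (rep hd M (tl e)) ∧
          σ (rep hd M (hd f)) = σ (rep hd M (hd f)) ∧ σ (rep hd M (hd e)) = σ (rep hd M (hd f))
          then 1 else 0) = ∑ σ : V → Bool, (if σ (rep hd M (hd f)) = σ (rep hd M (hd e)) ∧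
          σ (rep hd M (hd e)) = σ (rep hd M (tl e)) then 1 else 0) := by
        refine Finset.sum_congr rfl fun σ _ => ?_
        congr 1
        simp only [true_and, eq_iff_iff]
        constructor
        · exact fun h => ⟨h.2.symm, h.1⟩
        · exact fun h => ⟨h.2, h.1.symm⟩
      rw [z1, z2]
      have := pr_three k3.symm k5.symm n1'
      simp only [he, hf, if_true, if_false, false_and]
      omega
    · have n2' : rep hd M (hd f) ≠ rep hd M (tl f) := by
        intro h
        have := rep_eq hht hM n2 h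
        rw [hht] at this
        exact hf this
      have e1 := pr_four n1' k3 k4 k5 k6 n2'
      have e2 := pr_ne n1' k3 k4 n2'
      simp only [he, hf, if_false, false_and]
      omega

end avg

end ties

end Run7.h795
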