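import Pool.Agent.Run7.h795.Simple

/-!
# Collapsing a part of an edge and gluing the pages there
-/

set_option autoImplicit false

open Set Classical
open Pool.Agent.Helper770.Crossing Pool.Agent.NH90.CN

namespace Run7.h795

section

variable {V : Type} [Fintype V] {G : SimpleGraph V}

/-- the pages for a part of an edge -/
theorem exists_page (D : Drawing G) (hPLA : ∀ e ∈ G.edgeSet, PLA (D.arc e) 0 1) {e₀ : Sym2 V}
    (he₀ : e₀ ∈ G.edgeSet) {t₁ t₂ : ℝ} (h1 : 0 < t₁) (h12 : t₁ ≤ t₂) (h2 : t₂ < 1) :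
    ∃ (K : Set ℂ) (Θ : Bool → ℂ → ℂ), Page K (D.arc e₀ '' Icc t₁ t₂) Θ ∧
      (∀ e ∈ G.edgeSet, D.arc e '' Icc (0 : ℝ) 1 ⊆ K) ∧ ∀ v, D.pos v ∈ K := by
  obtain ⟨T, hT1, hT2⟩ := exists_cover D hPLA
  set K := ⋃ s ∈ T, sg s with hK
  set p := D.arc e₀ t₁ with hp
  set Γ := D.arc e₀ '' Icc t₁ t₂ with hΓ
  have hpΓ : p ∈ Γ := mem_image_of_mem _ ⟨le_rfl, h12⟩
  have hsub : Icc t₁ t₂ ⊆ Icc (0 : ℝ) 1 := Icc_subset_Icc h1.le h2.le
  have hΓK : Γ ⊆ K := (image_mono hsub).trans (hT1 e₀ he₀)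
  obtain ⟨d, hpd, hd⟩ := exists_slit T p
  have hslit : ∀ z ∈ K, z ∈ segment ℝ p d → z = p := by
    intro z hz hz'
    rw [hK, mem_iUnion₂] at hz
    obtain ⟨s, hs, hz⟩ := hz
    exact hd s hs z hz hz'
  have hP0 := (hPLA e₀ he₀).mono h1.le h12 h2.le
  obtain ⟨φ, g1, g2, g3, g4⟩ := hP0.collapse ((D.arc_injOn e₀ he₀).mono hsub) {s(p, d)} (by
    intro s hs z hz hz'
    rw [Finset.mem_singleton] at hs
    subst hs
    rw [T3.sgmk] at hz
    exact hslit z (hΓK hz') hz)
  have hid : ∀ z ∈ segment ℝ p d, φ z = z := fun z hz =>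
    g2 _ (Finset.mem_singleton_self _) z (by rw [T3.sgmk]; exact hz)
  have hpage : Page (φ '' K) {p} (slit p d) := by
    refine page_slit hpd ?_
    rintro _ ⟨z, hz, rfl⟩ hz'
    by_contra hne
    have hzΓ : z ∉ Γ := fun h => hne ((g3 z).2 h)
    have h5 := g4 z (φ z) hzΓ (hid _ hz').symm
    rw [← h5] at hz' hne
    exact hne (hslit z hz hz')
  refine ⟨K, fun i z => slit p d i (φ z), ?_, hT1, hT2⟩
  exact hpage.comp g1.continuousOn (fun z hz => mem_image_of_mem _ hz) (fun z _ => g3 z)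
    (fun z _ z' _ hz h => g4 z z' hz h)

/-- first and last point of an arc in a closed set -/
theorem exists_first_last {γ : ℝ → ℂ} (hγ : ContinuousOn γ (Icc 0 1)) {Γ : Set ℂ}
    (hΓ : IsClosed Γ) (hne : (γ '' Icc (0 : ℝ) 1 ∩ Γ).Nonempty) :
    ∃ s₁ s₂ : ℝ, 0 ≤ s₁ ∧ s₁ ≤ s₂ ∧ s₂ ≤ 1 ∧ γ s₁ ∈ Γ ∧ γ s₂ ∈ Γ ∧
      ∀ t ∈ Icc (0 : ℝ) 1, γ t ∈ Γ → s₁ ≤ t ∧ t ≤ s₂ := by
  have hS : IsCompact (Icc (0 : ℝ) 1 ∩ γ ⁻¹' Γ) :=
    isCompact_Icc.of_isClosed_subset (hγ.preimage_isClosed_of_isClosed isClosed_Icc hΓ)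
      inter_subset_left
  have hSne : (Icc (0 : ℝ) 1 ∩ γ ⁻¹' Γ).Nonempty := by
    obtain ⟨_, ⟨t, ht, rfl⟩, hz⟩ := hne
    exact ⟨t, ht, hz⟩
  obtain ⟨s₁, ⟨a1, a2⟩, a3⟩ := hS.exists_isLeast hSne
  obtain ⟨s₂, ⟨b1, b2⟩, b3⟩ := hS.exists_isGreatest hSne
  exact ⟨s₁, s₂, a1.1, a3 ⟨b1, b2⟩, b1.2, a2, b2, fun t ht htΓ => ⟨a3 ⟨ht, htΓ⟩, b3 ⟨ht, htΓ⟩⟩⟩

/-- The drawing of the first plane: the edges meeting `Γ` are drawn for all labels, the other edges
only if the labels of their ends are equal. -/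
theorem tube_draw (D : Drawing G) (hDf : D.crossings.Finite) (hS : ∀ e f, DX D e f ≤ 1)
    (hd tl : Sym2 V → V)
    (hht : ∀ e ∈ G.edgeSet, s(hd e, tl e) = e ∧ D.arc e 0 = D.pos (hd e) ∧
      D.arc e 1 = D.pos (tl e))
    {K Γ : Set ℂ} {Θ : Bool → ℂ → ℂ} (hP : Page K Γ Θ) (hΓc : IsClosed Γ)
    (hK : ∀ e ∈ G.edgeSet, D.arc e '' Icc (0 : ℝ) 1 ⊆ K) (hKp : ∀ v, D.pos v ∈ K)
    (hΓv : ∀ v, D.pos v ∉ Γ) (W : Finset (Sym2 V))
    (hW : ∀ e ∈ G.edgeSet, (e ∈ W ↔ (D.arc e '' Icc (0 : ℝ) 1 ∩ Γ).Nonempty)) :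
    ∃ u : Sym2 V → Sym2 V → V, (∀ e ∈ G.edgeSet, ∀ f, u e f ∈ e) ∧
      (∀ e ∉ W, ∀ f, u e f = hd e) ∧
      ∀ σ : V → Bool, 2 * crossingNumber (sub G (fun e => e ∈ W ∨ σ (hd e) = σ (tl e))) ≤
        ∑ e : Sym2 V, ∑ f : Sym2 V,
          ((if (e ∈ W ∨ σ (hd e) = σ (tl e)) ∧ (f ∈ W ∨ σ (hd f) = σ (tl f)) ∧
            σ (u e f) = σ (u f e) then DX D e f else 0) +
          (if e ∈ W ∧ f ∈ W ∧ e ≠ f then 1 else 0)) := by
  have hmem : ∀ e ∈ G.edgeSet, ∀ u, u ∈ e ↔ u = hd e ∨ u = tl e := by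
    intro e he u
    rw [← Sym2.mem_iff, (hht e he).1]
  -- first and last points
  have hfl : ∀ e : Sym2 V, ∃ s : ℝ × ℝ, e ∈ G.edgeSet → e ∈ W → 0 < s.1 ∧ s.1 ≤ s.2 ∧ s.2 < 1 ∧
      D.arc e s.1 ∈ Γ ∧ D.arc e s.2 ∈ Γ ∧
      ∀ t ∈ Icc (0 : ℝ) 1, D.arc e t ∈ Γ → s.1 ≤ t ∧ t ≤ s.2 := by
    intro e
    by_cases h : e ∈ G.edgeSet ∧ e ∈ W
    · obtain ⟨s₁, s₂, h1, h2, h3, h4, h5, h6⟩ := exists_first_last (D.arc_continuousOn e h.1) hΓc
        ((hW e h.1).1 h.2)
      refine ⟨(s₁, s₂), fun _ _ => ⟨?_, h2, ?_, h4, h5, h6⟩⟩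
      · rcases h1.eq_or_lt with h0 | h0
        · rw [← h0, (hht e h.1).2.1] at h4
          exact absurd h4 (hΓv _)
        · exact h0
      · rcases h3.eq_or_lt with h0 | h0
        · rw [h0, (hht e h.1).2.2] at h5
          exact absurd h5 (hΓv _)
        · exact h0
    · exact ⟨(0, 0), fun h1 h2 => absurd ⟨h1, h2⟩ h⟩
  choose s hs using hfl
  -- the end-vertex on the side of a crossing
  set u : Sym2 V → Sym2 V → V := fun e f =>
    if e ∈ W then (if ∃ z ∈ XX D e f, z ∈ D.arc e '' Icc 0 (s e).1 then hd e else tl e)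
      else hd e with hu
  refine ⟨u, ?_, ?_, ?_⟩
  · intro e he f
    rw [hmem e he]
    show (if e ∈ W then (if _ then hd e else tl e) else hd e) = hd e ∨
      (if e ∈ W then (if _ then hd e else tl e) else hd e) = tl e
    split_ifs
    · exact Or.inl rfl
    · exact Or.inr rfl
    · exact Or.inl rfl
  · intro e he f
    exact if_neg he
  intro σ
  set G₁ := sub G (fun e => e ∈ W ∨ σ (hd e) = σ (tl e)) with hG₁
  have hE : ∀ e ∈ G₁.edgeSet, e ∈ G.edgeSet := fun e he => (mem_sub.1 he).1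
  have hE2 : ∀ e ∈ G₁.edgeSet, e ∈ W ∨ σ (hd e) = σ (tl e) := fun e he => (mem_sub.1 he).2
  set A : Sym2 V → Bool → Set ℂ := fun e i => if e ∈ W then
    {z | (z ∈ D.arc e '' Icc 0 (s e).1 ∧ σ (hd e) = i) ∨
      (z ∈ D.arc e '' Icc (s e).2 1 ∧ σ (tl e) = i)}
    else {z | z ∈ D.arc e '' Icc (0 : ℝ) 1 ∧ σ (hd e) = i} with hA
  have hAW : ∀ e ∈ W, ∀ i z, z ∈ A e i ↔ (z ∈ D.arc e '' Icc 0 (s e).1 ∧ σ (hd e) = i) ∨
      (z ∈ D.arc e '' Icc (s e).2 1 ∧ σ (tl e) = i) := by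
    intro e he i z
    show z ∈ (if e ∈ W then _ else _) ↔ _
    rw [if_pos he]
    exact Iff.rfl
  have hAN : ∀ e ∉ W, ∀ i z, z ∈ A e i ↔ (z ∈ D.arc e '' Icc (0 : ℝ) 1 ∧ σ (hd e) = i) := by
    intro e he i z
    show z ∈ (if e ∈ W then _ else _) ↔ _
    rw [if_neg he]
    exact Iff.rfl
  have hs01 : ∀ e ∈ G.edgeSet, e ∈ W → Icc 0 (s e).1 ⊆ Icc (0 : ℝ) 1 ∧
      Icc (s e).2 1 ⊆ Icc (0 : ℝ) 1 := by
    intro e he heW
    obtain ⟨a1, a2, a3, _⟩ := hs e he heW
    exact ⟨Icc_subset_Icc_right (a2.trans a3.le), Icc_subset_Icc_left (a1.le.trans a2)⟩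
  obtain ⟨P, hPf, hPX⟩ := glueDX (sub_le G _ : G₁ ≤ G) D hDf hd tl (fun e he => (hht e he).1) hP
    hK hKp (fun a b ha _ => absurd ha (hΓv a)) (fun e _ a ha _ => absurd ha (hΓv a)) σ A
    (by
      intro e he i z hz
      by_cases heW : e ∈ W
      · rcases (hAW e heW i z).1 hz with h | h
        · exact image_mono (hs01 e (hE e he) heW).1 h.1
        · exact image_mono (hs01 e (hE e he) heW).2 h.1
      · exact ((hAN e heW i z).1 hz).1)
    (by
      intro e he i v hv hz _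
      have heG := hE e he
      obtain ⟨e1, e2, e3⟩ := hht e heG
      by_cases heW : e ∈ W
      · obtain ⟨a1, a2, a3, _⟩ := hs e heG heW
        rcases (hAW e heW i _).1 hz with ⟨⟨t, ht, htz⟩, h⟩ | ⟨⟨t, ht, htz⟩, h⟩
        · rcases ht.1.eq_or_lt with h0 | h0
          · rw [← h0, e2] at htz
            rw [← D.pos_injective htz]
            exact h
          · exact absurd htz (D.arc_avoids e heG t ⟨h0, by linarith [ht.2]⟩ v)
        · rcases ht.2.eq_or_lt with h0 | h0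
          · rw [h0, e3] at htz
            rw [← D.pos_injective htz]
            exact h
          · exact absurd htz (D.arc_avoids e heG t ⟨by linarith [ht.1], h0⟩ v)
      · have h := ((hAN e heW i _).1 hz).2
        rcases (hmem e heG v).1 hv with rfl | rfl
        · exact h
        · rcases hE2 e he with h4 | h4
          · exact absurd h4 heW
          · rw [← h4]
            exact h)
    (by
      intro e he
      have heG := hE e he
      obtain ⟨e1, e2, e3⟩ := hht e heG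
      have hc := D.arc_continuousOn e heG
      have hi := D.arc_injOn e heG
      by_cases heW : e ∈ W
      · obtain ⟨a1, a2, a3, a4, a5, a6⟩ := hs e heG heW
        have hz1 : ∀ i, Θ i (D.arc e (s e).1) = 0 := fun i => hP.zero i _
          (hK e heG (mem_image_of_mem _ ⟨a1.le, a2.trans a3.le⟩)) a4
        have hz2 : ∀ i, Θ i (D.arc e (s e).2) = 0 := fun i => hP.zero i _
          (hK e heG (mem_image_of_mem _ ⟨a1.le.trans a2, a3.le⟩)) a5
        -- the two arms
        have key : ∀ (i : Bool) (a b : ℝ), 0 ≤ a → b ≤ 1 → a < b →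
            (∀ t ∈ Icc a b, ∀ t' ∈ Icc a b, D.arc e t ∈ Γ → D.arc e t' ∈ Γ → t = t') →
            IsArc (Θ i '' (D.arc e '' Icc a b)) (Θ i (D.arc e a)) (Θ i (D.arc e b)) := by
          intro i a b ha hb hab huni
          have hm : ∀ t ∈ Icc (0 : ℝ) 1, a + (b - a) * t ∈ Icc a b := by
            intro t ht
            constructor
            · have := mul_nonneg (sub_nonneg.2 hab.le) ht.1
              linarith
            · have := mul_le_of_le_one_right (sub_nonneg.2 hab.le) ht.2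
              linarith
          have hm' : ∀ t ∈ Icc a b, t ∈ Icc (0 : ℝ) 1 := fun t ht =>
            ⟨ha.trans ht.1, ht.2.trans hb⟩
          refine ⟨fun t => Θ i (D.arc e (a + (b - a) * t)), ?_, ?_, ?_, ?_, ?_⟩
          · refine (hP.cont i).comp (hc.comp (by fun_prop) fun t ht => hm' _ (hm t ht)) ?_
            intro t ht
            exact hK e heG (mem_image_of_mem _ (hm' _ (hm t ht)))
          · intro t ht t' ht' h
            have hkey : a + (b - a) * t = a + (b - a) * t' := by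
              rcases hP.eq (hK e heG (mem_image_of_mem _ (hm' _ (hm t ht))))
                (hK e heG (mem_image_of_mem _ (hm' _ (hm t' ht')))) h with h4 | h4
              · exact huni _ (hm t ht) _ (hm t' ht') h4.1 h4.2.1
              · exact hi (hm' _ (hm t ht)) (hm' _ (hm t' ht')) h4.2.1
            have h2 : (b - a) * t = (b - a) * t' := by linarith
            exact mul_left_cancel₀ (sub_pos.2 hab).ne' h2
          · show Θ i (D.arc e (a + (b - a) * 0)) = _
            rw [mul_zero, add_zero]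
          · show Θ i (D.arc e (a + (b - a) * 1)) = _
            rw [mul_one, add_sub_cancel]
          · intro t ht
            exact mem_image_of_mem _ (mem_image_of_mem _ (hm t ht))
        have k1 := key (σ (hd e)) 0 (s e).1 le_rfl (a2.trans a3.le) a1 (by
          intro t ht t' ht' h h'
          have b1 := (a6 t ⟨ht.1, by linarith [ht.2]⟩ h).1
          have b2 := (a6 t' ⟨ht'.1, by linarith [ht'.2]⟩ h').1
          linarith [ht.2, ht'.2])
        have k2 := key (σ (tl e)) (s e).2 1 (a1.le.trans a2) le_rfl a3 (by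
          intro t ht t' ht' h h'
          have b1 := (a6 t ⟨by linarith [ht.1], ht.2⟩ h).2
          have b2 := (a6 t' ⟨by linarith [ht'.1], ht'.2⟩ h').2
          linarith [ht.1, ht'.1])
        rw [e2, hz1] at k1
        rw [e3, hz2] at k2
        refine CAT.mono ?_ (t_CAT _ _ _ _ _ ?_ k1 k2)
        · rintro _ (⟨z, hz, rfl⟩ | ⟨z, hz, rfl⟩)
          · rw [mem_iUnion]
            exact ⟨σ (hd e), mem_image_of_mem _ ((hAW e heW _ z).2 (Or.inl ⟨hz, rfl⟩))⟩
          · rw [mem_iUnion]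
            exact ⟨σ (tl e), mem_image_of_mem _ ((hAW e heW _ z).2 (Or.inr ⟨hz, rfl⟩))⟩
        · intro h
          rcases hP.eq (hKp _) (hKp _) h with h4 | h4
          · exact hΓv _ h4.1
          · have h5 := D.pos_injective h4.2.1
            rw [h5] at e1
            rw [← e1] at heG
            exact G.loopless.irrefl _ ((SimpleGraph.mem_edgeSet G).1 heG)
      · have hσ : σ (hd e) = σ (tl e) := (hE2 e he).resolve_left heW
        have hno : ∀ t ∈ Icc (0 : ℝ) 1, D.arc e t ∉ Γ := fun t ht h =>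
          heW ((hW e heG).2 ⟨_, mem_image_of_mem _ ht, h⟩)
        refine ⟨fun t => Θ (σ (hd e)) (D.arc e t), ?_, ?_, ?_, ?_, ?_⟩
        · exact (hP.cont _).comp hc fun t ht => hK e heG (mem_image_of_mem _ ht)
        · intro t ht t' ht' h
          rcases hP.eq (hK e heG (mem_image_of_mem _ ht)) (hK e heG (mem_image_of_mem _ ht')) h
            with h4 | h4
          · exact absurd h4.1 (hno t ht)
          · exact hi ht ht' h4.2.1
        · show Θ (σ (hd e)) (D.arc e 0) = _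
          rw [e2]
        · show Θ (σ (hd e)) (D.arc e 1) = _
          rw [e3, hσ]
        · intro t ht
          rw [mem_iUnion]
          exact ⟨σ (hd e), mem_image_of_mem _
            ((hAN e heW _ _).2 ⟨mem_image_of_mem _ ht, rfl⟩)⟩)
  refine two_cr P hPf fun e he f hf hef => (hPX e he f hf hef).trans ?_
  have heG := hE e he
  have hfG := hE f hf
  refine Nat.add_le_add ?_ ?_
  · -- the crossings off `Γ`
    have hXf : (XX D e f).Finite := ((t_CNT V G D).1.1 hDf) e heG f hfG hef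
    have hDX : DX D e f = (XX D e f).ncard := if_pos ⟨heG, hfG, hef⟩
    -- the page of a crossing
    have hpage : ∀ e ∈ G.edgeSet, ∀ f ∈ G.edgeSet, e ≠ f → ∀ i, ∀ z ∈ XX D e f, z ∉ Γ →
        z ∈ A e i → σ (u e f) = i := by
      intro e heG f hfG hef i z hz hzΓ hzA
      have hXf : (XX D e f).Finite := ((t_CNT V G D).1.1 hDf) e heG f hfG hef
      have hDX : DX D e f = (XX D e f).ncard := if_pos ⟨heG, hfG, hef⟩
      have hone : ∀ z' ∈ XX D e f, z' = z := by
        intro z' hz'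
        have h1 := hS e f
        rw [hDX] at h1
        exact (Set.ncard_le_one hXf).1 h1 z' hz' z hz
      by_cases heW : e ∈ W
      · obtain ⟨a1, a2, a3, a4, a5, a6⟩ := hs e heG heW
        have hu1 : u e f = if ∃ z ∈ XX D e f, z ∈ D.arc e '' Icc 0 (s e).1 then hd e
            else tl e := if_pos heW
        rcases (hAW e heW i z).1 hzA with ⟨h1, h2⟩ | ⟨h1, h2⟩
        · rw [hu1, if_pos ⟨z, hz, h1⟩]
          exact h2
        · rw [hu1, if_neg]
          · exact h2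
          · rintro ⟨z', hz', h3⟩
            rw [hone z' hz'] at h3
            obtain ⟨t, ht, htz⟩ := h1
            obtain ⟨t', ht', htz'⟩ := h3
            have h4 := D.arc_injOn e heG ((hs01 e heG heW).2 ht) ((hs01 e heG heW).1 ht')
              (htz.trans htz'.symm)
            have h5 : t = (s e).2 := by linarith [ht.1, ht'.2]
            rw [h5] at htz
            exact hzΓ (htz ▸ a5)
      · have hu1 : u e f = hd e := if_neg heW
        rw [hu1]
        exact ((hAN e heW i z).1 hzA).2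
    have hXs : XX D e f = XX D f e := inter_comm _ _
    by_cases hcase : σ (u e f) = σ (u f e)
    · rw [if_pos ⟨hE2 e he, hE2 f hf, hcase⟩]
      rw [Finset.sum_eq_single (σ (u e f))]
      · rw [hDX]
        exact ncard_le_ncard (fun z hz => hz.1.1.1) hXf
      · intro i _ hi
        have : XX D e f ∩ A e i ∩ A f i ∩ Γᶜ = ∅ := by
          refine eq_empty_of_forall_notMem fun z hz => hi ?_
          exact (hpage e heG f hfG hef i z hz.1.1.1 hz.2 hz.1.1.2).symm
        rw [this, ncard_empty]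
      · intro h
        exact absurd (Finset.mem_univ _) h
    · rw [Finset.sum_eq_zero]
      · exact Nat.zero_le _
      · intro i _
        have : XX D e f ∩ A e i ∩ A f i ∩ Γᶜ = ∅ := by
          refine eq_empty_of_forall_notMem fun z hz => hcase ?_
          rw [hpage e heG f hfG hef i z hz.1.1.1 hz.2 hz.1.1.2,
            hpage f hfG e heG hef.symm i z (hXs ▸ hz.1.1.1) hz.2 hz.1.2]
        rw [this, ncard_empty]
  · split_ifs with h1 h2 h2
    · exact le_rfl
    · exact absurd ⟨(hW e heG).2 h1.1, (hW f hfG).2 h1.2.1, hef⟩ h2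
    · exact Nat.zero_le _
    · exact le_rfl

end

end Run7.h795
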