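import Pool.Agent.Run7.h795.Tube

/-!
# The average gain of a tube
-/

set_option autoImplicit false

open Set Classical
open Pool.Agent.Helper770.Crossing Pool.Agent.NH90.CN

namespace Run7.h795

/-- orientation of the arcs, for all pairs -/
theorem exists_orient' {V : Type} {G : SimpleGraph V} (D : Drawing G) :
    ∃ hd tl : Sym2 V → V, (∀ e, s(hd e, tl e) = e) ∧
      ∀ e ∈ G.edgeSet, D.arc e 0 = D.pos (hd e) ∧ D.arc e 1 = D.pos (tl e) := by
  have h : ∀ e : Sym2 V, ∃ p : V × V, s(p.1, p.2) = e ∧ (e ∈ G.edgeSet →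
      D.arc e 0 = D.pos p.1 ∧ D.arc e 1 = D.pos p.2) := by
    intro e
    induction e with
    | h a b =>
      by_cases he : s(a, b) ∈ G.edgeSet
      · rcases D.arc_ends a b he with h | h
        · exact ⟨(a, b), rfl, fun _ => h⟩
        · exact ⟨(b, a), Sym2.eq_swap, fun _ => h⟩
      · exact ⟨(a, b), rfl, fun h => absurd h he⟩
  choose p hp using h
  exact ⟨fun e => (p e).1, fun e => (p e).2, fun e => (hp e).1, fun e he => (hp e).2 he⟩

section

variable {V : Type} [Fintype V] {G : SimpleGraph V}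

theorem sum_ite_const (P : Prop) [Decidable P] : ∑ _σ : V → Bool, (if P then 1 else 0) =
    NN V * (if P then 1 else 0) := by
  rw [NN, Finset.sum_mul]
  simp

/-- the average for one pair of edges -/
theorem tube_pair (D : Drawing G) (hD : Good D) (hS : ∀ e f, DX D e f ≤ 1)
    (hd tl : Sym2 V → V) (hht : ∀ e, s(hd e, tl e) = e) (W : Finset (Sym2 V))
    (u : Sym2 V → Sym2 V → V) (hu1 : ∀ e ∈ G.edgeSet, ∀ f, u e f ∈ e)
    (hu2 : ∀ e ∉ W, ∀ f, u e f = hd e) (e f : Sym2 V) :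
    8 * ∑ σ : V → Bool, (((if (e ∈ W ∨ σ (hd e) = σ (tl e)) ∧ (f ∈ W ∨ σ (hd f) = σ (tl f)) ∧
            σ (u e f) = σ (u f e) then DX D e f else 0) +
          (if e ∈ W ∧ f ∈ W ∧ e ≠ f then 1 else 0)) +
        (if e ∉ W ∧ f ∉ W ∧ σ (hd e) ≠ σ (tl e) ∧ σ (hd f) ≠ σ (tl f) then DX D e f else 0)) +
      NN V * ((if e ∈ W then DX D e f else 0) + (if f ∈ W then DX D e f else 0)) ≤
    NN V * (3 * DX D e f + (if e ∈ W ∧ f ∈ W ∧ e ≠ f then 11 else 0)) := by
  simp only [Finset.sum_add_distrib]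
  rw [sum_ite_const]
  by_cases h0 : DX D e f = 0
  · rw [h0]
    simp only [ite_self, Finset.sum_const_zero, zero_add, add_zero, mul_zero]
    have : 8 * (NN V * (if e ∈ W ∧ f ∈ W ∧ e ≠ f then 1 else 0)) =
        NN V * (if e ∈ W ∧ f ∈ W ∧ e ≠ f then 8 else 0) := by
      split_ifs <;> ring
    rw [this]
    refine Nat.mul_le_mul_left _ ?_
    split_ifs <;> norm_num
  obtain ⟨he, hf, hef⟩ := DX_ne h0
  obtain ⟨m1, m2, m3, m4, n1, n2, n3, n4, n5, n6⟩ := ends4 hD hht h0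
  have hdis := DX_disj hD h0
  have h1 : DX D e f = 1 := by
    have := hS e f
    omega
  by_cases heW : e ∈ W
  · by_cases hfW : f ∈ W
    · have e1 : ∀ σ : V → Bool, (if (e ∈ W ∨ σ (hd e) = σ (tl e)) ∧ (f ∈ W ∨ σ (hd f) = σ (tl f)) ∧
          σ (u e f) = σ (u f e) then DX D e f else 0) =
          if σ (u e f) = σ (u f e) then 1 else 0 := by
        intro σ
        rw [h1]
        simp [heW, hfW]
      have e2 : ∀ σ : V → Bool, (if e ∉ W ∧ f ∉ W ∧ σ (hd e) ≠ σ (tl e) ∧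
          σ (hd f) ≠ σ (tl f) then DX D e f else 0) = 0 := by
        intro σ
        simp [heW]
      have hne : u e f ≠ u f e := fun h => hdis _ (hu1 e he f) (h ▸ hu1 f hf e)
      have h2 := pr_two hne
      rw [Finset.sum_congr rfl fun σ _ => e1 σ, Finset.sum_congr rfl fun σ _ => e2 σ]
      have c1 : (if e ∈ W ∧ f ∈ W ∧ e ≠ f then 1 else 0) = 1 := if_pos ⟨heW, hfW, hef⟩
      have c2 : (if e ∈ W ∧ f ∈ W ∧ e ≠ f then 11 else 0) = 11 := if_pos ⟨heW, hfW, hef⟩
      rw [c1, c2, if_pos heW, if_pos hfW, h1]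
      simp only [Finset.sum_const_zero]
      omega
    · have e1 : ∀ σ : V → Bool, (if (e ∈ W ∨ σ (hd e) = σ (tl e)) ∧ (f ∈ W ∨ σ (hd f) = σ (tl f)) ∧
          σ (u e f) = σ (u f e) then DX D e f else 0) =
          if σ (u e f) = σ (hd f) ∧ σ (hd f) = σ (tl f) then DX D e f else 0 := by
        intro σ
        rw [hu2 f hfW e]
        simp only [heW, hfW, true_or, false_or, true_and]
        congr 1
        rw [eq_iff_iff]
        exact and_comm
      have e2 : ∀ σ : V → Bool, (if e ∉ W ∧ f ∉ W ∧ σ (hd e) ≠ σ (tl e) ∧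
          σ (hd f) ≠ σ (tl f) then DX D e f else 0) = 0 := by
        intro σ
        simp [heW]
      have h2 := avg_cut D hD hd tl hht e f (hu1 e he f)
      rw [Finset.sum_congr rfl fun σ _ => e1 σ, Finset.sum_congr rfl fun σ _ => e2 σ]
      have c1 : (if e ∈ W ∧ f ∈ W ∧ e ≠ f then 1 else 0) = 0 := if_neg fun h => hfW h.2.1
      have c2 : (if e ∈ W ∧ f ∈ W ∧ e ≠ f then 11 else 0) = 0 := if_neg fun h => hfW h.2.1
      rw [c1, c2, if_pos heW, if_neg hfW]
      simp only [Finset.sum_const_zero, add_zero, mul_zero]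
      nlinarith
  · by_cases hfW : f ∈ W
    · have e1 : ∀ σ : V → Bool, (if (e ∈ W ∨ σ (hd e) = σ (tl e)) ∧ (f ∈ W ∨ σ (hd f) = σ (tl f)) ∧
          σ (u e f) = σ (u f e) then DX D e f else 0) =
          if σ (u f e) = σ (hd e) ∧ σ (hd e) = σ (tl e) then DX D f e else 0 := by
        intro σ
        rw [hu2 e heW f, DX_symm D f e]
        simp only [heW, hfW, true_or, false_or, true_and]
        congr 1
        rw [eq_iff_iff]
        constructor
        · exact fun h => ⟨h.2.symm, h.1⟩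
        · exact fun h => ⟨h.2, h.1.symm⟩
      have e2 : ∀ σ : V → Bool, (if e ∉ W ∧ f ∉ W ∧ σ (hd e) ≠ σ (tl e) ∧
          σ (hd f) ≠ σ (tl f) then DX D e f else 0) = 0 := by
        intro σ
        simp [hfW]
      have h2 := avg_cut D hD hd tl hht f e (hu1 f hf e)
      rw [Finset.sum_congr rfl fun σ _ => e1 σ, Finset.sum_congr rfl fun σ _ => e2 σ]
      have c1 : (if e ∈ W ∧ f ∈ W ∧ e ≠ f then 1 else 0) = 0 := if_neg fun h => heW h.1
      have c2 : (if e ∈ W ∧ f ∈ W ∧ e ≠ f then 11 else 0) = 0 := if_neg fun h => heW h.1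
      rw [c1, c2, if_neg heW, if_pos hfW]
      rw [DX_symm D f e] at h2 ⊢
      simp only [Finset.sum_const_zero, add_zero, mul_zero, zero_add]
      nlinarith
    · have e1 : ∀ σ : V → Bool, (if (e ∈ W ∨ σ (hd e) = σ (tl e)) ∧ (f ∈ W ∨ σ (hd f) = σ (tl f)) ∧
          σ (u e f) = σ (u f e) then DX D e f else 0) =
          if σ (hd e) = σ (tl e) ∧ σ (hd f) = σ (tl f) ∧ σ (hd e) = σ (hd f)
            then DX D e f else 0 := by
        intro σ
        rw [hu2 e heW f, hu2 f hfW e]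
        simp only [heW, hfW, false_or]
      have e2 : ∀ σ : V → Bool, (if e ∉ W ∧ f ∉ W ∧ σ (hd e) ≠ σ (tl e) ∧
          σ (hd f) ≠ σ (tl f) then DX D e f else 0) =
          if σ (hd e) ≠ σ (tl e) ∧ σ (hd f) ≠ σ (tl f) then DX D e f else 0 := by
        intro σ
        simp only [heW, hfW, not_false_eq_true, true_and]
      have h2 := avg_first D hD hd tl hht e f
      have h3 := avg_second D hD hd tl hht e f
      rw [Finset.sum_congr rfl fun σ _ => e1 σ, Finset.sum_congr rfl fun σ _ => e2 σ]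
      have c1 : (if e ∈ W ∧ f ∈ W ∧ e ≠ f then 1 else 0) = 0 := if_neg fun h => heW h.1
      have c2 : (if e ∈ W ∧ f ∈ W ∧ e ≠ f then 11 else 0) = 0 := if_neg fun h => heW h.1
      rw [c1, c2, if_neg heW, if_neg hfW]
      simp only [add_zero, mul_zero]
      nlinarith

/-- **The gain of a tube.** Let `W` be the set of the edges meeting the part of the edge `e₀` between
the parameters `t₁` and `t₂`. -/
theorem tube_gain (D : Drawing G) (hDf : D.crossings.Finite) (hD : Good D)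
    (hS : ∀ e f, DX D e f ≤ 1) (hPLA : ∀ e ∈ G.edgeSet, PLA (D.arc e) 0 1) {e₀ : Sym2 V}
    (he₀ : e₀ ∈ G.edgeSet) {t₁ t₂ : ℝ} (h1 : 0 < t₁) (h12 : t₁ ≤ t₂) (h2 : t₂ < 1)
    (W : Finset (Sym2 V)) (hW : ∀ e ∈ G.edgeSet,
      (e ∈ W ↔ (D.arc e '' Icc (0 : ℝ) 1 ∩ D.arc e₀ '' Icc t₁ t₂).Nonempty)) :
    16 * biplanarCrossingNumber G + 2 * ∑ e ∈ W, ∑ f : Sym2 V, DX D e f ≤
      6 * D.crossings.ncard + 11 * (W.card * W.card - W.card) := by
  obtain ⟨hd, tl, hht, hht2⟩ := exists_orient' D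
  obtain ⟨K, Θ, hP, hK, hKp⟩ := exists_page D hPLA he₀ h1 h12 h2
  have hsub : Icc t₁ t₂ ⊆ Icc (0 : ℝ) 1 := Icc_subset_Icc h1.le h2.le
  have hΓc : IsClosed (D.arc e₀ '' Icc t₁ t₂) :=
    (isCompact_Icc.image_of_continuousOn ((D.arc_continuousOn e₀ he₀).mono hsub)).isClosed
  have hΓv : ∀ v, D.pos v ∉ D.arc e₀ '' Icc t₁ t₂ := by
    rintro v ⟨t, ht, htv⟩
    exact D.arc_avoids e₀ he₀ t ⟨by linarith [ht.1], by linarith [ht.2]⟩ v htv
  obtain ⟨u, hu1, hu2, hu3⟩ := tube_draw D hDf hS hd tl (fun e he => ⟨hht e, hht2 e he⟩) hP hΓc hK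
    hKp hΓv W hW
  set B : (V → Bool) → Sym2 V → Sym2 V → ℕ := fun σ e f =>
    ((if (e ∈ W ∨ σ (hd e) = σ (tl e)) ∧ (f ∈ W ∨ σ (hd f) = σ (tl f)) ∧
            σ (u e f) = σ (u f e) then DX D e f else 0) +
          (if e ∈ W ∧ f ∈ W ∧ e ≠ f then 1 else 0)) +
        (if e ∉ W ∧ f ∉ W ∧ σ (hd e) ≠ σ (tl e) ∧ σ (hd f) ≠ σ (tl f) then DX D e f else 0)
    with hB
  have h3 : ∀ σ : V → Bool, 2 * biplanarCrossingNumber G ≤ ∑ e : Sym2 V, ∑ f : Sym2 V, B σ e f := by
    intro σ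
    have k1 := hu3 σ
    obtain ⟨P, hPf, hPX⟩ := restr (sub_le G (fun e => ¬ (e ∈ W ∨ σ (hd e) = σ (tl e)))) D hDf
    have k2 := two_cr P hPf (F := fun e f => if e ∉ W ∧ f ∉ W ∧ σ (hd e) ≠ σ (tl e) ∧
        σ (hd f) ≠ σ (tl f) then DX D e f else 0) (by
      intro e he f hf hef
      have q1 := (mem_sub.1 he).2
      have q2 := (mem_sub.1 hf).2
      rw [not_or] at q1 q2
      rw [if_pos ⟨q1.1, q2.1, q1.2, q2.2⟩]
      exact hPX e he f hf hef)
    have k3 := bip_le G (fun e => e ∈ W ∨ σ (hd e) = σ (tl e))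
    rw [hB]
    simp only [Finset.sum_add_distrib] at k1 ⊢
    omega
  have h4 : NN V * (2 * biplanarCrossingNumber G) ≤
      ∑ e : Sym2 V, ∑ f : Sym2 V, ∑ σ : V → Bool, B σ e f := by
    have h5 : NN V * (2 * biplanarCrossingNumber G) =
        ∑ _σ : V → Bool, 2 * biplanarCrossingNumber G := by
      rw [NN, Finset.sum_mul]
      simp
    rw [h5]
    refine (Finset.sum_le_sum fun σ _ => h3 σ).trans (le_of_eq ?_)
    rw [Finset.sum_comm]
    exact Finset.sum_congr rfl fun e _ => Finset.sum_comm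
  set S := ∑ e : Sym2 V, ∑ f : Sym2 V, DX D e f with hSdef
  set C := ∑ e ∈ W, ∑ f : Sym2 V, DX D e f with hC
  have hC1 : ∑ e : Sym2 V, ∑ f : Sym2 V, (if e ∈ W then DX D e f else 0) = C := by
    rw [hC, ← Finset.sum_filter_add_sum_filter_not Finset.univ (fun e => e ∈ W)]
    have : ∑ x ∈ Finset.univ.filter (fun e => e ∉ W), ∑ f : Sym2 V,
        (if x ∈ W then DX D x f else 0) = 0 := by
      refine Finset.sum_eq_zero fun e he => Finset.sum_eq_zero fun f _ => ?_
      rw [if_neg (Finset.mem_filter.1 he).2]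
    rw [this, add_zero, Finset.filter_mem_eq_inter, Finset.univ_inter]
    refine Finset.sum_congr rfl fun e he => Finset.sum_congr rfl fun f _ => ?_
    rw [if_pos he]
  have hC2 : ∑ e : Sym2 V, ∑ f : Sym2 V, (if f ∈ W then DX D e f else 0) = C := by
    rw [← hC1, Finset.sum_comm]
    refine Finset.sum_congr rfl fun e _ => Finset.sum_congr rfl fun f _ => ?_
    rw [DX_symm]
  have hW2 : ∑ e : Sym2 V, ∑ f : Sym2 V, (if e ∈ W ∧ f ∈ W ∧ e ≠ f then 11 else 0) =
      11 * (W.card * W.card - W.card) := by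
    rw [← Finset.offDiag_card, ← Finset.sum_product', Finset.univ_product_univ,
      ← Finset.sum_filter, Finset.sum_const, smul_eq_mul, mul_comm]
    congr 2
    ext ⟨a, b⟩
    simp [Finset.mem_offDiag]
  have h5 : NN V * (16 * biplanarCrossingNumber G + 2 * C) ≤
      NN V * (3 * S + 11 * (W.card * W.card - W.card)) := by
    have h6 : ∑ e : Sym2 V, ∑ f : Sym2 V, (8 * ∑ σ : V → Bool, B σ e f +
        NN V * ((if e ∈ W then DX D e f else 0) + (if f ∈ W then DX D e f else 0))) ≤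
        ∑ e : Sym2 V, ∑ f : Sym2 V, NN V * (3 * DX D e f +
          (if e ∈ W ∧ f ∈ W ∧ e ≠ f then 11 else 0)) :=
      Finset.sum_le_sum fun e _ => Finset.sum_le_sum fun f _ =>
        tube_pair D hD hS hd tl hht W u hu1 hu2 e f
    have h7 : ∑ e : Sym2 V, ∑ f : Sym2 V, (8 * ∑ σ : V → Bool, B σ e f +
        NN V * ((if e ∈ W then DX D e f else 0) + (if f ∈ W then DX D e f else 0))) =
        8 * (∑ e : Sym2 V, ∑ f : Sym2 V, ∑ σ : V → Bool, B σ e f) + NN V * (2 * C) := by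
      simp only [Finset.sum_add_distrib, ← Finset.mul_sum]
      rw [hC1, hC2]
      ring
    have h8 : ∑ e : Sym2 V, ∑ f : Sym2 V, NN V * (3 * DX D e f +
          (if e ∈ W ∧ f ∈ W ∧ e ≠ f then 11 else 0)) =
        NN V * (3 * S + 11 * (W.card * W.card - W.card)) := by
      rw [← hW2, hSdef]
      simp only [Finset.sum_add_distrib, ← Finset.mul_sum]
    rw [h7, h8] at h6
    calc NN V * (16 * biplanarCrossingNumber G + 2 * C) =
          8 * (NN V * (2 * biplanarCrossingNumber G)) + NN V * (2 * C) := by ring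
      _ ≤ 8 * (∑ e : Sym2 V, ∑ f : Sym2 V, ∑ σ : V → Bool, B σ e f) + NN V * (2 * C) :=
          Nat.add_le_add_right (Nat.mul_le_mul_left 8 h4) _
      _ ≤ _ := h6
  have h6 := Nat.le_of_mul_le_mul_left h5 NN_pos
  have h7 := (t_CNT V G D).2 hDf
  omega

end

end Run7.h795
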