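import Pool.Agent.Run7.h795.Prob

/-!
# Gluing at a vertex
-/

set_option autoImplicit false

open Set Classical
open Pool.Agent.Helper770.Crossing Pool.Agent.NH90.CN

namespace Run7.h795

theorem DX_symm {V : Type} {G : SimpleGraph V} (D : Drawing G) (e f : Sym2 V) :
    DX D e f = DX D f e := by
  unfold DX
  by_cases h : e ∈ G.edgeSet ∧ f ∈ G.edgeSet ∧ e ≠ f
  · rw [if_pos h, if_pos ⟨h.2.1, h.1, h.2.2.symm⟩, inter_comm]
  · rw [if_neg h, if_neg fun h' => h ⟨h'.2.1, h'.1, h'.2.2.symm⟩]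

theorem DX_ne {V : Type} {G : SimpleGraph V} {D : Drawing G} {e f : Sym2 V} (h : DX D e f ≠ 0) :
    e ∈ G.edgeSet ∧ f ∈ G.edgeSet ∧ e ≠ f := by
  by_contra h'
  exact h (if_neg h')

/-- crossing edges of a good drawing have no common vertex -/
theorem DX_disj {V : Type} {G : SimpleGraph V} {D : Drawing G} (hD : Good D) {e f : Sym2 V}
    (h : DX D e f ≠ 0) : ∀ u, u ∈ e → u ∉ f := by
  intro u hu hu'
  obtain ⟨h1, h2, h3⟩ := DX_ne h
  apply h
  rw [DX, if_pos ⟨h1, h2, h3⟩, hD e h1 f h2 h3 u hu hu', ncard_empty]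

theorem two_cr {V : Type} [Fintype V] {G : SimpleGraph V} (P : Drawing G)
    (hP : P.crossings.Finite) {F : Sym2 V → Sym2 V → ℕ}
    (hF : ∀ e ∈ G.edgeSet, ∀ f ∈ G.edgeSet, e ≠ f → DX P e f ≤ F e f) :
    2 * crossingNumber G ≤ ∑ e : Sym2 V, ∑ f : Sym2 V, F e f := by
  have h1 := GOOD.cr_le P hP
  have h2 := (t_CNT V G P).2 hP
  have h3 : ∑ e : Sym2 V, ∑ f : Sym2 V, DX P e f ≤ ∑ e : Sym2 V, ∑ f : Sym2 V, F e f := by
    refine Finset.sum_le_sum fun e _ => Finset.sum_le_sum fun f _ => ?_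
    by_cases h : DX P e f = 0
    · rw [h]
      exact Nat.zero_le _
    · obtain ⟨h1, h2, h3⟩ := DX_ne h
      exact hF e h1 f h2 h3
  omega

/-- restriction of a drawing -/
theorem restr {V : Type} [Fintype V] {G G₁ : SimpleGraph V} (hG : G₁ ≤ G) (D : Drawing G)
    (hfin : D.crossings.Finite) : ∃ P : Drawing G₁, P.crossings.Finite ∧
      ∀ e ∈ G₁.edgeSet, ∀ f ∈ G₁.edgeSet, e ≠ f → DX P e f ≤ DX D e f := by
  have hE : ∀ e ∈ G₁.edgeSet, e ∈ G.edgeSet := fun e he => SimpleGraph.edgeSet_mono hG he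
  let P : Drawing G₁ :=
    { pos := D.pos
      pos_injective := D.pos_injective
      arc := D.arc
      arc_continuousOn := fun e he => D.arc_continuousOn e (hE e he)
      arc_injOn := fun e he => D.arc_injOn e (hE e he)
      arc_ends := fun u v h => D.arc_ends u v (hG h)
      arc_avoids := fun e he => D.arc_avoids e (hE e he) }
  refine ⟨P, (t_CNT V G₁ P).1.2 fun e he f hf hef =>
    ((t_CNT V G D).1.1 hfin) e (hE e he) f (hE f hf) hef, fun e he f hf hef => ?_⟩
  rw [DX, DX, if_pos ⟨he, hf, hef⟩, if_pos ⟨hE e he, hE f hf, hef⟩]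

/-- all the arcs of a polygonal drawing lie in finitely many segments -/
theorem exists_cover {V : Type} [Fintype V] {G : SimpleGraph V} (D : Drawing G)
    (hD : ∀ e ∈ G.edgeSet, PLA (D.arc e) 0 1) : ∃ T : Finset (Sym2 ℂ),
      (∀ e ∈ G.edgeSet, D.arc e '' Icc (0 : ℝ) 1 ⊆ ⋃ s ∈ T, sg s) ∧
      ∀ v, D.pos v ∈ ⋃ s ∈ T, sg s := by
  have h1 : ∀ e : Sym2 V, ∃ T : Finset (Sym2 ℂ), e ∈ G.edgeSet →
      D.arc e '' Icc (0 : ℝ) 1 = ⋃ s ∈ T, sg s := by
    intro e
    by_cases he : e ∈ G.edgeSet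
    · obtain ⟨T, hT⟩ := (hD e he).image
      exact ⟨T, fun _ => hT⟩
    · exact ⟨∅, fun h => absurd h he⟩
  choose T hT using h1
  refine ⟨(Finset.univ.biUnion T) ∪ Finset.univ.image (fun v => s(D.pos v, D.pos v)), ?_, ?_⟩
  · intro e he z hz
    rw [hT e he, mem_iUnion₂] at hz
    obtain ⟨s, hs, hz⟩ := hz
    rw [mem_iUnion₂]
    refine ⟨s, ?_, hz⟩
    rw [Finset.mem_union, Finset.mem_biUnion]
    exact Or.inl ⟨e, Finset.mem_univ _, hs⟩
  · intro v
    rw [mem_iUnion₂]
    refine ⟨s(D.pos v, D.pos v), ?_, ?_⟩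
    · rw [Finset.mem_union]
      exact Or.inr (Finset.mem_image_of_mem _ (Finset.mem_univ v))
    · rw [T3.sgmk]
      exact left_mem_segment ℝ _ _

/-- the four end-vertices of two crossing edges -/
theorem ends4 {V : Type} {G : SimpleGraph V} {D : Drawing G} (hD : Good D)
    {hd tl : Sym2 V → V} (hht : ∀ e, s(hd e, tl e) = e) {e f : Sym2 V} (h0 : DX D e f ≠ 0) :
    hd e ∈ e ∧ tl e ∈ e ∧ hd f ∈ f ∧ tl f ∈ f ∧ hd e ≠ tl e ∧ hd f ≠ tl f ∧
      hd e ≠ hd f ∧ hd e ≠ tl f ∧ tl e ≠ hd f ∧ tl e ≠ tl f := by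
  obtain ⟨h1, h2, h3⟩ := DX_ne h0
  have hdis := DX_disj hD h0
  have m : ∀ e, hd e ∈ e ∧ tl e ∈ e := by
    intro e
    have h4 := Sym2.mem_mk_left (hd e) (tl e)
    have h5 := Sym2.mem_mk_right (hd e) (tl e)
    rw [hht] at h4 h5
    exact ⟨h4, h5⟩
  have n : ∀ e ∈ G.edgeSet, hd e ≠ tl e := by
    intro e he h
    have h5 := hht e
    rw [h] at h5
    rw [← h5] at he
    exact G.loopless.irrefl _ ((SimpleGraph.mem_edgeSet G).1 he)
  refine ⟨(m e).1, (m e).2, (m f).1, (m f).2, n e h1, n f h2, ?_, ?_, ?_, ?_⟩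
  · exact fun h => hdis _ (m e).1 (h ▸ (m f).1)
  · exact fun h => hdis _ (m e).1 (h ▸ (m f).2)
  · exact fun h => hdis _ (m e).2 (h ▸ (m f).1)
  · exact fun h => hdis _ (m e).2 (h ▸ (m f).2)

theorem sum_ite_mul {V : Type} [Fintype V] (P : (V → Bool) → Prop) [DecidablePred P] (k : ℕ) :
    ∑ σ : V → Bool, (if P σ then k else 0) = (∑ σ : V → Bool, (if P σ then 1 else 0)) * k := by
  rw [Finset.sum_mul]
  refine Finset.sum_congr rfl fun σ _ => ?_
  split_ifs <;> simp

theorem sum_ite_le {V : Type} [Fintype V] {P Q : (V → Bool) → Prop} [DecidablePred P]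
    [DecidablePred Q] (h : ∀ σ, P σ → Q σ) (k : ℕ) : ∑ σ : V → Bool, (if P σ then k else 0) ≤ ∑ σ : V → Bool, (if Q σ then k else 0) := by
  refine Finset.sum_le_sum fun σ _ => ?_
  by_cases h1 : P σ
  · rw [if_pos h1, if_pos (h σ h1)]
  · rw [if_neg h1]
    exact Nat.zero_le _

/-- the average bound for a single pair of edges in the second plane -/
theorem avg_second {V : Type} [Fintype V] {G : SimpleGraph V} (D : Drawing G) (hD : Good D)
    (hd tl : Sym2 V → V) (hht : ∀ e, s(hd e, tl e) = e) (e f : Sym2 V) :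
    4 * ∑ σ : V → Bool, (if σ (hd e) ≠ σ (tl e) ∧ σ (hd f) ≠ σ (tl f) then DX D e f else 0) ≤
      NN V * DX D e f := by
  by_cases h0 : DX D e f = 0
  · rw [h0]
    simp
  · obtain ⟨_, _, _, _, n1, n2, n3, n4, _, _⟩ := ends4 hD hht h0
    rw [sum_ite_mul (fun σ : V → Bool => σ (hd e) ≠ σ (tl e) ∧ σ (hd f) ≠ σ (tl f)), ← mul_assoc,
      pr_ne n1 n3 n4 n2]

/-- the average bound for a pair of edges in the first plane -/
theorem avg_first {V : Type} [Fintype V] {G : SimpleGraph V} (D : Drawing G) (hD : Good D)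
    (hd tl : Sym2 V → V) (hht : ∀ e, s(hd e, tl e) = e) (e f : Sym2 V) :
    8 * ∑ σ : V → Bool, (if σ (hd e) = σ (tl e) ∧ σ (hd f) = σ (tl f) ∧ σ (hd e) = σ (hd f)
      then DX D e f else 0) ≤ NN V * DX D e f := by
  by_cases h0 : DX D e f = 0
  · rw [h0]
    simp
  · obtain ⟨_, _, _, _, n1, n2, n3, n4, n5, n6⟩ := ends4 hD hht h0
    rw [sum_ite_mul (fun σ : V → Bool => σ (hd e) = σ (tl e) ∧ σ (hd f) = σ (tl f) ∧
      σ (hd e) = σ (hd f)), ← mul_assoc, pr_four n1 n3 n4 n5 n6 n2]

/-- the average bound for a pair of edges in the first plane, one of them cut -/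
theorem avg_cut {V : Type} [Fintype V] {G : SimpleGraph V} (D : Drawing G) (hD : Good D)
    (hd tl : Sym2 V → V) (hht : ∀ e, s(hd e, tl e) = e) (e f : Sym2 V) {u : V} (hu : u ∈ e) :
    4 * ∑ σ : V → Bool, (if σ u = σ (hd f) ∧ σ (hd f) = σ (tl f) then DX D e f else 0) ≤
      NN V * DX D e f := by
  by_cases h0 : DX D e f = 0
  · rw [h0]
    simp
  · obtain ⟨m1, m2, m3, m4, n1, n2, n3, n4, n5, n6⟩ := ends4 hD hht h0
    have hdis := DX_disj hD h0
    have k1 : u ≠ hd f := fun h => hdis _ hu (h ▸ m3)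
    have k2 : u ≠ tl f := fun h => hdis _ hu (h ▸ m4)
    rw [sum_ite_mul (fun σ : V → Bool => σ u = σ (hd f) ∧ σ (hd f) = σ (tl f)), ← mul_assoc,
      pr_three k1 k2 n2]

/-- orientation of all pairs -/
theorem exists_or (V : Type) : ∃ hd tl : Sym2 V → V, ∀ e, s(hd e, tl e) = e :=
  ⟨fun e => (Quot.out e).1, fun e => (Quot.out e).2, fun e => Quot.out_eq e⟩

/-- deleting the edges at a vertex -/
theorem del_le {V : Type} [Fintype V] {G : SimpleGraph V} (D : Drawing G)
    (hDf : D.crossings.Finite) (hDg : Good D) (v : V) :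
    2 * crossingNumber (sub G (fun e => v ∉ e)) +
      2 * ∑ e : Sym2 V, ∑ f : Sym2 V, (if v ∈ e then DX D e f else 0) ≤
      ∑ e : Sym2 V, ∑ f : Sym2 V, DX D e f := by
  set R := ∑ e : Sym2 V, ∑ f : Sym2 V, (if v ∈ e then DX D e f else 0) with hR
  have hR' : ∑ e : Sym2 V, ∑ f : Sym2 V, (if v ∈ f then DX D e f else 0) = R := by
    rw [hR, Finset.sum_comm]
    refine Finset.sum_congr rfl fun e _ => Finset.sum_congr rfl fun f _ => ?_
    rw [DX_symm]
  obtain ⟨P, hPf, hPX⟩ := restr (sub_le G (fun e => v ∉ e)) D hDf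
  have h1 := two_cr P hPf (F := fun e f => if v ∉ e ∧ v ∉ f then DX D e f else 0) (by
    intro e he f hf hef
    rw [if_pos ⟨(mem_sub.1 he).2, (mem_sub.1 hf).2⟩]
    exact hPX e he f hf hef)
  refine le_trans (Nat.add_le_add_right h1 _) ?_
  have h2 : 2 * R = ∑ e : Sym2 V, ∑ f : Sym2 V,
      ((if v ∈ e then DX D e f else 0) + (if v ∈ f then DX D e f else 0)) := by
    simp only [Finset.sum_add_distrib]
    rw [hR', two_mul]
  rw [h2, ← Finset.sum_add_distrib]
  refine Finset.sum_le_sum fun e _ => ?_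
  rw [← Finset.sum_add_distrib]
  refine Finset.sum_le_sum fun f _ => ?_
  by_cases h0 : DX D e f = 0
  · rw [h0]
    simp
  have hdis := DX_disj hDg h0 v
  by_cases hve : v ∈ e
  · simp [hve, hdis hve]
  · by_cases hvf : v ∈ f <;> simp [hve, hvf]

/-- **Gluing at a vertex** -/
theorem vertex_gluing {V : Type} [Fintype V] (G : SimpleGraph V) (v : V) :
    8 * biplanarCrossingNumber G ≤
      2 * crossingNumber G + crossingNumber (sub G (fun e => v ∉ e)) := by
  obtain ⟨D, hDf, hDg, hDn, hDp, -⟩ := exists_nice V G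
  set G' := sub G (fun e => v ∉ e) with hG'
  obtain ⟨D2, hD2f, hD2g, hD2n⟩ := p_GOOD V G'
  obtain ⟨hd, tl, hht⟩ := exists_or V
  have hmem : ∀ e u, u ∈ e ↔ u = hd e ∨ u = tl e := by
    intro e u
    rw [← Sym2.mem_iff, hht]
  obtain ⟨T, hT1, hT2⟩ := exists_cover D hDp
  obtain ⟨d, hpd, hd'⟩ := exists_slit T (D.pos v)
  have hPage : Page (⋃ s ∈ T, sg s) {D.pos v} (slit (D.pos v) d) := by
    refine page_slit hpd fun z hz hz' => ?_
    rw [mem_iUnion₂] at hz
    obtain ⟨s, hs, hz⟩ := hz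
    exact hd' s hs z hz hz'
  -- the two parts
  set Q : (V → Bool) → Sym2 V → Prop := fun σ e => v ∈ e ∨ σ (hd e) = σ (tl e) with hQ
  set pg : (V → Bool) → Sym2 V → Bool := fun σ e => if hd e = v then σ (tl e) else σ (hd e) with hpg
  have p1 : ∀ σ : V → Bool, 2 * crossingNumber (sub G (Q σ)) ≤ ∑ e : Sym2 V, ∑ f : Sym2 V,
      (if Q σ e ∧ Q σ f ∧ pg σ e = pg σ f then DX D e f else 0) := by
    intro σ
    obtain ⟨P, hPf, hPX⟩ := onepage (sub_le G (Q σ)) D hDf hPage hT1 hT2
      (by
        intro u w hu hw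
        rw [mem_singleton_iff] at hu hw
        exact D.pos_injective (hu.trans hw.symm))
      (by
        intro e he z hz hz'
        rw [mem_singleton_iff] at hz'
        subst hz'
        exact ⟨v, pos_mem_arc D he hz, rfl⟩)
      σ (pg σ)
      (by
        intro e he u hu hΓ
        have huv : u ≠ v := fun h => hΓ (by rw [h]; rfl)
        obtain ⟨he1, he2⟩ := mem_sub.1 he
        rw [hpg]
        dsimp only
        rcases (hmem e u).1 hu with rfl | rfl
        · rw [if_neg huv]
        · split_ifs with h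
          · rfl
          · rcases he2 with he2 | he2
            · rcases (hmem e v).1 he2 with h3 | h3
              · exact absurd h3.symm h
              · exact absurd h3.symm huv
            · exact he2.symm)
    refine two_cr P hPf fun e he f hf hef => ?_
    have h1 := hPX e he f hf hef
    have h2 := (mem_sub.1 he).2
    have h3 := (mem_sub.1 hf).2
    by_cases h4 : pg σ e = pg σ f
    · rw [if_pos h4] at h1
      rw [if_pos ⟨h2, h3, h4⟩]
      exact h1
    · rw [if_neg h4] at h1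
      omega
  have p2 : ∀ σ : V → Bool, 2 * crossingNumber (sub G (fun e => ¬ Q σ e)) ≤
      ∑ e : Sym2 V, ∑ f : Sym2 V,
      (if σ (hd e) ≠ σ (tl e) ∧ σ (hd f) ≠ σ (tl f) then DX D2 e f else 0) := by
    intro σ
    have hle : sub G (fun e => ¬ Q σ e) ≤ G' := by
      rw [← SimpleGraph.edgeSet_subset_edgeSet]
      intro e he
      obtain ⟨h1, h2⟩ := mem_sub.1 he
      exact mem_sub.2 ⟨h1, fun h3 => h2 (Or.inl h3)⟩
    obtain ⟨P, hPf, hPX⟩ := restr hle D2 hD2f
    refine two_cr P hPf fun e he f hf hef => ?_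
    have h1 := hPX e he f hf hef
    have h2 := (mem_sub.1 he).2
    have h3 := (mem_sub.1 hf).2
    rw [if_pos ⟨fun h => h2 (Or.inr h), fun h => h3 (Or.inr h)⟩]
    exact h1
  -- the average
  have a1 : ∀ e f : Sym2 V, 8 * ∑ σ : V → Bool,
      (if Q σ e ∧ Q σ f ∧ pg σ e = pg σ f then DX D e f else 0) ≤
      NN V * (DX D e f + (if v ∈ e then DX D e f else 0) + (if v ∈ f then DX D e f else 0)) := by
    intro e f
    by_cases h0 : DX D e f = 0
    · rw [h0]
      simp
    obtain ⟨m1, m2, m3, m4, n1, n2, n3, n4, n5, n6⟩ := ends4 hDg hht h0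
    have hdis := DX_disj hDg h0
    by_cases hve : v ∈ e
    · have hvf : v ∉ f := hdis v hve
      rw [if_pos hve, if_neg hvf, add_zero]
      set a := if hd e = v then tl e else hd e with ha
      have hae : a ∈ e := by
        rw [ha]
        split_ifs
        · exact m2
        · exact m1
      have h1 := avg_cut D hDg hd tl hht e f hae
      have h2 : ∑ σ : V → Bool, (if Q σ e ∧ Q σ f ∧ pg σ e = pg σ f then DX D e f else 0) ≤
          ∑ σ : V → Bool, (if σ a = σ (hd f) ∧ σ (hd f) = σ (tl f) then DX D e f else 0) := by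
        refine sum_ite_le ?_ _
        rintro σ ⟨q1, q2, q3⟩
        have q4 : σ (hd f) = σ (tl f) := q2.resolve_left hvf
        have q5 : pg σ f = σ (hd f) := by
          rw [hpg]
          dsimp only
          rw [if_neg]
          intro h
          exact hvf (h ▸ m3)
        have q6 : pg σ e = σ a := by
          rw [hpg, ha]
          dsimp only
          split_ifs <;> rfl
        rw [q5, q6] at q3
        exact ⟨q3, q4⟩
      nlinarith
    · rw [if_neg hve, add_zero]
      by_cases hvf : v ∈ f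
      · rw [if_pos hvf]
        set a := if hd f = v then tl f else hd f with ha
        have haf : a ∈ f := by
          rw [ha]
          split_ifs
          · exact m4
          · exact m3
        have h1 := avg_cut D hDg hd tl hht f e haf
        rw [DX_symm D f e] at h1
        have h2 : ∑ σ : V → Bool, (if Q σ e ∧ Q σ f ∧ pg σ e = pg σ f then DX D e f else 0) ≤
            ∑ σ : V → Bool, (if σ a = σ (hd e) ∧ σ (hd e) = σ (tl e) then DX D e f else 0) := by
          refine sum_ite_le ?_ _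
          rintro σ ⟨q1, q2, q3⟩
          have q4 : σ (hd e) = σ (tl e) := q1.resolve_left hve
          have q5 : pg σ e = σ (hd e) := by
            rw [hpg]
            dsimp only
            rw [if_neg]
            intro h
            exact hve (h ▸ m1)
          have q6 : pg σ f = σ a := by
            rw [hpg, ha]
            dsimp only
            split_ifs <;> rfl
          rw [q5, q6] at q3
          exact ⟨q3.symm, q4⟩
        nlinarith
      · rw [if_neg hvf, add_zero]
        refine le_trans (Nat.mul_le_mul_left 8 (sum_ite_le ?_ _)) (avg_first D hDg hd tl hht e f)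
        rintro σ ⟨q1, q2, q3⟩
        refine ⟨q1.resolve_left hve, q2.resolve_left hvf, ?_⟩
        rw [hpg] at q3
        dsimp only at q3
        rw [if_neg (fun h : hd e = v => hve (h ▸ m1)),
          if_neg (fun h : hd f = v => hvf (h ▸ m3))] at q3
        exact q3
  set S := ∑ e : Sym2 V, ∑ f : Sym2 V, DX D e f with hS
  set R := ∑ e : Sym2 V, ∑ f : Sym2 V, (if v ∈ e then DX D e f else 0) with hR
  have hR' : ∑ e : Sym2 V, ∑ f : Sym2 V, (if v ∈ f then DX D e f else 0) = R := by
    rw [hR, Finset.sum_comm]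
    refine Finset.sum_congr rfl fun e _ => Finset.sum_congr rfl fun f _ => ?_
    rw [DX_symm]
  set S2 := ∑ e : Sym2 V, ∑ f : Sym2 V, DX D2 e f with hS2
  have s1 : S = 2 * crossingNumber G := by
    rw [hS, ← hDn]
    exact ((t_CNT V G D).2 hDf).symm
  have s2 : S2 = 2 * crossingNumber G' := by
    rw [hS2, ← hD2n]
    exact ((t_CNT V G' D2).2 hD2f).symm
  have s3 : S2 + 2 * R ≤ S := by
    rw [s2]
    exact del_le D hDf hDg v
  have key : NN V * (16 * biplanarCrossingNumber G) ≤ NN V * (S + 2 * R + 2 * S2) := by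
    have h1 : ∀ σ : V → Bool, 2 * biplanarCrossingNumber G ≤
        ∑ e : Sym2 V, ∑ f : Sym2 V,
        ((if Q σ e ∧ Q σ f ∧ pg σ e = pg σ f then DX D e f else 0) +
        (if σ (hd e) ≠ σ (tl e) ∧ σ (hd f) ≠ σ (tl f) then DX D2 e f else 0)) := by
      intro σ
      have h2 := p1 σ
      have h3 := p2 σ
      have h4 := bip_le G (Q σ)
      simp only [Finset.sum_add_distrib]
      omega
    have h2 : NN V * (2 * biplanarCrossingNumber G) ≤ ∑ e : Sym2 V, ∑ f : Sym2 V,
        ((∑ σ : V → Bool, (if Q σ e ∧ Q σ f ∧ pg σ e = pg σ f then DX D e f else 0)) +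
        ∑ σ : V → Bool,
          (if σ (hd e) ≠ σ (tl e) ∧ σ (hd f) ≠ σ (tl f) then DX D2 e f else 0)) := by
      have h3 : NN V * (2 * biplanarCrossingNumber G) =
          ∑ σ : V → Bool, 2 * biplanarCrossingNumber G := by
        rw [NN, Finset.sum_mul]
        simp
      rw [h3]
      refine (Finset.sum_le_sum fun σ _ => h1 σ).trans (le_of_eq ?_)
      rw [Finset.sum_comm]
      refine Finset.sum_congr rfl fun e _ => ?_
      rw [Finset.sum_comm]
      refine Finset.sum_congr rfl fun f _ => ?_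
      rw [Finset.sum_add_distrib]
    calc NN V * (16 * biplanarCrossingNumber G) = 8 * (NN V * (2 * biplanarCrossingNumber G)) := by
          ring
      _ ≤ 8 * _ := Nat.mul_le_mul_left 8 h2
      _ ≤ ∑ e : Sym2 V, ∑ f : Sym2 V, (NN V * (DX D e f + (if v ∈ e then DX D e f else 0) +
            (if v ∈ f then DX D e f else 0)) + 2 * (NN V * DX D2 e f)) := by
          rw [Finset.mul_sum]
          refine Finset.sum_le_sum fun e _ => ?_
          rw [Finset.mul_sum]
          refine Finset.sum_le_sum fun f _ => ?_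
          have h3 := a1 e f
          have h4 := avg_second D2 hD2g hd tl hht e f
          omega
      _ = NN V * (S + 2 * R + 2 * S2) := by
          have h5 : S + 2 * R + 2 * S2 = S + R + R + 2 * S2 := by ring
          rw [h5]
          nth_rewrite 2 [← hR']
          rw [hS, hR, hS2]
          simp only [Finset.sum_add_distrib, ← Finset.mul_sum]
          ring
  have key2 := Nat.le_of_mul_le_mul_left key NN_pos
  omega

/-- the number of crossings on the edges at a vertex, summed over all vertices -/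
theorem sum_vertex {V : Type} [Fintype V] {G : SimpleGraph V} (D : Drawing G) :
    ∑ v : V, ∑ e : Sym2 V, ∑ f : Sym2 V, (if v ∈ e then DX D e f else 0) =
      2 * ∑ e : Sym2 V, ∑ f : Sym2 V, DX D e f := by
  rw [Finset.sum_comm, Finset.mul_sum]
  refine Finset.sum_congr rfl fun e _ => ?_
  rw [Finset.sum_comm, Finset.mul_sum]
  refine Finset.sum_congr rfl fun f _ => ?_
  by_cases h0 : DX D e f = 0
  · rw [h0]
    simp
  · obtain ⟨h1, -, -⟩ := DX_ne h0
    rw [← Finset.sum_filter, Finset.sum_const, smul_eq_mul]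
    congr 1
    induction e with
    | h a b =>
      have hab : a ≠ b := ((SimpleGraph.mem_edgeSet G).1 h1).ne
      have : Finset.univ.filter (fun v => v ∈ s(a, b)) = {a, b} := by
        ext v
        simp [Sym2.mem_iff]
      rw [this, Finset.card_pair hab]

/-- **Gluing at the best vertex** -/
theorem vertex_average {V : Type} [Fintype V] (G : SimpleGraph V) :
    8 * Fintype.card V * biplanarCrossingNumber G + 4 * crossingNumber G ≤
      3 * Fintype.card V * crossingNumber G := by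
  obtain ⟨D, hDf, hDg, hDn⟩ := p_GOOD V G
  have s1 := (t_CNT V G D).2 hDf
  rw [hDn] at s1
  have h1 : ∑ v : V, (2 * crossingNumber (sub G (fun e => v ∉ e)) +
      2 * ∑ e : Sym2 V, ∑ f : Sym2 V, (if v ∈ e then DX D e f else 0)) ≤
      ∑ _v : V, ∑ e : Sym2 V, ∑ f : Sym2 V, DX D e f :=
    Finset.sum_le_sum fun v _ => del_le D hDf hDg v
  rw [Finset.sum_add_distrib, ← Finset.mul_sum, ← Finset.mul_sum, sum_vertex, ← s1,
    Finset.sum_const, smul_eq_mul, Finset.card_univ] at h1
  have h2 : ∑ _v : V, 8 * biplanarCrossingNumber G ≤ ∑ v : V,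
      (2 * crossingNumber G + crossingNumber (sub G (fun e => v ∉ e))) :=
    Finset.sum_le_sum fun v _ => vertex_gluing G v
  rw [Finset.sum_add_distrib, Finset.sum_const, Finset.sum_const, smul_eq_mul, smul_eq_mul,
    Finset.card_univ] at h2
  generalize ∑ v : V, crossingNumber (sub G (fun e => v ∉ e)) = Z at h1 h2
  nlinarith

/-- deleting the edges at a vertex, in two ways -/
theorem sub_eq_delete {V : Type} (G : SimpleGraph V) (v : V) :
    sub G (fun e => v ∉ e) = G.deleteIncidenceSet v := by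
  rw [← SimpleGraph.edgeSet_inj, SimpleGraph.edgeSet_deleteIncidenceSet]
  ext e
  rw [mem_sub]
  simp only [SimpleGraph.incidenceSet, mem_sdiff, mem_ofPred_eq, not_and]
  constructor
  · exact fun h => ⟨h.1, fun _ => h.2⟩
  · exact fun h => ⟨h.1, h.2 h.1⟩

end Run7.h795
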